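/-!
MP_d0b36d_nt, hand-in MoserBound: the algorithms that are run in the kernel (core Lean only).
-/

set_option autoImplicit false

namespace Pool.Agent.Lib.MP_d0b36d_nt.LB

/-! ### one column: a prime `p`, a residue `r` of the exponent modulo `p - 1` -/

/-- partial sums `S(x) = ∑_{i < x} i^r mod p` for `x = 0, 1, …`, packed in fields of width `w`
(the last one is the lowest); the first component is the sum over the whole range -/
def col (p r w : Nat) : Nat → Nat → Nat → Nat → Nat × Nat
  | 0, _, s, acc => (s, acc)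
  | f + 1, x, s, acc => col p r w f (x + 1) ((s + x ^ r % p) % p) (acc * 2 ^ w + s)

/-- `∑_{j < k} 2^(w j)` -/
def ones (w k : Nat) : Nat := (2 ^ (w * k) - 1) / (2 ^ w - 1)

/-- no field of `Y` (values below `2^(w-1)`) equals `c` -/
def nz (w k Y c : Nat) : Bool :=
  Nat.beq (Nat.land (Nat.xor Y (c * ones w k) + (2 ^ (w - 1) - 1) * ones w k)
    (2 ^ (w - 1) * ones w k)) (2 ^ (w - 1) * ones w k)

/-- the test for the residue `d` of the number of terms: `Y` has the fields
`2 S(N) + 2 p - S(N+1) - S(N-d)` -/
def tst (p w acc d : Nat) : Bool :=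
  let S2 := acc * 2 ^ (w * p) + acc
  let Z := 2 * acc + 2 * p * ones w p - Nat.shiftRight S2 (w * (p - 1)) % 2 ^ (w * p)
  let Y := Z - Nat.shiftRight S2 (w * d) % 2 ^ (w * p)
  nz w p Y p && (nz w p Y (2 * p) && nz w p Y (3 * p))

def allT (p w acc : Nat) : List Nat → Bool
  | [] => true
  | d :: t => Nat.blt d p && (tst p w acc d && allT p w acc t)

/-- the check of one column -/
def colOK (p w r : Nat) (ds : List Nat) : Bool :=
  Nat.beq (col p r w p 0 0 0).1 0 && allT p w (col p r w p 0 0 0).2 ds

/-- the check of all columns of a prime -/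
def colsOK (p w : Nat) : List (Nat × List Nat) → Bool
  | [] => true
  | c :: t => Nat.blt 0 c.1 && (Nat.blt c.1 (p - 1) && (Nat.beq (c.1 % 2) 0 &&
      (colOK p w c.1 c.2 && colsOK p w t)))

/-- the bits `2^d` -/
def bits : List Nat → Nat
  | [] => 0
  | d :: t => Nat.lor (2 ^ d) (bits t)

/-- the table of the killed residues: bit `p (r/2) + d` -/
def table (p : Nat) : List (Nat × List Nat) → Nat
  | [] => 0
  | c :: t => Nat.lor (2 ^ (p * (c.1 / 2)) * bits c.2) (table p t)

/-! ### the column `r = 0`, modulo `p^2` -/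

/-- allowed residues of the number of terms modulo `p^2`, when `p - 1` divides the exponent -/
def zrow (p : Nat) : Nat → Nat
  | 0 => 0
  | d + 1 => Nat.lor (zrow p d) (Nat.lor (2 ^ (p * d + d))
      (Nat.lor (bif Nat.blt 0 d then 2 ^ (p * ((d + p - 2) % p) + d) else 0)
        (bif Nat.blt (d + 1) p then 2 ^ (p * ((d + p - 1) % p) + d) else 0)))

def zmask (p : Nat) : Nat := zrow p p

/-! ### the search -/

/-- the allowed numbers of terms below `R`, for the exponent class `r` modulo `p - 1`;
`K` is the table of the killed residues -/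
def msk (R p K r : Nat) : Nat :=
  bif Nat.beq r 0 then zmask p * ones (p * p) (R / (p * p) + 1)
  else (Nat.xor (2 ^ p - 1) (Nat.shiftRight K (p * (r / 2)) % 2 ^ p)) * ones p (R / p + 1)

def step (R m : Nat) : List (Nat × Nat) → Nat → Nat
  | [], S => S
  | c :: t, S => bif Nat.beq S 0 then 0 else step R m t (Nat.land S (msk R c.1 c.2 (m % (c.1 - 1))))

def allB (f : Nat → Bool) : Nat → Bool
  | 0 => true
  | c + 1 => f c && allB f c

def dfs (R : Nat) : List (Nat × List (Nat × Nat)) → Nat → Nat → Nat → Bool
  | [], _, _, S => Nat.beq S 0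
  | (q, ps) :: rest, L, m, S =>
    bif Nat.beq S 0 then true
    else allB (fun c => dfs R rest (L * q) (m + L * c) (step R (m + L * c) ps S)) q

end Pool.Agent.Lib.MP_d0b36d_nt.LB
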