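/-!
MP_d0b36d_nt, hand-in MoserBound: the algorithms for the logarithm of 2 and its continued fraction
(core Lean only; they are run in the kernel).
-/

set_option autoImplicit false

namespace Pool.Agent.Lib.MP_d0b36d_nt.LB

/-- with `y = x^2` and `t = ⌊2^W / x⌋`: `∑_k ⌊2^W / ((2k+1) x^(2k+1))⌋` over `fuel` values of `k` -/
def ath (y : Nat) : Nat → Nat → Nat → Nat → Nat
  | 0, _, _, s => s
  | f + 1, k, t, s => ath y f (k + 1) (t / y) (s + t / (2 * k + 1))

/-- `log 2 = 18 artanh(1/26) + 8 artanh(1/8749) - 2 artanh(1/4801)`, times `2^W` -/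
def lg (W f : Nat) : Nat :=
  18 * ath 676 f 0 (2 ^ W / 26) 0 + 8 * ath 76545001 f 0 (2 ^ W / 8749) 0 -
    2 * ath 23049601 f 0 (2 ^ W / 4801) 0

/-- `true` only if no `x` from the given one on satisfies `c1 x^2 ≤ vh` and `vl ≤ c2 x^2` -/
def sq (c1 c2 vl vh : Nat) : Nat → Nat → Bool
  | 0, _ => false
  | f + 1, x => bif Nat.blt vh (c1 * (x * x)) then true
      else bif Nat.ble vl (c2 * (x * x)) then false else sq c1 c2 vl vh f (x + 1)

/-- Euclid's algorithm on `(u, v)`; `tl / S ≤ q / q' ≤ th / S` for the denominators `q, q'` of the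
two last convergents.  Each partial quotient must be at most `am` or, if `b`, pass the test
`sq`.  The result is `(1, state)`, or `(0, …)` on failure. -/
def cf (S am c1 c2 : Nat) (b : Bool) : Nat → Nat → Nat → Nat → Nat → Nat × Nat × Nat × Nat × Nat
  | 0, u, v, tl, th => (1, u, v, tl, th)
  | f + 1, u, v, tl, th =>
    bif Nat.beq v 0 then (0, u, v, tl, th)
    else bif or (Nat.ble (u / v) am) (and b (sq c1 c2 (u / v * S + u % v * S / v + tl)
        (u / v * S + u % v * S / v + 1 + th) 200 1)) then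
      cf S am c1 c2 b f v (u % v) (S * S / (u / v * S + th + 1)) (S * S / (u / v * S + tl) + 1)
    else (0, u, v, tl, th)

end Pool.Agent.Lib.MP_d0b36d_nt.LB
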