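import Pool.Agent.Lib.MP_d0b36d_nt.LB.Alg

/-!
MP_d0b36d_nt, hand-in MoserBound: killed residues of the number of terms, data and kernel check.
Generated.
-/

set_option autoImplicit false
set_option maxRecDepth 100000

namespace Pool.Agent.Lib.MP_d0b36d_nt.LB

/-- pairs (exponent class, killed classes of the number of terms) for the prime 13 -/
def D13 : List (Nat × List Nat) :=
  [(2, [3, 5, 8, 9, 10, 11]), (4, [3, 8, 9, 10, 11]), (6, [11]), (8, [3, 5, 8, 10, 11]), (10, [3, 5,
  8, 10, 11])]

/-- pairs (exponent class, killed classes of the number of terms) for the prime 79 -/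
def D79 : List (Nat × List Nat) :=
  [(14, [4]), (38, [4]), (44, [4]), (56, [4])]

/-- pairs (exponent class, killed classes of the number of terms) for the prime 397 -/
def D397 : List (Nat × List Nat) :=
  [(6, [152]), (16, [263]), (30, [20, 199]), (42, [75]), (46, [39]), (52, [263]), (68, [320]), (76,
  [34]), (80, [293]), (102, [20]), (118, [140]), (122, [164]), (130, [180]), (134, [5]), (136,
  [170]), (142, [212]), (158, [168]), (166, [315]), (172, [355]), (182, [243]), (194, [132]), (196,
  [385]), (206, [172]), (208, [226]), (214, [332]), (222, [300]), (226, [384]), (230, [223]), (236,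
  [181]), (246, [306]), (258, [30]), (262, [39]), (280, [266]), (292, [393]), (298, [390]), (304,
  [385]), (318, [369]), (322, [301]), (334, [350]), (338, [168]), (354, [369]), (362, [131, 150]),
  (366, [300])]

/-- pairs (exponent class, killed classes of the number of terms) for the prime 433 -/
def D433 : List (Nat × List Nat) :=
  [(4, [317]), (6, [327]), (10, [136, 207, 256, 267, 371, 378]), (14, [51, 167, 183, 189, 331]), (20,
  [224]), (26, [36, 415]), (30, [17, 350, 376, 385]), (34, [26, 66, 86, 91, 201, 275, 354]), (38,
  [81, 160, 371]), (40, [80, 170, 177]), (42, [147]), (44, [253]), (46, [58, 162, 378]), (50, [25]),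
  (52, [338, 349]), (56, [78, 419]), (58, [23, 162, 256, 302, 349]), (62, [12, 162, 183, 185, 257,
  281, 327]), (68, [114]), (70, [43, 160, 278]), (76, [234, 382]), (78, [194, 327]), (82, [89, 144,
  386, 393]), (86, [30, 74]), (88, [48, 163]), (92, [170]), (94, [124]), (100, [74]), (102, [309,
  402]), (104, [232]), (106, [81, 90, 133, 232, 239, 371]), (110, [194, 292]), (114, [373]), (116,
  [253]), (118, [124, 232, 248, 310]), (122, [74, 218, 279]), (124, [280]), (126, [268]), (128,
  [400]), (130, [235, 377]), (134, [139, 161, 183, 258, 349, 371]), (140, [223, 251, 283, 305]),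
  (142, [211, 261, 354, 390]), (146, [371]), (148, [80, 228]), (150, [153]), (152, [256]), (154,
  [89]), (158, [33, 40, 62, 87, 112, 251, 375, 391]), (164, [78, 224, 377]), (166, [129]), (170,
  [415]), (172, [114, 194]), (174, [215]), (178, [287]), (184, [80]), (186, [14, 373]), (188,
  [305]), (190, [20, 58, 62, 78, 144, 272, 378]), (194, [74, 278, 290]), (196, [362]), (200, [255]),
  (202, [155, 302]), (206, [185, 281]), (208, [82]), (212, [221, 340]), (214, [286, 294, 354, 414]),
  (220, [80]), (222, [194]), (226, [124, 251]), (230, [155, 235]), (232, [18]), (238, [105, 377]),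
  (242, [51, 58, 111, 128, 399]), (246, [314, 429]), (248, [103]), (250, [33, 49, 286, 390]), (254,
  [218]), (260, [253]), (262, [134]), (266, [40, 74, 359]), (268, [349]), (274, [43, 428]), (278,
  [125, 261]), (280, [166]), (282, [38]), (286, [11, 48, 74, 310]), (290, [74]), (292, [382]), (298,
  [136]), (302, [331]), (304, [365]), (306, [106]), (310, [124]), (314, [137, 323, 324]), (316,
  [194]), (318, [371]), (322, [49, 66, 86, 91, 285, 367]), (326, [34, 386]), (330, [47, 113]), (334,
  [78, 124, 134, 144, 236, 256, 325, 349]), (338, [258]), (340, [349]), (342, [206, 345]), (344,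
  [52]), (350, [158, 161, 183, 184, 281, 354]), (354, [284]), (356, [225]), (358, [193, 283, 402]),
  (364, [130]), (366, [139]), (370, [89, 162, 203]), (374, [19, 177]), (376, [366]), (382, [124,
  128, 256]), (386, [399]), (388, [78]), (394, [287]), (398, [100, 171]), (406, [52, 62, 187, 247]),
  (410, [279]), (412, [48, 259, 280]), (416, [400]), (420, [188]), (422, [29, 162, 324]), (424,
  [94]), (426, [309]), (428, [305, 381]), (430, [26, 91, 233, 286, 310, 410, 414])]

/-- pairs (exponent class, killed classes of the number of terms) for the prime 661 -/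
def D661 : List (Nat × List Nat) :=
  [(6, [189]), (178, [353]), (262, [414]), (298, [353]), (314, [444]), (338, [97]), (406, [285]),
  (438, [609]), (464, [83]), (548, [394]), (590, [569])]

/-- pairs (exponent class, killed classes of the number of terms) for the prime 673 -/
def D673 : List (Nat × List Nat) :=
  [(100, [93]), (118, [580]), (206, [236]), (314, [609]), (348, [160]), (394, [110]), (670, [6])]

/-- pairs (exponent class, killed classes of the number of terms) for the prime 859 -/
def D859 : List (Nat × List Nat) :=
  [(296, [606])]

theorem cols13 : colsOK 13 7 D13 = true := by decide +kernel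

theorem cols79 : colsOK 79 10 D79 = true := by decide +kernel

theorem cols397 : colsOK 397 12 D397 = true := by decide +kernel

theorem cols433 : colsOK 433 12 D433 = true := by decide +kernel

theorem cols661 : colsOK 661 13 D661 = true := by decide +kernel

theorem cols673 : colsOK 673 13 D673 = true := by decide +kernel

theorem cols859 : colsOK 859 13 D859 = true := by decide +kernel

end Pool.Agent.Lib.MP_d0b36d_nt.LB
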