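import Pool.Agent.Lib.MP_d0b36d_nt.LB.Alg

/-!
MP_d0b36d_nt, hand-in MoserBound: killed residues of the number of terms, data and kernel check.
Generated.
-/

set_option autoImplicit false
set_option maxRecDepth 100000

namespace Pool.Agent.Lib.MP_d0b36d_nt.LB

/-- pairs (exponent class, killed classes of the number of terms) for the prime 11 -/
def D11 : List (Nat × List Nat) :=
  [(2, [3, 4, 6, 7]), (4, [6, 7]), (6, [4, 6, 8]), (8, [7])]

/-- pairs (exponent class, killed classes of the number of terms) for the prime 29 -/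
def D29 : List (Nat × List Nat) :=
  [(2, [3, 4, 6, 7, 11, 13, 15, 17, 19, 20, 21, 22, 23, 26, 27]), (4, [3, 4, 5, 6, 9, 11, 12, 13, 15,
  19, 20, 21, 27]), (6, [4, 5, 7, 10, 19, 25, 27]), (8, [4, 12, 18, 23, 24, 26, 27]), (10, [3, 6, 7,
  10, 16, 17, 22, 25, 26, 27]), (12, [4, 6, 16, 17, 21, 22, 26, 27]), (14, [23, 27]), (16, [6, 7, 8,
  10, 18, 22, 27]), (18, [5, 7, 9, 10, 12, 16, 19, 20, 22, 24, 27]), (20, [5, 6, 7, 13, 20, 24, 25,
  27]), (22, [7, 9, 12, 15, 23, 24, 27]), (24, [7, 8, 12, 13, 16, 22, 23, 24, 27]), (26, [3, 5, 6,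
  9, 13, 19, 20, 22, 24, 26, 27])]

/-- pairs (exponent class, killed classes of the number of terms) for the prime 67 -/
def D67 : List (Nat × List Nat) :=
  [(2, [3, 7, 14, 24, 28, 29, 35, 42, 49, 56]), (4, [7, 16, 18, 20, 21, 22, 35, 63]), (6, [40, 43,
  57, 58, 60]), (8, [14, 26, 28, 31, 37, 56]), (10, [4, 7, 8, 12, 13, 18, 19, 22, 23, 24, 38, 42,
  44, 57, 58, 62]), (12, [6, 10, 13, 22, 27, 37, 43, 57]), (14, [4, 7, 26, 28, 40, 55, 59, 62]),
  (16, [4, 13, 16, 20, 21, 23, 35, 44, 53, 63, 64]), (18, [6, 13, 22, 26, 40, 43, 58, 59]), (20,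
  [12, 14, 17, 21, 26, 29, 37]), (22, [22, 28, 29, 65]), (24, [13, 27, 57]), (26, [4, 9, 14, 29, 56,
  59]), (28, [13, 20, 21, 22, 25, 28, 55, 63, 64]), (30, [10, 26, 27, 37, 43]), (32, [10, 14, 21,
  35, 49, 55, 56, 59]), (34, [8, 12, 13, 20, 21, 25, 28, 48, 49, 53, 63]), (36, [6, 22]), (38, [3,
  4, 7, 17, 29, 31, 37, 40, 42, 55, 58, 62]), (40, [7, 13, 18, 24, 28, 35, 45, 57, 63]), (42, [27,
  59]), (46, [7, 13, 14, 16, 57, 64]), (50, [3, 24, 31, 35, 42, 53]), (52, [3, 12, 16, 20, 23, 28,
  29, 35, 42, 48, 55, 58, 64]), (54, [43, 58]), (56, [4, 26, 31, 49, 62]), (58, [20, 21, 25, 38, 53,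
  57]), (60, [26, 39, 57, 60]), (62, [10, 14, 28, 29, 31, 37, 40, 49, 53, 58, 59, 62]), (64, [3, 7,
  12, 13, 29, 42, 57, 58, 63])]

/-- pairs (exponent class, killed classes of the number of terms) for the prime 131 -/
def D131 : List (Nat × List Nat) :=
  [(6, [128]), (26, [128]), (76, [128]), (86, [128]), (126, [128])]

/-- pairs (exponent class, killed classes of the number of terms) for the prime 199 -/
def D199 : List (Nat × List Nat) :=
  [(2, [81]), (4, [9]), (10, [152]), (16, [33, 93, 138]), (20, [35, 56]), (24, [173]), (26, [29,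
  140]), (28, [17, 55, 181]), (32, [29, 179]), (34, [128, 138]), (38, [29, 85]), (40, [9, 44, 62]),
  (42, [84, 95, 170, 173, 191]), (46, [93, 94, 117]), (48, [144]), (50, [21, 29, 93, 129, 179,
  195]), (52, [16]), (56, [29, 40]), (58, [74]), (60, [173]), (64, [27, 93, 96, 128]), (68, [44,
  129]), (70, [41, 80, 82]), (74, [28]), (76, [36, 74]), (80, [115, 153]), (82, [55, 152, 163, 181,
  182]), (86, [69, 129, 160, 184, 196]), (88, [190]), (92, [29]), (94, [36, 62]), (100, [31, 55, 56,
  94, 126, 128]), (112, [74, 161]), (114, [27]), (116, [65]), (118, [87]), (120, [43]), (122, [21,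
  67, 129, 160, 177, 184]), (124, [43, 82, 190]), (128, [56, 85]), (130, [17, 62, 105, 161]), (136,
  [27, 152, 191]), (140, [21, 67, 69, 196]), (142, [31, 82, 93, 102, 157]), (150, [84]), (156,
  [144]), (158, [29, 90]), (160, [58]), (166, [17, 36]), (170, [195]), (172, [87, 93, 117, 181]),
  (176, [83]), (178, [16, 80, 102, 157]), (182, [29]), (184, [44, 89]), (186, [19, 127, 191]), (188,
  [127]), (190, [27]), (192, [186]), (196, [31, 33])]

/-- pairs (exponent class, killed classes of the number of terms) for the prime 353 -/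
def D353 : List (Nat × List Nat) :=
  [(6, [112]), (10, [284]), (12, [206]), (14, [89, 91, 148]), (30, [302]), (40, [99]), (42, [293,
  306]), (46, [91, 255, 329]), (54, [266]), (56, [266]), (58, [284]), (60, [13, 160, 207, 291]),
  (70, [213]), (74, [201, 229]), (78, [89]), (82, [226]), (86, [65, 100, 112, 340]), (94, [89,
  302]), (106, [344]), (118, [112, 296]), (126, [189, 251, 255]), (130, [22, 40]), (134, [350]),
  (142, [186]), (150, [296]), (156, [13, 122]), (158, [186]), (164, [79]), (168, [99, 152]), (170,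
  [25, 226]), (174, [89, 329]), (182, [112, 241, 296]), (186, [219, 284]), (190, [91, 148]), (194,
  [223]), (222, [329]), (226, [223]), (230, [100, 256, 295]), (232, [99]), (236, [291]), (238,
  [255]), (250, [284]), (252, [27]), (254, [89, 99]), (258, [223]), (260, [119]), (268, [28]), (270,
  [186, 286]), (274, [88, 232, 254]), (278, [65]), (290, [95]), (294, [112]), (300, [117]), (306,
  [18, 22]), (310, [65]), (318, [99, 189]), (334, [186]), (340, [18]), (348, [291]), (350, [148,
  276])]

/-- pairs (exponent class, killed classes of the number of terms) for the prime 631 -/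
def D631 : List (Nat × List Nat) :=
  [(2, [212]), (4, [223]), (26, [65]), (34, [556]), (38, [625]), (56, [337]), (62, [302, 569]), (64,
  [266]), (66, [110]), (74, [186]), (76, [619]), (80, [524]), (82, [85]), (88, [157, 257]), (94,
  [389]), (136, [224]), (166, [70]), (172, [490]), (174, [56]), (178, [439, 466, 612]), (184, [383,
  401]), (188, [126]), (194, [64]), (198, [103]), (216, [490]), (218, [85]), (226, [292]), (232,
  [358]), (236, [24]), (244, [253]), (256, [380]), (268, [627]), (272, [375]), (274, [261]), (280,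
  [503]), (286, [186, 255, 395]), (296, [122]), (316, [391]), (346, [110]), (352, [405, 438]), (354,
  [142]), (368, [358, 527]), (374, [127]), (376, [512]), (394, [130]), (424, [179, 452]), (428,
  [471]), (434, [186]), (436, [550]), (442, [258]), (458, [281, 358]), (460, [409]), (474, [194]),
  (482, [106, 375, 537]), (484, [88]), (494, [543]), (502, [353]), (514, [35, 405, 494]), (518,
  [410]), (524, [226]), (526, [502]), (532, [110]), (538, [80]), (544, [296]), (550, [503]), (556,
  [597]), (562, [26]), (572, [206]), (578, [97, 408]), (584, [586]), (586, [90, 97, 290]), (596,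
  [232]), (608, [141, 251, 363]), (610, [122]), (626, [599])]

/-- pairs (exponent class, killed classes of the number of terms) for the prime 881 -/
def D881 : List (Nat × List Nat) :=
  [(74, [98]), (408, [38]), (438, [143])]

theorem cols11 : colsOK 11 7 D11 = true := by decide +kernel

theorem cols29 : colsOK 29 8 D29 = true := by decide +kernel

theorem cols67 : colsOK 67 10 D67 = true := by decide +kernel

theorem cols131 : colsOK 131 11 D131 = true := by decide +kernel

theorem cols199 : colsOK 199 11 D199 = true := by decide +kernel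

theorem cols353 : colsOK 353 12 D353 = true := by decide +kernel

theorem cols631 : colsOK 631 13 D631 = true := by decide +kernel

theorem cols881 : colsOK 881 13 D881 = true := by decide +kernel

end Pool.Agent.Lib.MP_d0b36d_nt.LB
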