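import Pool.Agent.Lib.MP_d0b36d_nt.LB.D1
import Pool.Agent.Lib.MP_d0b36d_nt.LB.D2
import Pool.Agent.Lib.MP_d0b36d_nt.LB.D3
import Pool.Agent.Lib.MP_d0b36d_nt.LB.D4
import Pool.Agent.Lib.MP_d0b36d_nt.LB.D5
import Pool.Agent.Lib.MP_d0b36d_nt.LB.D6
import Pool.Agent.Lib.MP_d0b36d_nt.LB.D7

/-!
MP_d0b36d_nt, hand-in MoserBound: the stages of the covering and its kernel check.  Generated.
-/

set_option autoImplicit false
set_option maxRecDepth 100000

namespace Pool.Agent.Lib.MP_d0b36d_nt.LB

/-- the stages: factor of the modulus, primes with their tables -/
def stages : List (Nat × List (Nat × Nat)) :=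
  [(1, [(3, 0)]),
   (2, [(5, table 5 D5)]),
   (3, [(7, table 7 D7), (13, table 13 D13)]),
   (3, [(19, table 19 D19), (37, table 37 D37)]),
   (2, [(73, table 73 D73)]),
   (5, [(11, table 11 D11), (31, table 31 D31), (41, table 41 D41), (61, table 61 D61), (181, table
     181 D181)]),
   (2, [(17, table 17 D17), (241, table 241 D241)]),
   (7, [(29, table 29 D29), (43, table 43 D43), (71, table 71 D71), (113, table 113 D113), (127,
     table 127 D127), (211, table 211 D211), (281, table 281 D281), (337, table 337 D337), (421, table
     421 D421)]),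
   (3, [(109, table 109 D109), (271, table 271 D271), (379, table 379 D379), (433, table 433 D433)]),
   (2, [(97, table 97 D97), (541, table 541 D541), (631, table 631 D631)]),
   (11, [(23, table 23 D23), (67, table 67 D67), (89, table 89 D89), (199, table 199 D199), (331,
     table 331 D331), (353, table 353 D353), (397, table 397 D397), (463, table 463 D463), (617, table
     617 D617), (661, table 661 D661), (673, table 673 D673), (757, table 757 D757), (881, table 881
     D881), (991, table 991 D991), (1009, table 1009 D1009)]),
   (13, [(53, table 53 D53), (79, table 79 D79), (131, table 131 D131), (157, 0), (313, table 313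
     D313), (521, table 521 D521), (547, 0), (859, table 859 D859), (911, 0), (937, 0), (1093, 0)])]

theorem run : dfs 74016 stages 2 0 (12 * ones 16 4626 - 12) = true := by decide +kernel

end Pool.Agent.Lib.MP_d0b36d_nt.LB
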