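import Mathlib
import Pool.Agent.Lib.MP_d0b36d_nt.LS.Stm
import Pool.Agent.Lib.MP_d0b36d_nt.LB.Alg
import Pool.Agent.Lib.MP_d0b36d_nt.LB.AlgC

/-!
MP_d0b36d_nt, hand-in MoserBound: the statements of the pieces.

`LS.Sol n k m`: `n ≥ 4`, `k, m ≥ 1`, `k^n + ... + (k+m)^n = (k+m+1)^n`; `N = k + m + 1`, and
`M = m + 1` is the number of terms.  `LS.p_sol : LS.SolStm` (file LS/PSol) gives
`14 ≤ m`, `5 N < 8 n`, `n / N < log 2`.
-/

set_option autoImplicit false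

namespace Pool.Agent.Lib.MP_d0b36d_nt.LB

open Finset
open Pool.Agent.Lib.MP_d0b36d_nt.LS (Sol)

/-! ## Part B: no short sums -/

/-- partial power sums modulo `p` -/
def ps (p r x : ℕ) : ℕ := (∑ i ∈ range x, i ^ r) % p

/-- **Piece ONES.**  `ones w k = ∑_{j < k} 2^(w j)`, and multiplication by it repeats a block:
for `A < 2^w`, `1 ≤ w`, `i < w k`: bit `i` of `A * ones w k` is bit `i % w` of `A`
(induction on `k` from `ones w (k+1) = ones w k + 2^(w k)`, `Nat.testBit_two_pow_mul_add`). -/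
def OnesStm : Prop := ∀ w k : ℕ, 1 ≤ w →
  ones w k = Nat.ofDigits (2 ^ w) (List.replicate k 1) ∧
  ∀ A i : ℕ, A < 2 ^ w → i < w * k → (A * ones w k).testBit i = A.testBit (i % w)

/-- **Piece NZ.**  If the test `nz` passes then no field equals `c`.  By induction on the list `l` one
shows that `xor`, `+` and `land` act field by field on `Nat.ofDigits (2^w)` of lists with entries
`< 2^w` (no carries: a field of the `xor` is `< 2^(w-1)`, and `x + (2^(w-1) - 1) < 2^w`); the field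
of the last `land` is `2^(w-1)` if `y ≠ c` and `0` if `y = c`. -/
def NzStm : Prop := ∀ (w c : ℕ) (l : List ℕ), 2 ≤ w → (∀ y ∈ l, y < 2 ^ (w - 1)) → c < 2 ^ (w - 1) →
  nz w l.length (Nat.ofDigits (2 ^ w) l) c = true → c ∉ l

/-- **Piece COLP.**  The value of `col`: partial sum and packed list of the partial sums,
the last one in the lowest field (generalise over the start `x`, induction on the fuel). -/
def ColpStm : Prop := ∀ p r w f : ℕ, 0 < p →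
  col p r w f 0 0 0 = (ps p r f, Nat.ofDigits (2 ^ w) ((List.range f).reverse.map (ps p r)))

/-- **Piece TST.**  With `g : ℕ → ℕ`, `g x < p`, `acc` = the packed `g(p-1), …, g(0)` (the field `j`
is `g(p-1-j)`), `S2` has the `2 p` fields `g((-1-j) mod p)`; the shifted number
`S2 / 2^(w d) mod 2^(w p)` has the field `j` equal to `g((-1-j-d) mod p)`, that is
`g((N-d) mod p)` for `N = p-1-j`; for `d = p - 1` this is `g((N+1) mod p)`.  So `Y` has the fields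
`2 g(N) + 2 p - g(N+1 mod p) - g(N-d mod p)`, in `[2, 4 p - 2]`, and the claim is NZ for
`c = p, 2p, 3p`. -/
def TstStm : Prop := ∀ (p w d : ℕ) (g : ℕ → ℕ), 2 ≤ p → 2 ≤ w → 4 * p ≤ 2 ^ (w - 1) →
  (∀ x, g x < p) → d < p →
  tst p w (Nat.ofDigits (2 ^ w) ((List.range p).reverse.map g)) d = true →
  ∀ N < p, ∀ c ∈ [p, 2 * p, 3 * p],
    2 * g N + 2 * p - g ((N + 1) % p) - g ((N + (p - d)) % p) ≠ c

/-- no solution with exponent `≡ r` modulo `p - 1` and number of terms `≡ d` modulo `p` -/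
def Killed (p r d : ℕ) : Prop := ∀ n k m : ℕ, Sol n k m → n % (p - 1) = r → (m + 1) % p = d → False

/-- **Piece COL** (from COLP, TST).  Let `n % (p-1) = r ≥ 1`.  For all `x`, `x^n ≡ x^r mod p` (both
`0` if `p ∣ x`; `ZMod.pow_card_sub_one_eq_one` otherwise).  The check gives `ps p r p = 0`, so
`∑_{i < x} i^n ≡ ps p r (x % p) mod p` for all `x`.  Let `N = k + m + 1`, `d = (m+1) % p`,
`N' = N % p`; then `k % p = (N' + (p - d)) % p` and
`∑_{i<N} i^n - ∑_{i<k} i^n = N^n = ∑_{i<N+1} i^n - ∑_{i<N} i^n` gives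
`2 ps(N') ≡ ps(N'+1 mod p) + ps(k mod p)`, so the number `2 ps(N') + 2p - ps((N'+1) % p) - ps(k % p)`,
which lies in `[2, 4p-2]`, is `p`, `2p` or `3p`, against TST. -/
def ColStm : Prop := ∀ (p w r : ℕ) (ds : List ℕ), p.Prime → 2 ≤ w → 4 * p ≤ 2 ^ (w - 1) → 0 < r →
  r < p - 1 → colOK p w r ds = true → ∀ d ∈ ds, d < p ∧ Killed p r d

/-- validity of a table -/
def TabOK (p K : ℕ) : Prop := ∀ r d : ℕ, 0 < r → r < p - 1 → r % 2 = 0 → d < p →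
  K.testBit (p * (r / 2) + d) = true → Killed p r d

/-- **Piece TAB** (from COL).  A bit `i` of `table p D` is set only if `i = p (c.1/2) + d` with
`c ∈ D`, `d ∈ c.2` (`Nat.testBit_lor`, `Nat.testBit_two_pow_mul`, ...), and then `d < p`; so `c.1/2`
and `d` are determined by `i`, and `c.1` is even. -/
def TabStm : Prop := ∀ (p w : ℕ) (D : List (ℕ × List ℕ)), p.Prime → 2 ≤ w → 4 * p ≤ 2 ^ (w - 1) →
  colsOK p w D = true → TabOK p (table p D)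

/-- **Piece ZZ.**  If `p - 1 ∣ n` then `x^n ≡ 1` or `0 mod p`, so the number of `i ∈ [k, N)` not
divisible by `p` is `≡ 1` (`p ∤ N`) or `≡ 0` (`p ∣ N`).  Let `M = m + 1 = f p + d`, `d < p`; among
`N-1, …, N-M` there are `f` multiples of `p`, plus one if `1 ≤ N % p ≤ d`.  So `f ≡ d`
(if `p ∣ N`), or `f ≡ d - 2` (if `1 ≤ N % p ≤ d`, so `d ≥ 1`), or `f ≡ d - 1` (if `N % p > d`, so
`d + 1 < p`), modulo `p`; the bit of `M % p^2 = p (f % p) + d` is set in `zmask p`. -/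
def ZzStm : Prop := ∀ p : ℕ, p.Prime → 3 ≤ p →
  (zmask p < 2 ^ (p * p)) ∧
  ∀ n k m : ℕ, Sol n k m → n % (p - 1) = 0 → (zmask p).testBit ((m + 1) % (p * p)) = true

/-- **Piece MSK** (from ONES, ZZ).  For a solution with fewer than `R` terms the bit of the number
of terms is set in the mask. -/
def MskStm : Prop := ∀ R p K : ℕ, p.Prime → 3 ≤ p → TabOK p K →
  ∀ n k m : ℕ, Sol n k m → Even n → m + 1 < R → (msk R p K (n % (p - 1))).testBit (m + 1) = true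

/-- validity of the list of the stages -/
def Cert : List (ℕ × List (ℕ × ℕ)) → ℕ → Prop
  | [], _ => True
  | (q, l) :: rest, L => (1 ≤ q ∧ ∀ c ∈ l, c.1.Prime ∧ 3 ≤ c.1 ∧ (c.1 - 1) ∣ L * q ∧ TabOK c.1 c.2) ∧
      Cert rest (L * q)

/-- **Piece DFS** (from MSK).  Induction on the list of the stages: if `n ≡ b mod L` and the bit of
`M = m + 1` is set in `S` then `S ≠ 0`; there is `c < q` with `n ≡ b + L c mod L q`; every mask used
in `step` has the bit of `M` set (`(b + L c) % (p-1) = n % (p-1)` because `p - 1 ∣ L q`), so the result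
of `step` has it too, and the induction hypothesis applies. -/
def DfsStm : Prop := ∀ (R : ℕ) (l : List (ℕ × List (ℕ × ℕ))) (L b S : ℕ), 1 ≤ L → Cert l L →
  dfs R l L b S = true →
  ∀ n k m : ℕ, Sol n k m → Even n → m + 1 < R → n % L = b % L → S.testBit (m + 1) = true → False

/-- **Piece TWO.**  `n` is even (`odd_case`, file Odd).  Let `c` be the number of odd `i ∈ [k, N)`.
(i) `N` is odd.  Otherwise `8 ∣ c` (`parity_count` with `v = 1`) and `c > 0`, as `m + 1 ≥ 15`.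
Let `2^e` be the exact power of `2` in `c`.  For even `n` the sum of `i^n` over `2^e` consecutive odd
`i` is `≡ 2^e mod 2^(e+1)` (the `i` are all odd residues modulo `2^(e+1)`, and
`T_e = ∑_{r odd < 2^(e+1)} r^n ≡ 2^e mod 2^(e+1)` by induction:
`T_(e+1) = ∑_{r odd < 2^(e+1)} (r^n + (r + 2^(e+1))^n) ≡ 2 T_e mod 2^(e+2)`).  So the sum over the `c`
odd `i`, an odd number of such blocks, is `≡ 2^e mod 2^(e+1)`; but it is `N^n` minus a sum of even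
`n`-th powers, divisible by `2^n`; so `e ≥ n`, `2^n ≤ c < N < 8n/5`, impossible for `n ≥ 4`.
(ii) `N` odd: `8 ∣ c - 1` by `parity_count`, and `c = (m+1)/2` because `N - 1` is even.
(EvB.lean in LS is a copy of Even.lean that can be imported together with Odd.lean.) -/
def TwoStm : Prop := ∀ n k m : ℕ, Sol n k m → Even n ∧ 16 ≤ m + 1 ∧
  ((m + 1) % 16 = 2 ∨ (m + 1) % 16 = 3)

/-- the list of the stages that is used (data, file LB/Data) satisfies this -/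
def RunStm : Prop := ∃ l : List (ℕ × List (ℕ × ℕ)), Cert l 2 ∧
  dfs 74016 l 2 0 (12 * ones 16 4626 - 12) = true

/-- **Piece SHORT** (from ONES, TWO, DFS, RUN): every solution has at least `74016` terms. -/
def ShortStm : Prop := ∀ n k m : ℕ, Sol n k m → 74016 ≤ m + 1

/-! ## Part C: long sums -/

/-- `A_k(s) = ∑_{j ≥ 1} j^k e^{-js}` -/
noncomputable def ak (k : ℕ) (s : ℝ) : ℝ := ∑' j : ℕ, (j : ℝ) ^ k * Real.exp (-(j * s))

/-- **Piece AK.**  Facts on `A_k(s)`, `s > 0`, `z = e^{-s}`: for `k ≥ 1` the terms are summable and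
`A_k(s) ≤ k! z / (1-z)^(k+1)`, because `j^k ≤ j (j+1) ⋯ (j+k-1) = k! C(j-1+k, k)` and
`∑_{j ≥ 0} C(j+k, k) z^j = 1/(1-z)^(k+1)` (`tsum_choose_mul_geometric_of_norm_lt_one`); for
`0 < s ≤ l` termwise Taylor with `j^k e^{-jl} (e^{jw} - 1) ∈ [0, w j^(k+1) e^{-js}]`, `w = l - s`, gives
`0 ≤ A_k(s) - A_k(l) ≤ w A_(k+1)(s)` and
`0 ≤ A_k(s) - A_k(l) - w A_(k+1)(l) ≤ (w^2/2) A_(k+2)(s)`. -/
def AkStm : Prop :=
  (∀ (k : ℕ) (s : ℝ), 1 ≤ k → 0 < s → Summable (fun j : ℕ => (j : ℝ) ^ k * Real.exp (-(j * s))) ∧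
    0 ≤ ak k s ∧ ak k s ≤ k.factorial * Real.exp (-s) / (1 - Real.exp (-s)) ^ (k + 1)) ∧
  (∀ (k : ℕ) (s l : ℝ), 1 ≤ k → 0 < s → s ≤ l →
    0 ≤ ak k s - ak k l ∧ ak k s - ak k l ≤ (l - s) * ak (k + 1) s ∧
    0 ≤ ak k s - ak k l - (l - s) * ak (k + 1) l ∧
    ak k s - ak k l - (l - s) * ak (k + 1) l ≤ (l - s) ^ 2 / 2 * ak (k + 2) s)

/-- the main part, `t = 1/N`; `1/(e^s - 1) = ∑_{j ≥ 1} e^{-js}` -/
noncomputable def mainF (s t : ℝ) : ℝ :=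
  1 / (Real.exp s - 1) - s * t / 2 * ak 2 s + t ^ 2 * (s ^ 2 / 8 * ak 4 s - s / 3 * ak 3 s)

/-- **Piece FF** (from AK).  Let `s = n/N`, `t = 1/N`, `5/8 ≤ s ≤ log 2`, `N ≥ 74000`, and
`v0 = s (j^2 t/2 + j^3 t^2/3)`.  With `y = j t ∈ (0, 1)`:
`(1-y)^n ≤ e^{-js} (1 - v0 + v0^2/2)` (from `-log(1-y) ≥ y + y^2/2 + y^3/3`), and
`(1-y)^n ≥ e^{-js} (1 - v0 + v0^2/2 - v0^3/6 - s j^4 t^3/2)`: for `y ≤ 1/2` from
`-log(1-y) ≤ y + y^2/2 + y^3/3 + y^4/2`, and `e^{-v} ≥ 1 - v + v^2/2 - v^3/6`,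
`e^{-v0-v1} ≥ e^{-v0} - v1`; for `y > 1/2` the right side is `≤ 0`, because
`v0 ≥ s j^2 t/2 ≥ 5000`.  For `j t ≥ 1` the lower bound expression is `≤ 0` too, so
`∑_{1≤j<N} (1-jt)^n` lies between the two sums over all `j ≥ 1`.  Now
`0 ≤ v0^2/2 - s^2 t^2 j^4/8 = s^2 t^3 j^5/6 + s^2 t^4 j^6/18` and
`v0^3/6 = (s^3 t^3 j^6/48) (1 + 2tj/3)^3 = (s^3 t^3/48) (j^6 + 2 t j^7 + (4/3) t^2 j^8 + (8/27) t^3 j^9)`.
With the bounds of AK (`1/(1-z) ≤ 2.152` for `s ≥ 5/8`, and `≤ 2.0002` for `s ≥ 0.6931`;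
`s ≤ 0.69315`) the total error is at most `1000 t^3`, resp. `500 t^3`. -/
def FfStm : Prop := ∀ n N : ℕ, 74000 ≤ N → 5 * N ≤ 8 * n → (n : ℝ) / N ≤ Real.log 2 →
  |(∑ j ∈ Ico 1 N, (1 - (j : ℝ) / N) ^ n) - mainF ((n : ℝ) / N) (1 / N)| ≤ 1000 / (N : ℝ) ^ 3 ∧
  (0.6931 ≤ (n : ℝ) / N →
    |(∑ j ∈ Ico 1 N, (1 - (j : ℝ) / N) ^ n) - mainF ((n : ℝ) / N) (1 / N)| ≤ 500 / (N : ℝ) ^ 3)

/-- `(25/3) log 2 - 12 (log 2)^2 = 0.010790…` -/
noncomputable def kap : ℝ := 25 / 3 * Real.log 2 - 12 * Real.log 2 ^ 2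

/-- **Piece EXPN** (from AK, FF).  `l = log 2`, `s = n/N`, `t = 1/N`, `w = l - s > 0`,
`M = m + 1`, `Q = 2N - 3`.  The sum over `1 ≤ j < N` is `1 + T` with
`0 ≤ T = ∑_{M < j < N} (1-jt)^n ≤ ∑_{j > M} e^{-5j/8} ≤ 2 e^{-5M/8} ≤ 2 · 10^(-8)/N^2`.
1. `1/(e^s-1) - 1 = 1/(2e^{-w} - 1) - 1 ≥ 2 w`.  From FF (first bound), and AK for `s ≥ 5/8`:
   `ak 2 s ≤ 10.7`, `ak 3 s ≤ 70`, one gets `2 w ≤ 3.8 t`, so `s ≥ 0.6931`, and FF gives the error
   `500 t^3`.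
2. `1/(2e^{-w}-1) = 1 + 2w + 3w^2 + [0, 9 w^3]`; by AK and `ak 2 l = 6`, `ak 3 l = 26`,
   `ak 4 l = 150` (`mu_sum2`, `mu_sum3`, `mu_sum4` in LS/PMu): `ak 2 s = 6 + 26 w + [0, 195 w^2]`,
   `ak 3 s = 26 + [0, 390 w]`, `ak 4 s = 150 + [0, 3900 w]`.
3. Hence, as `w ≤ 1.9 t`,
   `2w = 3 l t - 3 w^2 + (13 l - 3) w t - t^2 (75/4 l^2 - 26/3 l) + O(1600 t^3) + T`; so with
   `w = (3/2) l t + ω`: `|ω| ≤ 8 t^2` and then
   `2 ω = t^2 (-6 l^2 + 25/6 l) + O(1800 t^3) + T` (the constants have a margin: `2400` is enough).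
4. `Q (Q l - 2n) = (2N-3) · 2N · ω = 4 N^2 ω (1 - 3t/2)`, and
   `4 N^2 · t^2 (-6 l^2 + 25/6 l)/2 = kap`. -/
def ExpnStm : Prop := ∀ n k m : ℕ, Sol n k m → 74000 ≤ k + m + 1 →
  10 ^ 8 * ((k + m + 1 : ℕ) : ℝ) ^ 2 ≤ Real.exp (5 / 8 * ((m + 1 : ℕ) : ℝ)) →
  |(2 * ((k + m + 1 : ℕ) : ℝ) - 3) * ((2 * ((k + m + 1 : ℕ) : ℝ) - 3) * Real.log 2 - 2 * n) - kap| ≤
    5000 / ((k + m + 1 : ℕ) : ℝ) + 1 / 10 ^ 7

/-- **Piece LG.**  Nested floors: the `t` of the `k`-th step is `⌊2^W / (x y^k)⌋`, `y = x^2`, the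
`k`-th summand is `⌊2^W / ((2k+1) x^(2k+1))⌋`, so
`0 ≤ 2^W artanh(1/x) - ath ≤ f + (tail) ≤ f + 1`, where
`artanh(1/x) = ∑ 1/((2k+1) x^(2k+1)) = (1/2) log((x+1)/(x-1))`
(`Real.hasSum_log_sub_log_of_abs_lt_one`), and
`log 2 = 18 artanh(1/26) + 8 artanh(1/8749) - 2 artanh(1/4801)`. -/
def LgStm : Prop := ∀ W f : ℕ, 2 ^ W ≤ 676 ^ f → 1000 * (f + 1) ≤ 2 ^ W →
  |Real.log 2 * 2 ^ W - (lg W f : ℝ)| ≤ 26 * ((f : ℝ) + 1)

/-- the invariant of `cf`, `A / B` the number that is expanded: `q, q'` are the denominators of the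
two last convergents -/
def Inv (A B S u v tl th q' : ℕ) : Prop := v < u ∧ ∃ p q p' : ℕ, q ≤ q' ∧ 0 < q' ∧
  ((p * q' = p' * q + 1 ∧ p * B = q * A + u ∧ q' * A = p' * B + v) ∨
    (p' * q = p * q' + 1 ∧ q * A = p * B + u ∧ p' * B = q' * A + v)) ∧
  tl * q' ≤ q * S ∧ q * S ≤ th * q'

/-- **Piece CF.**  `cf` preserves the invariant (`q'' = a q' + q`, `p'' = a p' + p`, `a = u / v`,
`v' = u % v`), so `q' u + q v = B`.  Let `q' ≤ Q < q''` and `P` be given,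
`D = Q |Q A - P B|`; write `(P, Q) = x (p', q') + y (p'', q'')` with integers `x, y`.
* `|Q A - P B| = |x v - y v'|` (the signs of the two errors alternate).  `y ≠ 0` implies that `x` and
  `y` have opposite signs (`x ≠ 0`, as `0 < Q < q''`), so `|QA - PB| = |x| v + |y| v'`.
* In all cases `|QA - PB| ≥ v`, so `D ≥ q' v` and `(a + 2) D ≥ B`, because
  `B = q'' v + q' v' ≤ (a + 1) q' v + q' v`.
* If `a > am ≥ 2` and `y ≠ 0` then `D ≥ B - q' v ≥ B - B/a` (`y < 0 < x`: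
  `x q' = Q + |y| q'' ≥ q' + q''`, so `D ≥ q' x v ≥ B`; `x < 0 < y`: `Q + |x| q' = y q'' ≥ q''`,
  `(Q - q')(|x| - 1) ≥ 0`, so `Q |x| ≥ q'' - q'`, `D ≥ (q'' - q') v + q' v' = B - q' v`), and
  `(am + 2) (1 - 1/a) ≥ 1`.
* If `y = 0` then `D = x^2 q' v` and `S B / (q' v) = S (u/v + q/q')` lies between the two arguments
  `vl`, `vh` of `sq`; so `c1 D ≤ S B ≤ c2 D` would give `c1 x^2 ≤ vh`, `vl ≤ c2 x^2`, which is
  excluded by the test (`x ≥ 1`). -/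
def CfStm : Prop := ∀ (A B S am c1 c2 : ℕ) (b : Bool) (f u v tl th q' : ℕ), 0 < B → 0 < S → 2 ≤ am →
  Inv A B S u v tl th q' → ∀ u' v' tl' th' : ℕ, cf S am c1 c2 b f u v tl th = (1, u', v', tl', th') →
  ∃ q'' : ℕ, Inv A B S u' v' tl' th' q'' ∧ ∀ P Q : ℕ, q' ≤ Q → Q < q'' →
    B ≤ (am + 2) * (Q * ((Q : ℤ) * A - P * B).natAbs) ∨
    (b = true ∧ ¬ (c1 * (Q * ((Q : ℤ) * A - P * B).natAbs) ≤ S * B ∧
      S * B ≤ c2 * (Q * ((Q : ℤ) * A - P * B).natAbs)))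

/-- the run of `cf` (file LB/RunC): 27 steps with partial quotients at most `10`, 17 steps with partial
quotients at most `14`, then 19220 steps with the test -/
def RunCStm : Prop := ∃ u v tl th u1 v1 tl1 th1 u2 v2 tl2 th2 : ℕ,
  cf 1048576 10 0 0 false 27 (2 ^ 66520) (lg 66520 7100) 0 0 = (1, u, v, tl, th) ∧
  cf 1048576 14 0 0 false 17 u v tl th = (1, u1, v1, tl1, th1) ∧
  cf 1048576 90 97161052 97192509 true 19220 u1 v1 tl1 th1 = (1, u2, v2, tl2, th2) ∧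
  u * 2 ^ 29 ≤ 2 ^ 66520 ∧ u1 * 2 ^ 58 ≤ 2 ^ 66520 ∧ u2 * 2 ^ 33223 ≤ 2 ^ 66520

/-- **Piece LONG** (from SHORT, EXPN, LG, CF, RUNC).  Suppose `n ≤ 10^10000`.  Then
`N < 8n/5`, `10^8 N^2 ≤ 3 · 10^20008 ≤ (10^3)^6670 ≤ 2^66700 = e^(66700 log 2) ≤ e^46260
≤ e^(5(m+1)/8)`, so EXPN applies, `N ≥ 74017`.
Let `A = lg`, `B = 2^66520`, `P = 2n`, `Q = 2N - 3 < 2^33222`.
`|Q(QA - PB)/B - Q(Q log 2 - P)| ≤ Q^2 26 · 7101/B ≤ 2^(-50)`.  So with
`D = Q |QA - PB|`: `|D/B - kap| ≤ 5000/N + 2 · 10^(-7)` (the number inside is `± D/B`; if the sign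
is `-` then `D/B ≤ 5000/N + 2 · 10^(-7)` as `kap > 0`; it is enough that `D/B ≤ kap + 5000/N + …` in
the first two runs, and in the third one the sign is `+` because `5000/N` is tiny).
The first run starts with the invariant for `(u, v) = (B, A)`, `(p, q) = (1, 0)`,
`(p', q') = (0, 1)` (`A < B` because `log 2 < 0.7`), and every state has `q' u + q v = B`, so
`q' ≥ B/(2u)`.  Every `Q` below the `q'` of the first state has `B ≤ 12 D`, but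
`12 (kap + 5000/74017 + 2 · 10^(-7)) < 1`; so `Q ≥ 2^28`, `5000/N ≤ 5000/2^27`.  Below the second `q'`:
`B ≤ 16 D`, but `16 (kap + 5000/2^27 + 2 · 10^(-7)) < 1`; so `Q ≥ 2^57`, `5000/N < 10^(-7)` and
`|D/B - kap| ≤ 3 · 10^(-7)`, `0.0107903 < kap < 0.0107904`; the last `q'` is
`≥ B/(2 u2) ≥ 2^33222 > Q`, so the third run gives `B ≤ 92 D` (no) or
`¬ (97161052 D ≤ 2^20 B ≤ 97192509 D)` (no: `97161052 < 92.6601 · 2^20`,
`92.6601 · 0.0107907 < 1`, and `97192509 > 92.6899 · 2^20`, `92.6899 · 0.01079 > 1`). -/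
def LongStm : Prop := ∀ n k m : ℕ, Sol n k m → 10 ^ 10000 < n

/-- **Piece CONV** (from SHORT, EXPN): Legendre's theorem `Real.exists_rat_eq_convergent`;
`|log 2 - 2n/Q| ≤ (kap + 5000/74017 + 10^(-7))/Q^2 < 1/(2 Q^2)`. -/
def ConvStm : Prop := ∀ n k m : ℕ, Sol n k m →
  10 ^ 8 * ((k + m + 1 : ℕ) : ℝ) ^ 2 ≤ Real.exp (5 / 8 * ((m + 1 : ℕ) : ℝ)) →
  ∃ i : ℕ, (2 * (n : ℚ)) / (2 * ((k + m + 1 : ℕ) : ℚ) - 3) = (Real.log 2).convergent i

end Pool.Agent.Lib.MP_d0b36d_nt.LB
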