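import Mathlib
import Pool.Agent.Lib.MP_d0b36d_nt.LB.Stm
import Pool.Agent.Lib.MP_d0b36d_nt.LB.RunD

/-!
MP_d0b36d_nt, hand-in MoserBound: validity of the stages.  Generated.
-/

set_option autoImplicit false

namespace Pool.Agent.Lib.MP_d0b36d_nt.LB

lemma ok {p K L : ℕ} (h1 : p.Prime) (h2 : 3 ≤ p) (h3 : (p - 1) ∣ L) (h4 : TabOK p K) :
    ((p, K) : ℕ × ℕ).1.Prime ∧ 3 ≤ ((p, K) : ℕ × ℕ).1 ∧ (((p, K) : ℕ × ℕ).1 - 1) ∣ L ∧
      TabOK ((p, K) : ℕ × ℕ).1 ((p, K) : ℕ × ℕ).2 := ⟨h1, h2, h3, h4⟩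

lemma tab_zero (p : ℕ) : TabOK p 0 := by
  intro r d _ _ _ _ h
  simp at h

lemma tab5 (h : TabStm) : TabOK 5 (table 5 D5) :=
  h 5 6 D5 (by norm_num) (by norm_num) (by norm_num) cols5

lemma tab7 (h : TabStm) : TabOK 7 (table 7 D7) :=
  h 7 6 D7 (by norm_num) (by norm_num) (by norm_num) cols7

lemma tab11 (h : TabStm) : TabOK 11 (table 11 D11) :=
  h 11 7 D11 (by norm_num) (by norm_num) (by norm_num) cols11

lemma tab13 (h : TabStm) : TabOK 13 (table 13 D13) :=
  h 13 7 D13 (by norm_num) (by norm_num) (by norm_num) cols13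

lemma tab17 (h : TabStm) : TabOK 17 (table 17 D17) :=
  h 17 8 D17 (by norm_num) (by norm_num) (by norm_num) cols17

lemma tab19 (h : TabStm) : TabOK 19 (table 19 D19) :=
  h 19 8 D19 (by norm_num) (by norm_num) (by norm_num) cols19

lemma tab23 (h : TabStm) : TabOK 23 (table 23 D23) :=
  h 23 8 D23 (by norm_num) (by norm_num) (by norm_num) cols23

lemma tab29 (h : TabStm) : TabOK 29 (table 29 D29) :=
  h 29 8 D29 (by norm_num) (by norm_num) (by norm_num) cols29

lemma tab31 (h : TabStm) : TabOK 31 (table 31 D31) :=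
  h 31 8 D31 (by norm_num) (by norm_num) (by norm_num) cols31

lemma tab37 (h : TabStm) : TabOK 37 (table 37 D37) :=
  h 37 9 D37 (by norm_num) (by norm_num) (by norm_num) cols37

lemma tab41 (h : TabStm) : TabOK 41 (table 41 D41) :=
  h 41 9 D41 (by norm_num) (by norm_num) (by norm_num) cols41

lemma tab43 (h : TabStm) : TabOK 43 (table 43 D43) :=
  h 43 9 D43 (by norm_num) (by norm_num) (by norm_num) cols43

lemma tab53 (h : TabStm) : TabOK 53 (table 53 D53) :=
  h 53 9 D53 (by norm_num) (by norm_num) (by norm_num) cols53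

lemma tab61 (h : TabStm) : TabOK 61 (table 61 D61) :=
  h 61 9 D61 (by norm_num) (by norm_num) (by norm_num) cols61

lemma tab67 (h : TabStm) : TabOK 67 (table 67 D67) :=
  h 67 10 D67 (by norm_num) (by norm_num) (by norm_num) cols67

lemma tab71 (h : TabStm) : TabOK 71 (table 71 D71) :=
  h 71 10 D71 (by norm_num) (by norm_num) (by norm_num) cols71

lemma tab73 (h : TabStm) : TabOK 73 (table 73 D73) :=
  h 73 10 D73 (by norm_num) (by norm_num) (by norm_num) cols73

lemma tab79 (h : TabStm) : TabOK 79 (table 79 D79) :=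
  h 79 10 D79 (by norm_num) (by norm_num) (by norm_num) cols79

lemma tab89 (h : TabStm) : TabOK 89 (table 89 D89) :=
  h 89 10 D89 (by norm_num) (by norm_num) (by norm_num) cols89

lemma tab97 (h : TabStm) : TabOK 97 (table 97 D97) :=
  h 97 10 D97 (by norm_num) (by norm_num) (by norm_num) cols97

lemma tab109 (h : TabStm) : TabOK 109 (table 109 D109) :=
  h 109 10 D109 (by norm_num) (by norm_num) (by norm_num) cols109

lemma tab113 (h : TabStm) : TabOK 113 (table 113 D113) :=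
  h 113 10 D113 (by norm_num) (by norm_num) (by norm_num) cols113

lemma tab127 (h : TabStm) : TabOK 127 (table 127 D127) :=
  h 127 10 D127 (by norm_num) (by norm_num) (by norm_num) cols127

lemma tab131 (h : TabStm) : TabOK 131 (table 131 D131) :=
  h 131 11 D131 (by norm_num) (by norm_num) (by norm_num) cols131

lemma tab181 (h : TabStm) : TabOK 181 (table 181 D181) :=
  h 181 11 D181 (by norm_num) (by norm_num) (by norm_num) cols181

lemma tab199 (h : TabStm) : TabOK 199 (table 199 D199) :=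
  h 199 11 D199 (by norm_num) (by norm_num) (by norm_num) cols199

lemma tab211 (h : TabStm) : TabOK 211 (table 211 D211) :=
  h 211 11 D211 (by norm_num) (by norm_num) (by norm_num) cols211

lemma tab241 (h : TabStm) : TabOK 241 (table 241 D241) :=
  h 241 11 D241 (by norm_num) (by norm_num) (by norm_num) cols241

lemma tab271 (h : TabStm) : TabOK 271 (table 271 D271) :=
  h 271 12 D271 (by norm_num) (by norm_num) (by norm_num) cols271

lemma tab281 (h : TabStm) : TabOK 281 (table 281 D281) :=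
  h 281 12 D281 (by norm_num) (by norm_num) (by norm_num) cols281

lemma tab313 (h : TabStm) : TabOK 313 (table 313 D313) :=
  h 313 12 D313 (by norm_num) (by norm_num) (by norm_num) cols313

lemma tab331 (h : TabStm) : TabOK 331 (table 331 D331) :=
  h 331 12 D331 (by norm_num) (by norm_num) (by norm_num) cols331

lemma tab337 (h : TabStm) : TabOK 337 (table 337 D337) :=
  h 337 12 D337 (by norm_num) (by norm_num) (by norm_num) cols337

lemma tab353 (h : TabStm) : TabOK 353 (table 353 D353) :=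
  h 353 12 D353 (by norm_num) (by norm_num) (by norm_num) cols353

lemma tab379 (h : TabStm) : TabOK 379 (table 379 D379) :=
  h 379 12 D379 (by norm_num) (by norm_num) (by norm_num) cols379

lemma tab397 (h : TabStm) : TabOK 397 (table 397 D397) :=
  h 397 12 D397 (by norm_num) (by norm_num) (by norm_num) cols397

lemma tab421 (h : TabStm) : TabOK 421 (table 421 D421) :=
  h 421 12 D421 (by norm_num) (by norm_num) (by norm_num) cols421

lemma tab433 (h : TabStm) : TabOK 433 (table 433 D433) :=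
  h 433 12 D433 (by norm_num) (by norm_num) (by norm_num) cols433

lemma tab463 (h : TabStm) : TabOK 463 (table 463 D463) :=
  h 463 12 D463 (by norm_num) (by norm_num) (by norm_num) cols463

lemma tab521 (h : TabStm) : TabOK 521 (table 521 D521) :=
  h 521 13 D521 (by norm_num) (by norm_num) (by norm_num) cols521

lemma tab541 (h : TabStm) : TabOK 541 (table 541 D541) :=
  h 541 13 D541 (by norm_num) (by norm_num) (by norm_num) cols541

lemma tab617 (h : TabStm) : TabOK 617 (table 617 D617) :=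
  h 617 13 D617 (by norm_num) (by norm_num) (by norm_num) cols617

lemma tab631 (h : TabStm) : TabOK 631 (table 631 D631) :=
  h 631 13 D631 (by norm_num) (by norm_num) (by norm_num) cols631

lemma tab661 (h : TabStm) : TabOK 661 (table 661 D661) :=
  h 661 13 D661 (by norm_num) (by norm_num) (by norm_num) cols661

lemma tab673 (h : TabStm) : TabOK 673 (table 673 D673) :=
  h 673 13 D673 (by norm_num) (by norm_num) (by norm_num) cols673

lemma tab757 (h : TabStm) : TabOK 757 (table 757 D757) :=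
  h 757 13 D757 (by norm_num) (by norm_num) (by norm_num) cols757

lemma tab859 (h : TabStm) : TabOK 859 (table 859 D859) :=
  h 859 13 D859 (by norm_num) (by norm_num) (by norm_num) cols859

lemma tab881 (h : TabStm) : TabOK 881 (table 881 D881) :=
  h 881 13 D881 (by norm_num) (by norm_num) (by norm_num) cols881

lemma tab991 (h : TabStm) : TabOK 991 (table 991 D991) :=
  h 991 13 D991 (by norm_num) (by norm_num) (by norm_num) cols991

lemma tab1009 (h : TabStm) : TabOK 1009 (table 1009 D1009) :=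
  h 1009 13 D1009 (by norm_num) (by norm_num) (by norm_num) cols1009

theorem cert (h : TabStm) : Cert stages 2 := by
  unfold stages
  simp only [Cert, and_true]
  refine ⟨⟨by norm_num, ?_⟩, ⟨by norm_num, ?_⟩, ⟨by norm_num, ?_⟩, ⟨by norm_num, ?_⟩, ⟨by norm_num, ?_⟩, ⟨by norm_num, ?_⟩, ⟨by norm_num, ?_⟩, ⟨by norm_num, ?_⟩, ⟨by norm_num, ?_⟩, ⟨by norm_num, ?_⟩, ⟨by norm_num, ?_⟩, ⟨by norm_num, ?_⟩⟩
  · refine List.forall_mem_cons.2 ⟨ok (by norm_num) (by norm_num) ⟨1, rfl⟩ (tab_zero _),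
      fun c hc => absurd hc List.not_mem_nil⟩
  · refine List.forall_mem_cons.2 ⟨ok (by norm_num) (by norm_num) ⟨1, rfl⟩ (tab5 h),
      fun c hc => absurd hc List.not_mem_nil⟩
  · refine List.forall_mem_cons.2 ⟨ok (by norm_num) (by norm_num) ⟨2, rfl⟩ (tab7 h),
      List.forall_mem_cons.2 ⟨ok (by norm_num) (by norm_num) ⟨1, rfl⟩ (tab13 h),
      fun c hc => absurd hc List.not_mem_nil⟩⟩
  · refine List.forall_mem_cons.2 ⟨ok (by norm_num) (by norm_num) ⟨2, rfl⟩ (tab19 h),
      List.forall_mem_cons.2 ⟨ok (by norm_num) (by norm_num) ⟨1, rfl⟩ (tab37 h),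
      fun c hc => absurd hc List.not_mem_nil⟩⟩
  · refine List.forall_mem_cons.2 ⟨ok (by norm_num) (by norm_num) ⟨1, rfl⟩ (tab73 h),
      fun c hc => absurd hc List.not_mem_nil⟩
  · refine List.forall_mem_cons.2 ⟨ok (by norm_num) (by norm_num) ⟨36, rfl⟩ (tab11 h),
      List.forall_mem_cons.2 ⟨ok (by norm_num) (by norm_num) ⟨12, rfl⟩ (tab31 h),
      List.forall_mem_cons.2 ⟨ok (by norm_num) (by norm_num) ⟨9, rfl⟩ (tab41 h),
      List.forall_mem_cons.2 ⟨ok (by norm_num) (by norm_num) ⟨6, rfl⟩ (tab61 h),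
      List.forall_mem_cons.2 ⟨ok (by norm_num) (by norm_num) ⟨2, rfl⟩ (tab181 h),
      fun c hc => absurd hc List.not_mem_nil⟩⟩⟩⟩⟩
  · refine List.forall_mem_cons.2 ⟨ok (by norm_num) (by norm_num) ⟨45, rfl⟩ (tab17 h),
      List.forall_mem_cons.2 ⟨ok (by norm_num) (by norm_num) ⟨3, rfl⟩ (tab241 h),
      fun c hc => absurd hc List.not_mem_nil⟩⟩
  · refine List.forall_mem_cons.2 ⟨ok (by norm_num) (by norm_num) ⟨180, rfl⟩ (tab29 h),
      List.forall_mem_cons.2 ⟨ok (by norm_num) (by norm_num) ⟨120, rfl⟩ (tab43 h),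
      List.forall_mem_cons.2 ⟨ok (by norm_num) (by norm_num) ⟨72, rfl⟩ (tab71 h),
      List.forall_mem_cons.2 ⟨ok (by norm_num) (by norm_num) ⟨45, rfl⟩ (tab113 h),
      List.forall_mem_cons.2 ⟨ok (by norm_num) (by norm_num) ⟨40, rfl⟩ (tab127 h),
      List.forall_mem_cons.2 ⟨ok (by norm_num) (by norm_num) ⟨24, rfl⟩ (tab211 h),
      List.forall_mem_cons.2 ⟨ok (by norm_num) (by norm_num) ⟨18, rfl⟩ (tab281 h),
      List.forall_mem_cons.2 ⟨ok (by norm_num) (by norm_num) ⟨15, rfl⟩ (tab337 h),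
      List.forall_mem_cons.2 ⟨ok (by norm_num) (by norm_num) ⟨12, rfl⟩ (tab421 h),
      fun c hc => absurd hc List.not_mem_nil⟩⟩⟩⟩⟩⟩⟩⟩⟩
  · refine List.forall_mem_cons.2 ⟨ok (by norm_num) (by norm_num) ⟨140, rfl⟩ (tab109 h),
      List.forall_mem_cons.2 ⟨ok (by norm_num) (by norm_num) ⟨56, rfl⟩ (tab271 h),
      List.forall_mem_cons.2 ⟨ok (by norm_num) (by norm_num) ⟨40, rfl⟩ (tab379 h),
      List.forall_mem_cons.2 ⟨ok (by norm_num) (by norm_num) ⟨35, rfl⟩ (tab433 h),
      fun c hc => absurd hc List.not_mem_nil⟩⟩⟩⟩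
  · refine List.forall_mem_cons.2 ⟨ok (by norm_num) (by norm_num) ⟨315, rfl⟩ (tab97 h),
      List.forall_mem_cons.2 ⟨ok (by norm_num) (by norm_num) ⟨56, rfl⟩ (tab541 h),
      List.forall_mem_cons.2 ⟨ok (by norm_num) (by norm_num) ⟨48, rfl⟩ (tab631 h),
      fun c hc => absurd hc List.not_mem_nil⟩⟩⟩
  · refine List.forall_mem_cons.2 ⟨ok (by norm_num) (by norm_num) ⟨15120, rfl⟩ (tab23 h),
      List.forall_mem_cons.2 ⟨ok (by norm_num) (by norm_num) ⟨5040, rfl⟩ (tab67 h),
      List.forall_mem_cons.2 ⟨ok (by norm_num) (by norm_num) ⟨3780, rfl⟩ (tab89 h),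
      List.forall_mem_cons.2 ⟨ok (by norm_num) (by norm_num) ⟨1680, rfl⟩ (tab199 h),
      List.forall_mem_cons.2 ⟨ok (by norm_num) (by norm_num) ⟨1008, rfl⟩ (tab331 h),
      List.forall_mem_cons.2 ⟨ok (by norm_num) (by norm_num) ⟨945, rfl⟩ (tab353 h),
      List.forall_mem_cons.2 ⟨ok (by norm_num) (by norm_num) ⟨840, rfl⟩ (tab397 h),
      List.forall_mem_cons.2 ⟨ok (by norm_num) (by norm_num) ⟨720, rfl⟩ (tab463 h),
      List.forall_mem_cons.2 ⟨ok (by norm_num) (by norm_num) ⟨540, rfl⟩ (tab617 h),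
      List.forall_mem_cons.2 ⟨ok (by norm_num) (by norm_num) ⟨504, rfl⟩ (tab661 h),
      List.forall_mem_cons.2 ⟨ok (by norm_num) (by norm_num) ⟨495, rfl⟩ (tab673 h),
      List.forall_mem_cons.2 ⟨ok (by norm_num) (by norm_num) ⟨440, rfl⟩ (tab757 h),
      List.forall_mem_cons.2 ⟨ok (by norm_num) (by norm_num) ⟨378, rfl⟩ (tab881 h),
      List.forall_mem_cons.2 ⟨ok (by norm_num) (by norm_num) ⟨336, rfl⟩ (tab991 h),
      List.forall_mem_cons.2 ⟨ok (by norm_num) (by norm_num) ⟨330, rfl⟩ (tab1009 h),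
      fun c hc => absurd hc List.not_mem_nil⟩⟩⟩⟩⟩⟩⟩⟩⟩⟩⟩⟩⟩⟩⟩
  · refine List.forall_mem_cons.2 ⟨ok (by norm_num) (by norm_num) ⟨83160, rfl⟩ (tab53 h),
      List.forall_mem_cons.2 ⟨ok (by norm_num) (by norm_num) ⟨55440, rfl⟩ (tab79 h),
      List.forall_mem_cons.2 ⟨ok (by norm_num) (by norm_num) ⟨33264, rfl⟩ (tab131 h),
      List.forall_mem_cons.2 ⟨ok (by norm_num) (by norm_num) ⟨27720, rfl⟩ (tab_zero _),
      List.forall_mem_cons.2 ⟨ok (by norm_num) (by norm_num) ⟨13860, rfl⟩ (tab313 h),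
      List.forall_mem_cons.2 ⟨ok (by norm_num) (by norm_num) ⟨8316, rfl⟩ (tab521 h),
      List.forall_mem_cons.2 ⟨ok (by norm_num) (by norm_num) ⟨7920, rfl⟩ (tab_zero _),
      List.forall_mem_cons.2 ⟨ok (by norm_num) (by norm_num) ⟨5040, rfl⟩ (tab859 h),
      List.forall_mem_cons.2 ⟨ok (by norm_num) (by norm_num) ⟨4752, rfl⟩ (tab_zero _),
      List.forall_mem_cons.2 ⟨ok (by norm_num) (by norm_num) ⟨4620, rfl⟩ (tab_zero _),
      List.forall_mem_cons.2 ⟨ok (by norm_num) (by norm_num) ⟨3960, rfl⟩ (tab_zero _),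
      fun c hc => absurd hc List.not_mem_nil⟩⟩⟩⟩⟩⟩⟩⟩⟩⟩⟩

theorem p_run (h : TabStm) : RunStm := ⟨stages, cert h, run⟩

end Pool.Agent.Lib.MP_d0b36d_nt.LB
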