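import Mathlib
import Pool.Agent.Lib.MP_d0b36d_nt.LB.Stm

/-! Piece AK: facts on `A_k(s)`. -/

set_option autoImplicit false

namespace Pool.Agent.Lib.MP_d0b36d_nt.LB

open Finset

private lemma ak_summ (k : ℕ) (s : ℝ) (hs : 0 < s) :
    Summable (fun j : ℕ => (j : ℝ) ^ k * Real.exp (-(j * s))) := by
  have h := Real.summable_pow_mul_exp_neg_nat_mul k hs
  refine h.congr ?_
  intro j
  have : -s * (j : ℝ) = -((j : ℝ) * s) := by ring
  rw [this]

private lemma ak_nonneg (k : ℕ) (s : ℝ) : 0 ≤ ak k s := by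
  unfold ak
  exact tsum_nonneg (fun j => by positivity)

private lemma ak_upper (k : ℕ) (s : ℝ) (hk : 1 ≤ k) (hs : 0 < s) :
    ak k s ≤ k.factorial * Real.exp (-s) / (1 - Real.exp (-s)) ^ (k + 1) := by
  have hz0 : 0 < Real.exp (-s) := Real.exp_pos _
  have hz1 : Real.exp (-s) < 1 := by
    rw [Real.exp_lt_one_iff]
    linarith
  have hn : ‖Real.exp (-s)‖ < 1 := by
    rw [Real.norm_eq_abs, abs_of_pos hz0]
    exact hz1
  have hsum := ak_summ k s hs
  have hc := summable_choose_mul_geometric_of_norm_lt_one k hn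
  have ht := tsum_choose_mul_geometric_of_norm_lt_one k hn
  have hexp : ∀ j : ℕ, Real.exp (-((j : ℝ) * s)) = Real.exp (-s) ^ j := by
    intro j
    rw [← Real.exp_nat_mul]
    ring_nf
  unfold ak
  rw [hsum.tsum_eq_zero_add]
  have h0 : ((0 : ℕ) : ℝ) ^ k * Real.exp (-(((0 : ℕ) : ℝ) * s)) = 0 := by
    rw [Nat.cast_zero, zero_pow (by omega)]
    simp
  rw [h0, zero_add]
  have hterm : ∀ i : ℕ, ((i + 1 : ℕ) : ℝ) ^ k * Real.exp (-(((i + 1 : ℕ) : ℝ) * s)) ≤
      (k.factorial * Real.exp (-s)) * (((i + k).choose k : ℕ) * Real.exp (-s) ^ i) := by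
    intro i
    rw [hexp (i + 1), pow_succ]
    have h1 : (i + 1) ^ k ≤ k.factorial * (i + k).choose k := by
      have h2 := Nat.ascFactorial_eq_factorial_mul_choose i k
      rw [← h2]
      exact Nat.pow_succ_le_ascFactorial (i + 1) k
    have h3 : ((i + 1 : ℕ) : ℝ) ^ k ≤ (k.factorial : ℝ) * ((i + k).choose k : ℝ) := by
      exact_mod_cast h1
    have h4 : 0 ≤ Real.exp (-s) ^ i * Real.exp (-s) := by positivity
    calc ((i + 1 : ℕ) : ℝ) ^ k * (Real.exp (-s) ^ i * Real.exp (-s))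
        ≤ ((k.factorial : ℝ) * ((i + k).choose k : ℝ)) * (Real.exp (-s) ^ i * Real.exp (-s)) :=
          mul_le_mul_of_nonneg_right h3 h4
      _ = (k.factorial * Real.exp (-s)) * (((i + k).choose k : ℕ) * Real.exp (-s) ^ i) := by ring
  have hs1 : Summable (fun i : ℕ => ((i + 1 : ℕ) : ℝ) ^ k * Real.exp (-(((i + 1 : ℕ) : ℝ) * s))) :=
    (summable_nat_add_iff 1).2 hsum
  have hs2 : Summable (fun i : ℕ =>
      (k.factorial * Real.exp (-s)) * (((i + k).choose k : ℕ) * Real.exp (-s) ^ i)) :=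
    hc.mul_left _
  calc (∑' i : ℕ, ((i + 1 : ℕ) : ℝ) ^ k * Real.exp (-(((i + 1 : ℕ) : ℝ) * s)))
      ≤ ∑' i : ℕ, (k.factorial * Real.exp (-s)) * (((i + k).choose k : ℕ) * Real.exp (-s) ^ i) :=
        hs1.tsum_le_tsum hterm hs2
    _ = (k.factorial * Real.exp (-s)) * (1 / (1 - Real.exp (-s)) ^ (k + 1)) := by
        rw [tsum_mul_left, ht]
    _ = k.factorial * Real.exp (-s) / (1 - Real.exp (-s)) ^ (k + 1) := by ring

private lemma ak_quad (x : ℝ) (hx : 0 ≤ x) : 1 - (1 + x) * Real.exp (-x) ≤ x ^ 2 / 2 := by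
  have hd : ∀ y : ℝ, HasDerivAt (fun y : ℝ => 1 - (1 + y) * Real.exp (-y) - y ^ 2 / 2)
      (y * (Real.exp (-y) - 1)) y := by
    intro y
    have h1 : HasDerivAt (fun y : ℝ => Real.exp (-y)) (Real.exp (-y) * (-1)) y :=
      (hasDerivAt_neg y).exp
    have h2 : HasDerivAt (fun y : ℝ => 1 + y) 1 y := (hasDerivAt_id y).const_add 1
    have h3 := h2.mul h1
    have h4 : HasDerivAt (fun y : ℝ => y ^ 2 / 2) y y := by
      have h5 := (hasDerivAt_pow 2 y).div_const 2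
      have h6 : ((2 : ℕ) : ℝ) * y ^ (2 - 1) / 2 = y := by
        norm_num
      rw [h6] at h5
      exact h5
    have h7 := ((hasDerivAt_const y (1 : ℝ)).sub h3).sub h4
    have h8 : (0 - (1 * Real.exp (-y) + (1 + y) * (Real.exp (-y) * (-1))) - y : ℝ) =
        y * (Real.exp (-y) - 1) := by ring
    rw [h8] at h7
    exact h7
  have hanti : AntitoneOn (fun y : ℝ => 1 - (1 + y) * Real.exp (-y) - y ^ 2 / 2) (Set.Ici 0) := by
    apply antitoneOn_of_deriv_nonpos (convex_Ici 0)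
    · exact fun y _ => (hd y).continuousAt.continuousWithinAt
    · exact fun y _ => (hd y).differentiableAt.differentiableWithinAt
    · intro y hy
      rw [interior_Ici] at hy
      rw [(hd y).deriv]
      have h1 : (0 : ℝ) < y := hy
      have h2 : Real.exp (-y) ≤ 1 := by
        rw [Real.exp_le_one_iff]
        linarith
      nlinarith
  have h := hanti (Set.mem_Ici.2 le_rfl) (Set.mem_Ici.2 hx) hx
  simp only at h
  have h0 : (1 - (1 + 0) * Real.exp (-0) - 0 ^ 2 / 2 : ℝ) = 0 := by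
    simp
  rw [h0] at h
  linarith

private lemma ak_two (k : ℕ) (s l : ℝ) (hs : 0 < s) (hsl : s ≤ l) :
    0 ≤ ak k s - ak k l ∧ ak k s - ak k l ≤ (l - s) * ak (k + 1) s ∧
    0 ≤ ak k s - ak k l - (l - s) * ak (k + 1) l ∧
    ak k s - ak k l - (l - s) * ak (k + 1) l ≤ (l - s) ^ 2 / 2 * ak (k + 2) s := by
  have hl : 0 < l := lt_of_lt_of_le hs hsl
  have hw : 0 ≤ l - s := by linarith
  have S0 := ak_summ k s hs
  have S1 := ak_summ (k + 1) s hs
  have S2 := ak_summ (k + 2) s hs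
  have L0 := ak_summ k l hl
  have L1 := ak_summ (k + 1) l hl
  have hdiff : ak k s - ak k l =
      ∑' j : ℕ, ((j : ℝ) ^ k * Real.exp (-(j * s)) - (j : ℝ) ^ k * Real.exp (-(j * l))) := by
    unfold ak
    rw [S0.tsum_sub L0]
  have hm1 : (l - s) * ak (k + 1) s = ∑' j : ℕ, (l - s) * ((j : ℝ) ^ (k + 1) * Real.exp (-(j * s))) := by
    unfold ak
    rw [tsum_mul_left]
  have hm2 : (l - s) * ak (k + 1) l = ∑' j : ℕ, (l - s) * ((j : ℝ) ^ (k + 1) * Real.exp (-(j * l))) := by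
    unfold ak
    rw [tsum_mul_left]
  have hm3 : (l - s) ^ 2 / 2 * ak (k + 2) s =
      ∑' j : ℕ, (l - s) ^ 2 / 2 * ((j : ℝ) ^ (k + 2) * Real.exp (-(j * s))) := by
    unfold ak
    rw [tsum_mul_left]
  have hdiff2 : ak k s - ak k l - (l - s) * ak (k + 1) l =
      ∑' j : ℕ, (((j : ℝ) ^ k * Real.exp (-(j * s)) - (j : ℝ) ^ k * Real.exp (-(j * l))) -
        (l - s) * ((j : ℝ) ^ (k + 1) * Real.exp (-(j * l)))) := by
    rw [hdiff, hm2, (S0.sub L0).tsum_sub (L1.mul_left (l - s))]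
  -- the factor
  have hsp : ∀ j : ℕ, Real.exp (-((j : ℝ) * l)) =
      Real.exp (-((j : ℝ) * s)) * Real.exp (-((j : ℝ) * (l - s))) := by
    intro j
    rw [← Real.exp_add]
    ring_nf
  refine ⟨?_, ?_, ?_, ?_⟩
  · rw [hdiff]
    apply tsum_nonneg
    intro j
    have h1 : Real.exp (-((j : ℝ) * l)) ≤ Real.exp (-((j : ℝ) * s)) := by
      apply Real.exp_le_exp.2
      have : (j : ℝ) * s ≤ (j : ℝ) * l := mul_le_mul_of_nonneg_left hsl (Nat.cast_nonneg j)
      linarith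
    have h2 := mul_le_mul_of_nonneg_left h1 (pow_nonneg (Nat.cast_nonneg (α := ℝ) j) k)
    linarith
  · rw [hdiff, hm1]
    apply (S0.sub L0).tsum_le_tsum _ (S1.mul_left (l - s))
    intro j
    have hx : 0 ≤ (j : ℝ) * (l - s) := mul_nonneg (Nat.cast_nonneg j) hw
    have h1 : 1 - Real.exp (-((j : ℝ) * (l - s))) ≤ (j : ℝ) * (l - s) := by
      have := Real.add_one_le_exp (-((j : ℝ) * (l - s)))
      linarith
    have h2 : 0 ≤ (j : ℝ) ^ k * Real.exp (-((j : ℝ) * s)) := by positivity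
    have h3 := mul_le_mul_of_nonneg_left h1 h2
    calc (j : ℝ) ^ k * Real.exp (-((j : ℝ) * s)) - (j : ℝ) ^ k * Real.exp (-((j : ℝ) * l))
        = (j : ℝ) ^ k * Real.exp (-((j : ℝ) * s)) * (1 - Real.exp (-((j : ℝ) * (l - s)))) := by
          rw [hsp j]; ring
      _ ≤ (j : ℝ) ^ k * Real.exp (-((j : ℝ) * s)) * ((j : ℝ) * (l - s)) := h3
      _ = (l - s) * ((j : ℝ) ^ (k + 1) * Real.exp (-((j : ℝ) * s))) := by ring
  · rw [hdiff2]
    apply tsum_nonneg
    intro j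
    have hx : 0 ≤ (j : ℝ) * (l - s) := mul_nonneg (Nat.cast_nonneg j) hw
    have h1 := Real.add_one_le_exp ((j : ℝ) * (l - s))
    have h2 : 0 ≤ (j : ℝ) ^ k * Real.exp (-((j : ℝ) * l)) := by positivity
    have h4 : Real.exp (-((j : ℝ) * s)) =
        Real.exp (-((j : ℝ) * l)) * Real.exp ((j : ℝ) * (l - s)) := by
      rw [← Real.exp_add]
      ring_nf
    have h3 : (j : ℝ) ^ k * Real.exp (-((j : ℝ) * s)) - (j : ℝ) ^ k * Real.exp (-((j : ℝ) * l)) -
        (l - s) * ((j : ℝ) ^ (k + 1) * Real.exp (-((j : ℝ) * l))) =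
        (j : ℝ) ^ k * Real.exp (-((j : ℝ) * l)) *
          (Real.exp ((j : ℝ) * (l - s)) - ((j : ℝ) * (l - s) + 1)) := by
      rw [h4]; ring
    show 0 ≤ (j : ℝ) ^ k * Real.exp (-((j : ℝ) * s)) - (j : ℝ) ^ k * Real.exp (-((j : ℝ) * l)) -
        (l - s) * ((j : ℝ) ^ (k + 1) * Real.exp (-((j : ℝ) * l)))
    rw [h3]
    exact mul_nonneg h2 (by linarith)
  · rw [hdiff2, hm3]
    apply ((S0.sub L0).sub (L1.mul_left (l - s))).tsum_le_tsum _ (S2.mul_left ((l - s) ^ 2 / 2))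
    intro j
    have hx : 0 ≤ (j : ℝ) * (l - s) := mul_nonneg (Nat.cast_nonneg j) hw
    have h1 := ak_quad _ hx
    have h2 : 0 ≤ (j : ℝ) ^ k * Real.exp (-((j : ℝ) * s)) := by positivity
    have h3 := mul_le_mul_of_nonneg_left h1 h2
    calc (j : ℝ) ^ k * Real.exp (-((j : ℝ) * s)) - (j : ℝ) ^ k * Real.exp (-((j : ℝ) * l)) -
          (l - s) * ((j : ℝ) ^ (k + 1) * Real.exp (-((j : ℝ) * l)))
        = (j : ℝ) ^ k * Real.exp (-((j : ℝ) * s)) *
          (1 - (1 + (j : ℝ) * (l - s)) * Real.exp (-((j : ℝ) * (l - s)))) := by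
          rw [hsp j]; ring
      _ ≤ (j : ℝ) ^ k * Real.exp (-((j : ℝ) * s)) * (((j : ℝ) * (l - s)) ^ 2 / 2) := h3
      _ = (l - s) ^ 2 / 2 * ((j : ℝ) ^ (k + 2) * Real.exp (-((j : ℝ) * s))) := by ring

theorem p_ak : AkStm := by
  refine ⟨?_, ?_⟩
  · intro k s hk hs
    exact ⟨ak_summ k s hs, ak_nonneg k s, ak_upper k s hk hs⟩
  · intro k s l hk hs hsl
    exact ak_two k s l hs hsl

end Pool.Agent.Lib.MP_d0b36d_nt.LB
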