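import Mathlib
import Pool.Agent.Lib.MP_d0b36d_nt.LB.Stm

/-!
MP_d0b36d_nt, hand-in MoserBound, piece CF: the continued fraction algorithm.
-/

set_option autoImplicit false

namespace Pool.Agent.Lib.MP_d0b36d_nt.LB

private theorem cf_sq (c1 c2 vl vh : ℕ) : ∀ (f x0 : ℕ), sq c1 c2 vl vh f x0 = true →
    ∀ x : ℕ, x0 ≤ x → ¬ (c1 * (x * x) ≤ vh ∧ vl ≤ c2 * (x * x)) := by
  intro f
  induction f with
  | zero => intro x0 h; simp [sq] at h
  | succ f ih =>
    intro x0 h x hx hc
    unfold sq at h
    by_cases h1 : vh < c1 * (x0 * x0)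
    · have h2 : x0 * x0 ≤ x * x := Nat.mul_le_mul hx hx
      have h3 : c1 * (x0 * x0) ≤ c1 * (x * x) := Nat.mul_le_mul le_rfl h2
      omega
    · have e1 : Nat.blt vh (c1 * (x0 * x0)) = false := by
        rw [Bool.eq_false_iff]
        intro h2
        exact h1 (by simpa using h2)
      rw [e1] at h
      by_cases h4 : vl ≤ c2 * (x0 * x0)
      · have e2 : Nat.ble vl (c2 * (x0 * x0)) = true := Nat.ble_eq_true_of_le h4
        rw [e2] at h
        simp at h
      · have e2 : Nat.ble vl (c2 * (x0 * x0)) = false := by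
          rw [Bool.eq_false_iff]
          intro h2
          exact h4 (Nat.le_of_ble_eq_true h2)
        rw [e2] at h
        simp only [cond_false] at h
        rcases Nat.lt_or_ge x0 x with h5 | h5
        · exact ih (x0 + 1) h x h5 hc
        · have : x = x0 := le_antisymm h5 hx
          subst this
          exact h4 hc.2

private theorem cf_succ_eq (S am c1 c2 : ℕ) (b : Bool) (f u v tl th : ℕ) (u' v' tl' th' : ℕ)
    (h : cf S am c1 c2 b (f + 1) u v tl th = (1, u', v', tl', th')) :
    0 < v ∧ (u / v ≤ am ∨ (b = true ∧ sq c1 c2 (u / v * S + u % v * S / v + tl)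
        (u / v * S + u % v * S / v + 1 + th) 200 1 = true)) ∧
      cf S am c1 c2 b f v (u % v) (S * S / (u / v * S + th + 1)) (S * S / (u / v * S + tl) + 1) =
        (1, u', v', tl', th') := by
  unfold cf at h
  rcases Nat.eq_zero_or_pos v with h0 | h0
  · subst h0
    simp at h
  · have e1 : Nat.beq v 0 = false := by
      rw [Bool.eq_false_iff]
      intro h2
      have := Nat.eq_of_beq_eq_true h2
      omega
    rw [e1] at h
    simp only [cond_false] at h
    refine ⟨h0, ?_⟩
    cases hb : (or (Nat.ble (u / v) am) (and b (sq c1 c2 (u / v * S + u % v * S / v + tl)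
        (u / v * S + u % v * S / v + 1 + th) 200 1))) with
    | false =>
      rw [hb] at h
      simp at h
    | true =>
      rw [hb] at h
      simp only [cond_true] at h
      refine ⟨?_, h⟩
      rw [Bool.or_eq_true, Bool.and_eq_true] at hb
      rcases hb with hb | hb
      · exact Or.inl (Nat.le_of_ble_eq_true hb)
      · exact Or.inr hb

/-- the invariant with integers and a sign -/
private def cf_I (A B S u v tl th q' : ℕ) (p q p' : ℕ) (s : ℤ) : Prop :=
  v < u ∧ q ≤ q' ∧ 0 < q' ∧ (s = 1 ∨ s = -1) ∧ (p : ℤ) * q' - p' * q = s ∧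
    (p : ℤ) * B - q * A = s * u ∧ (q' : ℤ) * A - p' * B = s * v ∧ tl * q' ≤ q * S ∧ q * S ≤ th * q'

private theorem cf_inv_to (A B S u v tl th q' : ℕ) (h : Inv A B S u v tl th q') :
    ∃ (p q p' : ℕ) (s : ℤ), cf_I A B S u v tl th q' p q p' s := by
  obtain ⟨h1, p, q, p', h2, h3, h4, h5, h6⟩ := h
  rcases h4 with ⟨h4, h7, h8⟩ | ⟨h4, h7, h8⟩
  · refine ⟨p, q, p', 1, h1, h2, h3, Or.inl rfl, ?_, ?_, ?_, h5, h6⟩
    · have : (p : ℤ) * q' = p' * q + 1 := by exact_mod_cast h4
      linarith
    · have : (p : ℤ) * B = q * A + u := by exact_mod_cast h7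
      linarith
    · have : (q' : ℤ) * A = p' * B + v := by exact_mod_cast h8
      linarith
  · refine ⟨p, q, p', -1, h1, h2, h3, Or.inr rfl, ?_, ?_, ?_, h5, h6⟩
    · have : (p' : ℤ) * q = p * q' + 1 := by exact_mod_cast h4
      linarith
    · have : (q : ℤ) * A = p * B + u := by exact_mod_cast h7
      linarith
    · have : (p' : ℤ) * B = q' * A + v := by exact_mod_cast h8
      linarith

private theorem cf_inv_from (A B S u v tl th q' : ℕ) (p q p' : ℕ) (s : ℤ)
    (h : cf_I A B S u v tl th q' p q p' s) : Inv A B S u v tl th q' := by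
  obtain ⟨h1, h2, h3, h4, h5, h6, h7, h8, h9⟩ := h
  refine ⟨h1, p, q, p', h2, h3, ?_, h8, h9⟩
  rcases h4 with rfl | rfl
  · left
    refine ⟨?_, ?_, ?_⟩
    · have : (p : ℤ) * q' = p' * q + 1 := by linarith
      exact_mod_cast this
    · have : (p : ℤ) * B = q * A + u := by linarith
      exact_mod_cast this
    · have : (q' : ℤ) * A = p' * B + v := by linarith
      exact_mod_cast this
  · right
    refine ⟨?_, ?_, ?_⟩
    · have : (p' : ℤ) * q = p * q' + 1 := by linarith
      exact_mod_cast this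
    · have : (q : ℤ) * A = p * B + u := by linarith
      exact_mod_cast this
    · have : (p' : ℤ) * B = q' * A + v := by linarith
      exact_mod_cast this

private theorem cf_B (A B S u v tl th q' : ℕ) (p q p' : ℕ) (s : ℤ)
    (h : cf_I A B S u v tl th q' p q p' s) : B = q' * u + q * v := by
  obtain ⟨h1, h2, h3, h4, h5, h6, h7, h8, h9⟩ := h
  have key : s * (B : ℤ) = s * (q' * u + q * v) := by
    have : s * ((q' : ℤ) * u + q * v) = q' * (s * u) + q * (s * v) := by ring
    rw [this, ← h6, ← h7, ← h5]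
    ring
  have hs : s ≠ 0 := by rcases h4 with rfl | rfl <;> norm_num
  have := mul_left_cancel₀ hs key
  exact_mod_cast this

/-- the next state satisfies the invariant -/
private theorem cf_next (A B S u v tl th q' : ℕ) (p q p' : ℕ) (s : ℤ) (hS : 0 < S) (hv : 0 < v)
    (h : cf_I A B S u v tl th q' p q p' s) :
    cf_I A B S v (u % v) (S * S / (u / v * S + th + 1)) (S * S / (u / v * S + tl) + 1)
      (u / v * q' + q) p' q' (u / v * p' + p) (-s) := by
  obtain ⟨h1, h2, h3, h4, h5, h6, h7, h8, h9⟩ := h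
  have ha : 1 ≤ u / v := Nat.div_pos h1.le hv
  have hdm : v * (u / v) + u % v = u := Nat.div_add_mod u v
  set a := u / v with ha'
  set v' := u % v with hv'
  have hvz : (v : ℤ) * a + v' = u := by exact_mod_cast hdm
  refine ⟨Nat.mod_lt u hv, ?_, ?_, ?_, ?_, ?_, ?_, ?_, ?_⟩
  · nlinarith
  · nlinarith
  · rcases h4 with rfl | rfl <;> simp
  · push_cast
    linear_combination -h5
  · linear_combination -h7
  · push_cast
    linear_combination (a : ℤ) * h7 - h6 + s * hvz
  · have e1 : S * S / (a * S + th + 1) * (a * S + th + 1) ≤ S * S := Nat.div_mul_le_self _ _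
    set t := S * S / (a * S + th + 1)
    have e2 : t * (a * q' + q) * S ≤ q' * S * S := by
      calc t * (a * q' + q) * S = t * (a * q' * S + q * S) := by ring
        _ ≤ t * (a * q' * S + th * q') := by gcongr
        _ = t * (a * S + th) * q' := by ring
        _ ≤ t * (a * S + th + 1) * q' := by
          exact Nat.mul_le_mul (Nat.mul_le_mul le_rfl (Nat.le_succ _)) le_rfl
        _ ≤ S * S * q' := by gcongr
        _ = q' * S * S := by ring
    exact Nat.le_of_mul_le_mul_right e2 hS
  · have hpos : 0 < a * S + tl := by nlinarith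
    have e1 : S * S < (a * S + tl) * (S * S / (a * S + tl) + 1) := Nat.lt_mul_div_succ _ hpos
    set t := S * S / (a * S + tl)
    have e2 : q' * S * S ≤ (t + 1) * (a * q' + q) * S := by
      calc q' * S * S = q' * (S * S) := by ring
        _ ≤ q' * ((a * S + tl) * (t + 1)) := by gcongr
        _ = (t + 1) * (a * q' * S + tl * q') := by ring
        _ ≤ (t + 1) * (a * q' * S + q * S) := by gcongr
        _ = (t + 1) * (a * q' + q) * S := by ring
    exact Nat.le_of_mul_le_mul_right e2 hS

/-- one step: the denominators between `q'` and the next one -/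
private theorem cf_step (A B S am c1 c2 : ℕ) (b : Bool) (u v tl th q' : ℕ) (p q p' : ℕ) (s : ℤ)
    (ham : 2 ≤ am) (hv : 0 < v)
    (h : cf_I A B S u v tl th q' p q p' s)
    (ht : u / v ≤ am ∨ (b = true ∧ sq c1 c2 (u / v * S + u % v * S / v + tl)
        (u / v * S + u % v * S / v + 1 + th) 200 1 = true)) (P Q : ℕ) (hQ1 : q' ≤ Q)
    (hQ2 : Q < u / v * q' + q) :
    B ≤ (am + 2) * (Q * ((Q : ℤ) * A - P * B).natAbs) ∨
    (b = true ∧ ¬ (c1 * (Q * ((Q : ℤ) * A - P * B).natAbs) ≤ S * B ∧
      S * B ≤ c2 * (Q * ((Q : ℤ) * A - P * B).natAbs))) := by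
  have hB := cf_B A B S u v tl th q' p q p' s h
  obtain ⟨h1, h2, h3, h4, h5, h6, h7, h8, h9⟩ := h
  have ha : 1 ≤ u / v := Nat.div_pos h1.le hv
  have hdm : v * (u / v) + u % v = u := Nat.div_add_mod u v
  have hvlt : u % v < v := Nat.mod_lt u hv
  set a := u / v with ha'
  set v' := u % v with hv'
  have hvz : (v : ℤ) * a + v' = u := by exact_mod_cast hdm
  have hss : s * s = 1 := by rcases h4 with rfl | rfl <;> norm_num
  set q'' := a * q' + q with hq''
  have hq2 : (q'' : ℤ) = a * q' + q := by rw [hq'']; push_cast; ring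
  have hBz : (B : ℤ) = q'' * v + q' * v' := by
    have : (B : ℤ) = q' * u + q * v := by exact_mod_cast hB
    rw [this, hq2, ← hvz]; ring
  have hBn : B = q'' * v + q' * v' := by exact_mod_cast hBz
  -- the coordinates
  obtain ⟨x, hx⟩ : ∃ x : ℤ, x = s * ((Q : ℤ) * (a * p' + p) - P * q'') := ⟨_, rfl⟩
  obtain ⟨y, hy⟩ : ∃ y : ℤ, y = s * ((P : ℤ) * q' - Q * p') := ⟨_, rfl⟩
  have hQxy : (Q : ℤ) = x * q' + y * q'' := by
    rw [hx, hy, hq2]
    have : s * ((Q : ℤ) * (a * p' + p) - P * (a * q' + q)) * q' + s * ((P : ℤ) * q' - Q * p') *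
        (a * q' + q) = s * (Q * ((p : ℤ) * q' - p' * q)) := by ring
    rw [this, h5]
    linear_combination (-(Q : ℤ)) * hss
  have hPxy : (Q : ℤ) * A - P * B = s * (x * v - y * v') := by
    have e1 : (P : ℤ) = x * p' + y * (a * p' + p) := by
      rw [hx, hy, hq2]
      have : s * ((Q : ℤ) * (a * p' + p) - P * (a * q' + q)) * p' + s * ((P : ℤ) * q' - Q * p') *
        (a * p' + p) = s * (P * ((p : ℤ) * q' - p' * q)) := by ring
      rw [this, h5]
      linear_combination (-(P : ℤ)) * hss
    have e2 : (Q : ℤ) * A - P * B = x * (q' * A - p' * B) + y * (a * (q' * A - p' * B) -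
        (p * B - q * A)) := by
      rw [e1, hQxy, hq2]; ring
    rw [e2, h7, h6, ← hvz]
    ring
  have habs : (((Q : ℤ) * A - P * B).natAbs : ℤ) = |x * v - y * v'| := by
    rw [Int.natCast_natAbs, hPxy, abs_mul]
    have : |s| = 1 := by rcases h4 with rfl | rfl <;> norm_num
    rw [this, one_mul]
  set N := ((Q : ℤ) * A - P * B).natAbs with hN
  have hQ1z : (q' : ℤ) ≤ Q := by exact_mod_cast hQ1
  have hQ2z : (Q : ℤ) < q'' := by exact_mod_cast hQ2
  have hq'z : (0 : ℤ) < q' := by exact_mod_cast h3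
  have hvzp : (0 : ℤ) < v := by exact_mod_cast hv
  have hv'z : (0 : ℤ) ≤ v' := by positivity
  have hv'lt : (v' : ℤ) < v := by exact_mod_cast hvlt
  have hq''z : (0 : ℤ) < q'' := lt_of_lt_of_le hq'z (le_trans hQ1z hQ2z.le)
  -- the signs
  have hcases : (y = 0 ∧ 1 ≤ x) ∨ (y ≤ -1 ∧ 1 ≤ x) ∨ (1 ≤ y ∧ x ≤ -1) := by
    rcases lt_trichotomy y 0 with hy0 | hy0 | hy0
    · right; left
      refine ⟨by omega, ?_⟩
      by_contra hc
      have hc' : x ≤ 0 := by omega
      have k1 : x * q' ≤ 0 := mul_nonpos_of_nonpos_of_nonneg hc' hq'z.le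
      have k2 : y * q'' < 0 := mul_neg_of_neg_of_pos hy0 hq''z
      linarith
    · left
      refine ⟨hy0, ?_⟩
      by_contra hc
      have hc' : x ≤ 0 := by omega
      rw [hy0] at hQxy
      have k1 : x * q' ≤ 0 := mul_nonpos_of_nonpos_of_nonneg hc' hq'z.le
      linarith
    · right; right
      refine ⟨by omega, ?_⟩
      by_contra hc
      have hc' : 0 ≤ x := by omega
      have k1 : 0 ≤ x * q' := mul_nonneg hc' hq'z.le
      have k2 : 1 * (q'' : ℤ) ≤ y * q'' := mul_le_mul_of_nonneg_right (by omega) hq''z.le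
      linarith
  have hNz : (N : ℤ) = |x| * v + |y| * v' := by
    rw [habs]
    rcases hcases with ⟨c1', c2'⟩ | ⟨c1', c2'⟩ | ⟨c1', c2'⟩
    · rw [c1']
      simp only [abs_zero, zero_mul, sub_zero, add_zero]
      rw [abs_mul, abs_of_pos hvzp]
    · have k1 : 0 ≤ x * v := mul_nonneg (by linarith) hvzp.le
      have k2 : y * v' ≤ 0 := mul_nonpos_of_nonpos_of_nonneg (by linarith) hv'z
      rw [abs_of_pos (by linarith : (0 : ℤ) < x), abs_of_neg (by linarith : y < 0),
        abs_of_nonneg (by linarith)]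
      ring
    · have k1 : x * v ≤ 0 := mul_nonpos_of_nonpos_of_nonneg (by linarith) hvzp.le
      have k2 : 0 ≤ y * v' := mul_nonneg (by linarith) hv'z
      rw [abs_of_neg (by linarith : x < 0), abs_of_pos (by linarith : (0 : ℤ) < y),
        abs_of_nonpos (by linarith)]
      ring
  have hx1 : 1 ≤ |x| := by
    rcases hcases with ⟨c1', c2'⟩ | ⟨c1', c2'⟩ | ⟨c1', c2'⟩
    · rw [abs_of_pos (by linarith : (0 : ℤ) < x)]; exact c2'
    · rw [abs_of_pos (by linarith : (0 : ℤ) < x)]; exact c2'
    · rw [abs_of_neg (by linarith : x < 0)]; linarith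
  have hNv : (v : ℤ) ≤ N := by
    rw [hNz]
    have e1 : (1 : ℤ) * v ≤ |x| * v := mul_le_mul_of_nonneg_right hx1 hvzp.le
    have e2 : (0 : ℤ) ≤ |y| * v' := mul_nonneg (abs_nonneg _) hv'z
    linarith
  have hNvn : v ≤ N := by exact_mod_cast hNv
  have hD1 : q' * v ≤ Q * N := Nat.mul_le_mul hQ1 hNvn
  by_cases hle : a ≤ am
  · left
    have e1 : B ≤ (a + 2) * (q' * v) := by
      rw [hBn, hq'']
      have e2 : q * v ≤ q' * v := Nat.mul_le_mul h2 le_rfl
      have e3 : q' * v' ≤ q' * v := Nat.mul_le_mul le_rfl hvlt.le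
      calc (a * q' + q) * v + q' * v' = a * (q' * v) + q * v + q' * v' := by ring
        _ ≤ a * (q' * v) + q' * v + q' * v := by linarith
        _ = (a + 2) * (q' * v) := by ring
    exact le_trans e1 (Nat.mul_le_mul (by omega) hD1)
  · have ht' := ht.resolve_left hle
    have ha2 : 2 ≤ a := by omega
    have hq2v : 2 * (q' * v) ≤ B := by
      rw [hBn, hq'']
      have : 2 * (q' * v) ≤ a * (q' * v) := Nat.mul_le_mul ha2 le_rfl
      nlinarith
    rcases hcases with ⟨c1', c2'⟩ | ⟨c1', c2'⟩ | ⟨c1', c2'⟩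
    · -- y = 0
      right
      refine ⟨ht'.1, ?_⟩
      intro hc
      have hsq := cf_sq _ _ _ _ _ _ ht'.2 x.toNat (by omega)
      apply hsq
      have hxn : ((x.toNat : ℕ) : ℤ) = x := Int.toNat_of_nonneg (by linarith)
      set X := x.toNat with hX
      have hQX : Q = X * q' := by
        have : (Q : ℤ) = X * q' := by rw [hQxy, c1', hxn]; ring
        exact_mod_cast this
      have hNX : N = X * v := by
        have : (N : ℤ) = X * v := by
          rw [hNz, c1', hxn, abs_of_pos (by linarith : (0 : ℤ) < x)]; simp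
        exact_mod_cast this
      have hDX : Q * N = X * X * (q' * v) := by rw [hQX, hNX]; ring
      rw [hDX] at hc
      have hqv : 0 < q' * v := Nat.mul_pos h3 hv
      have hSB : S * B = S * q' * (v * a + v') + S * q * v := by
        rw [hdm, hB]; ring
      set w := v' * S / v with hw
      have hw1 : w * v ≤ v' * S := Nat.div_mul_le_self _ _
      have hw2 : v' * S < v * (w + 1) := Nat.lt_mul_div_succ _ hv
      have hlow : (a * S + w + tl) * (q' * v) ≤ S * B := by
        rw [hSB]
        calc (a * S + w + tl) * (q' * v) = a * S * q' * v + w * v * q' + tl * q' * v := by ring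
          _ ≤ a * S * q' * v + v' * S * q' + q * S * v := by gcongr
          _ = S * q' * (v * a + v') + S * q * v := by ring
      have hupp : S * B ≤ (a * S + w + 1 + th) * (q' * v) := by
        rw [hSB]
        calc S * q' * (v * a + v') + S * q * v = a * S * q' * v + v' * S * q' + q * S * v := by ring
          _ ≤ a * S * q' * v + v * (w + 1) * q' + th * q' * v := by gcongr
          _ = (a * S + w + 1 + th) * (q' * v) := by ring
      constructor
      · have : c1 * (X * X) * (q' * v) ≤ (a * S + w + 1 + th) * (q' * v) := by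
          calc c1 * (X * X) * (q' * v) = c1 * (X * X * (q' * v)) := by ring
            _ ≤ S * B := hc.1
            _ ≤ _ := hupp
        exact Nat.le_of_mul_le_mul_right this hqv
      · have : (a * S + w + tl) * (q' * v) ≤ c2 * (X * X) * (q' * v) := by
          calc (a * S + w + tl) * (q' * v) ≤ S * B := hlow
            _ ≤ c2 * (X * X * (q' * v)) := hc.2
            _ = _ := by ring
        exact Nat.le_of_mul_le_mul_right this hqv
    · -- y < 0 < x
      left
      have e1 : (B : ℤ) ≤ Q * N := by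
        rw [hNz, abs_of_pos (by linarith : (0 : ℤ) < x), abs_of_neg (by linarith : y < 0)]
        have k1 : 1 * (q'' : ℤ) ≤ (-y) * q'' :=
          mul_le_mul_of_nonneg_right (by linarith) hq''z.le
        have e2 : (q' : ℤ) + q'' ≤ x * q' := by linarith
        have e3 : (q' : ℤ) * (x * v) ≤ Q * (x * v + -y * v') := by
          have k2 : 0 ≤ -y * v' := mul_nonneg (by linarith) hv'z
          have : (x : ℤ) * v ≤ x * v + -y * v' := by linarith
          have h0 : (0 : ℤ) ≤ x * v := mul_nonneg (by linarith) hvzp.le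
          exact mul_le_mul hQ1z this h0 (by linarith)
        have e4 : ((q' : ℤ) + q'') * v ≤ q' * (x * v) := by
          have := mul_le_mul_of_nonneg_right e2 hvzp.le
          linarith
        have e5 : (B : ℤ) ≤ (q' + q'') * v := by
          rw [hBz]
          have : (q' : ℤ) * v' ≤ q' * v := mul_le_mul_of_nonneg_left hv'lt.le hq'z.le
          linarith
        linarith
      have e2 : B ≤ Q * N := by exact_mod_cast e1
      calc B ≤ Q * N := e2
        _ = 1 * (Q * N) := by ring
        _ ≤ (am + 2) * (Q * N) := Nat.mul_le_mul (by omega) le_rfl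
    · -- x < 0 < y
      left
      have e1 : (B : ℤ) - q' * v ≤ Q * N := by
        rw [hNz, abs_of_neg (by linarith : x < 0), abs_of_pos (by linarith : (0 : ℤ) < y)]
        have k1 : 1 * (q'' : ℤ) ≤ y * q'' := mul_le_mul_of_nonneg_right c1' hq''z.le
        have e2 : (q'' : ℤ) ≤ Q + (-x) * q' := by linarith
        have e3 : (0 : ℤ) ≤ ((Q : ℤ) - q') * (-x - 1) := mul_nonneg (by linarith) (by linarith)
        have e4 : (q'' : ℤ) - q' ≤ Q * (-x) := by
          have e3' : ((Q : ℤ) - q') * (-x - 1) = Q * (-x) - Q - q' * (-x) + q' := by ring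
          rw [e3'] at e3
          linarith
        have e5 : ((q'' : ℤ) - q') * v ≤ Q * (-x) * v := mul_le_mul_of_nonneg_right e4 hvzp.le
        have e6 : (q' : ℤ) * v' ≤ Q * (y * v') := by
          have h01 : (1 : ℤ) * v' ≤ y * v' := mul_le_mul_of_nonneg_right c1' hv'z
          have h02 : (v' : ℤ) ≤ y * v' := by linarith
          exact mul_le_mul hQ1z h02 hv'z (by linarith)
        rw [hBz]
        have k2 : (Q : ℤ) * (-x * v + y * v') = Q * (-x) * v + Q * (y * v') := by ring
        rw [k2]
        linarith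
      have e2 : B ≤ Q * N + q' * v := by
        have : (B : ℤ) ≤ ((Q * N + q' * v : ℕ) : ℤ) := by push_cast; linarith
        exact_mod_cast this
      have e3 : B ≤ 2 * (Q * N) := by omega
      calc B ≤ 2 * (Q * N) := e3
        _ ≤ (am + 2) * (Q * N) := Nat.mul_le_mul (by omega) le_rfl

theorem p_cf : CfStm := by
  intro A B S am c1 c2 b f
  induction f with
  | zero =>
    intro u v tl th q' hB hS ham hI u' v' tl' th' h
    simp only [cf, Prod.mk.injEq] at h
    obtain ⟨-, rfl, rfl, rfl, rfl⟩ := h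
    refine ⟨q', hI, ?_⟩
    intro P Q h1 h2
    omega
  | succ f ih =>
    intro u v tl th q' hB hS ham hI u' v' tl' th' h
    obtain ⟨hv, ht, hc⟩ := cf_succ_eq S am c1 c2 b f u v tl th u' v' tl' th' h
    obtain ⟨p, q, p', s, hI'⟩ := cf_inv_to A B S u v tl th q' hI
    have hnext := cf_next A B S u v tl th q' p q p' s hS hv hI'
    obtain ⟨q3, hI3, hrest⟩ := ih v (u % v) _ _ (u / v * q' + q) hB hS ham
      (cf_inv_from _ _ _ _ _ _ _ _ _ _ _ _ hnext) u' v' tl' th' hc
    refine ⟨q3, hI3, ?_⟩
    intro P Q hQ1 hQ2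
    rcases Nat.lt_or_ge Q (u / v * q' + q) with hlt | hge
    · exact cf_step A B S am c1 c2 b u v tl th q' p q p' s ham hv hI' ht P Q hQ1 hlt
    · exact hrest P Q hge hQ2

end Pool.Agent.Lib.MP_d0b36d_nt.LB
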