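import Pool.Agent.Lib.MP_d0b36d_nt.LB.Stm

/-!
MP_d0b36d_nt, hand-in MoserBound: piece COL.
-/

set_option autoImplicit false

namespace Pool.Agent.Lib.MP_d0b36d_nt.LB

open Finset
open Pool.Agent.Lib.MP_d0b36d_nt.LS (Sol)

private lemma colm_allT (p w acc : ℕ) (ds : List ℕ) (h : allT p w acc ds = true) :
    ∀ d ∈ ds, d < p ∧ tst p w acc d = true := by
  induction ds with
  | nil => intro d hd; simp at hd
  | cons a t ih =>
    rw [allT, Bool.and_eq_true, Bool.and_eq_true] at h
    intro d hd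
    rcases List.mem_cons.1 hd with h1 | h1
    · subst h1
      exact ⟨Nat.blt_eq ▸ h.1, h.2.1⟩
    · exact ih h.2.2 d h1

private lemma colm_pow (p r n : ℕ) (hp : p.Prime) (hr : 0 < r) (hn : 0 < n)
    (h : n % (p - 1) = r) (x : ℕ) : x ^ n ≡ x ^ r [MOD p] := by
  by_cases hx : p ∣ x
  · have h1 : p ∣ x ^ n := hx.trans (dvd_pow_self x (by omega))
    have h2 : p ∣ x ^ r := hx.trans (dvd_pow_self x (by omega))
    exact ((Nat.modEq_zero_iff_dvd.2 h1).trans (Nat.modEq_zero_iff_dvd.2 h2).symm)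
  · have hc : Nat.Coprime x p := ((Nat.Prime.coprime_iff_not_dvd hp).2 hx).symm
    have h1 : x ^ (p - 1) ≡ 1 [MOD p] := by
      have := Nat.ModEq.pow_totient hc
      rwa [Nat.totient_prime hp] at this
    have h2 : n = (p - 1) * (n / (p - 1)) + r := by
      rw [← h]; exact (Nat.div_add_mod n (p - 1)).symm
    calc x ^ n = (x ^ (p - 1)) ^ (n / (p - 1)) * x ^ r := by
          conv_lhs => rw [h2, pow_add, pow_mul]
      _ ≡ 1 ^ (n / (p - 1)) * x ^ r [MOD p] := (h1.pow _).mul_right _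
      _ = x ^ r := by simp

private lemma colm_sum (p r n : ℕ) (h : ∀ x : ℕ, x ^ n ≡ x ^ r [MOD p]) (x : ℕ) :
    ∑ i ∈ range x, i ^ n ≡ ∑ i ∈ range x, i ^ r [MOD p] := by
  induction x with
  | zero => simp; rfl
  | succ x ih =>
    rw [sum_range_succ, sum_range_succ]
    exact ih.add (h x)

private lemma colm_shift (p r : ℕ) (h0 : ps p r p = 0) (x : ℕ) :
    ∑ i ∈ range (x + p), i ^ r ≡ ∑ i ∈ range x, i ^ r [MOD p] := by
  rw [add_comm x p, sum_range_add]
  have h1 : ∑ i ∈ range p, i ^ r ≡ 0 [MOD p] := by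
    unfold ps at h0
    unfold Nat.ModEq
    rw [h0]; simp
  have h2 : ∑ i ∈ range x, (p + i) ^ r ≡ ∑ i ∈ range x, i ^ r [MOD p] := by
    induction x with
    | zero => simp; rfl
    | succ x ih =>
      rw [sum_range_succ, sum_range_succ]
      refine ih.add (Nat.ModEq.pow _ ?_)
      unfold Nat.ModEq
      simp
  have h3 := h1.add h2
  rwa [zero_add] at h3

private lemma colm_per (p r : ℕ) (h0 : ps p r p = 0) (x : ℕ) :
    ∑ i ∈ range x, i ^ r ≡ ps p r (x % p) [MOD p] := by
  have key : ∀ q y : ℕ, ∑ i ∈ range (y + p * q), i ^ r ≡ ∑ i ∈ range y, i ^ r [MOD p] := by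
    intro q
    induction q with
    | zero => intro y; simp; rfl
    | succ q ih =>
      intro y
      have : y + p * (q + 1) = (y + p * q) + p := by ring
      rw [this]
      exact (colm_shift p r h0 _).trans (ih y)
  have h1 := key (x / p) (x % p)
  rw [Nat.mod_add_div] at h1
  refine h1.trans ?_
  unfold ps
  exact (Nat.mod_modEq _ _).symm

private lemma colm_rel (n k m : ℕ) (h : Sol n k m) :
    2 * ∑ i ∈ range (k + m + 1), i ^ n =
      ∑ i ∈ range (k + m + 1 + 1), i ^ n + ∑ i ∈ range k, i ^ n := by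
  have h1 : ∑ i ∈ range k, i ^ n + ∑ i ∈ Icc k (k + m), i ^ n =
      ∑ i ∈ range (k + m + 1), i ^ n := by
    have : Icc k (k + m) = Ico k (k + m + 1) := by
      ext i; simp only [mem_Icc, mem_Ico]; omega
    rw [this]
    exact sum_range_add_sum_Ico _ (by omega)
  rw [h.2.2.2] at h1
  rw [sum_range_succ (fun i => i ^ n) (k + m + 1)]
  omega

theorem p_col (h1 : ColpStm) (h2 : TstStm) : ColStm := by
  intro p w r ds hp hw h4 hr hrp hok d hd
  rw [colOK, Bool.and_eq_true, h1 p r w p hp.pos] at hok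
  have h0 : ps p r p = 0 := Nat.beq_eq ▸ hok.1
  obtain ⟨hdp, ht⟩ := colm_allT p w _ ds hok.2 d hd
  refine ⟨hdp, ?_⟩
  intro n k m hS hn hm
  have hg : ∀ x, ps p r x < p := fun x => Nat.mod_lt _ hp.pos
  have hT := h2 p w d (ps p r) hp.two_le hw h4 hg hdp ht
  have hpow := colm_pow p r n hp hr (by have := hS.1; omega) hn
  have hsum := colm_sum p r n hpow
  have hper : ∀ x, ∑ i ∈ range x, i ^ n ≡ ps p r (x % p) [MOD p] :=
    fun x => (hsum x).trans (colm_per p r h0 x)
  have hrel := colm_rel n k m hS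
  have e1 : (k + m + 1 + 1) % p = ((k + m + 1) % p + 1) % p := by
    rw [Nat.mod_add_mod]
  have e2 : k % p = ((k + m + 1) % p + (p - d)) % p := by
    rw [Nat.mod_add_mod]
    have hq := Nat.div_add_mod (m + 1) p
    rw [hm] at hq
    have : k + m + 1 + (p - d) = k + p * ((m + 1) / p + 1) := by
      have : p * ((m + 1) / p + 1) = p * ((m + 1) / p) + p := by ring
      omega
    rw [this, Nat.add_mul_mod_self_left]
  have hN := hper (k + m + 1)
  have hN1 := hper (k + m + 1 + 1)
  have hk := hper k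
  rw [e1] at hN1
  rw [e2] at hk
  set N' := (k + m + 1) % p with hN'
  have hN'lt : N' < p := Nat.mod_lt _ hp.pos
  have hmod : 2 * ps p r N' ≡ ps p r ((N' + 1) % p) + ps p r ((N' + (p - d)) % p) [MOD p] := by
    have a1 := (hN.mul_left 2)
    rw [hrel] at a1
    exact a1.symm.trans (hN1.add hk)
  have b1 := hg N'
  have b2 := hg ((N' + 1) % p)
  have b3 := hg ((N' + (p - d)) % p)
  have hTN := hT N' hN'lt
  generalize ps p r N' = x at *
  generalize ps p r ((N' + 1) % p) = y at *
  generalize ps p r ((N' + (p - d)) % p) = z at *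
  have hdvd : p ∣ 2 * x + 2 * p - y - z := by
    have e : 2 * x + 2 * p - y - z = 2 * x + 2 * p - (y + z) := by omega
    rw [e]
    refine (Nat.modEq_iff_dvd' (by omega)).1 ?_
    refine hmod.symm.trans ?_
    unfold Nat.ModEq
    simp
  obtain ⟨c, hc⟩ := hdvd
  have c1 : 0 < c := by
    rcases Nat.eq_zero_or_pos c with h | h
    · subst h; omega
    · exact h
  have c2 : c < 4 := by
    by_contra hcc
    have : p * 4 ≤ p * c := Nat.mul_le_mul_left p (by omega)
    omega
  have n1 := hTN p (by simp)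
  have n2 := hTN (2 * p) (by simp)
  have n3 := hTN (3 * p) (by simp)
  rw [hc] at n1 n2 n3
  interval_cases c
  · exact n1 (by ring)
  · exact n2 (by ring)
  · exact n3 (by ring)

end Pool.Agent.Lib.MP_d0b36d_nt.LB
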