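import Mathlib
import Pool.Agent.Lib.MP_d0b36d_nt.LB.Stm

/-!
MP_d0b36d_nt, hand-in MoserBound: piece COLP (the loop of `col`).
-/

set_option autoImplicit false

namespace Pool.Agent.Lib.MP_d0b36d_nt.LB

private theorem colp_ps (p r x : ℕ) : (ps p r x + x ^ r % p) % p = ps p r (x + 1) := by
  unfold ps
  rw [Finset.sum_range_succ, ← Nat.add_mod]

private theorem colp_aux (p r w : ℕ) : ∀ f x acc : ℕ,
    col p r w f x (ps p r x) acc = (ps p r (x + f),
      acc * 2 ^ (w * f) + Nat.ofDigits (2 ^ w) ((List.range' x f).reverse.map (ps p r))) := by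
  intro f
  induction f with
  | zero =>
    intro x acc
    simp [col]
  | succ f ih =>
    intro x acc
    unfold col
    rw [colp_ps, ih (x + 1) (acc * 2 ^ w + ps p r x)]
    refine Prod.ext ?_ ?_
    · simp only
      congr 1
      ring
    · simp only
      rw [List.range'_succ, List.reverse_cons, List.map_append, Nat.ofDigits_append, List.map_cons,
        List.map_nil, Nat.ofDigits_singleton, List.length_map, List.length_reverse,
        List.length_range', ← pow_mul]
      ring

theorem p_colp : ColpStm := by
  intro p r w f _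
  have h0 : ps p r 0 = 0 := by simp [ps]
  have h := colp_aux p r w f 0 0
  rw [h0] at h
  rw [h, Nat.zero_add, Nat.zero_mul, Nat.zero_add, List.range_eq_range']

end Pool.Agent.Lib.MP_d0b36d_nt.LB
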