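import Mathlib
import Pool.Agent.Lib.MP_d0b36d_nt.LB.Stm

set_option autoImplicit false

namespace Pool.Agent.Lib.MP_d0b36d_nt.LB

open Pool.Agent.Lib.MP_d0b36d_nt.LS (Sol)

private theorem conv_kap : kap ≤ 0.011 := by
  unfold kap
  have h1 := Real.log_two_gt_d9
  have h2 := Real.log_two_lt_d9
  nlinarith [h1, h2, mul_pos (sub_pos.2 h1) (sub_pos.2 h2), sq_nonneg (Real.log 2 - 0.6931471805)]

private theorem conv_kap0 : 0 ≤ kap := by
  unfold kap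
  have h1 := Real.log_two_gt_d9
  have h2 := Real.log_two_lt_d9
  nlinarith [h1, h2, mul_pos (sub_pos.2 h1) (sub_pos.2 h2)]

private theorem conv_fin (P X : ℝ) (hP : 0 < P) (hX : X < 1 / 2) : X / P < 1 / (2 * P) := by
  rw [div_lt_div_iff₀ hP (by positivity)]
  nlinarith

private theorem conv_den (a b : ℕ) (hb : 0 < b) : ((a : ℚ) / (b : ℚ)).den ≤ b := by
  have h := Rat.den_dvd (a : ℤ) (b : ℤ)
  rw [Rat.divInt_eq_div] at h
  push_cast at h
  exact Nat.le_of_dvd hb (by exact_mod_cast h)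

theorem p_conv (h1 : ShortStm) (h2 : ExpnStm) : ConvStm := by
  intro n k m hs hexp
  have hM := h1 n k m hs
  have hN : 74000 ≤ k + m + 1 := by omega
  have hE := h2 n k m hs hN hexp
  set N : ℕ := k + m + 1 with hNdef
  have hN' : (74000 : ℝ) ≤ (N : ℝ) := by exact_mod_cast hN
  obtain ⟨Q, hQ⟩ : ∃ Q : ℕ, Q + 3 = 2 * N := ⟨2 * N - 3, by omega⟩
  have hQ0 : 0 < Q := by omega
  have hQr : (2 * (N : ℝ) - 3) = (Q : ℝ) := by
    have : ((Q + 3 : ℕ) : ℝ) = ((2 * N : ℕ) : ℝ) := by rw [hQ]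
    push_cast at this
    linarith
  have hQq : (2 * (N : ℚ) - 3) = (Q : ℚ) := by
    have : ((Q + 3 : ℕ) : ℚ) = ((2 * N : ℕ) : ℚ) := by rw [hQ]
    push_cast at this
    linarith
  have hQpos : (0 : ℝ) < (Q : ℝ) := by exact_mod_cast hQ0
  rw [hQr] at hE
  have hk := conv_kap
  have hb : (5000 : ℝ) / (N : ℝ) ≤ 5000 / 74000 := by gcongr
  have hub : |(Q : ℝ) * ((Q : ℝ) * Real.log 2 - 2 * n)| < 1 / 2 := by
    have hkap0 : 0 ≤ kap := conv_kap0
    refine lt_of_le_of_lt ?_ (show kap + (5000 / (N : ℝ) + 1 / 10 ^ 7) < 1 / 2 by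
      clear hE hexp
      norm_num at hb ⊢
      linarith)
    have := abs_sub_abs_le_abs_sub ((Q : ℝ) * ((Q : ℝ) * Real.log 2 - 2 * n)) kap
    rw [abs_of_nonneg hkap0] at this
    clear hexp
    linarith
  set q : ℚ := (2 * (n : ℚ)) / (2 * (N : ℚ) - 3) with hq
  have hq' : q = ((2 * n : ℕ) : ℚ) / (Q : ℚ) := by
    rw [hq, hQq]; push_cast; ring
  have hden : q.den ≤ Q := by
    rw [hq']; exact conv_den _ _ hQ0
  have hqr : (q : ℝ) = 2 * n / Q := by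
    rw [hq']; push_cast; ring
  have hmain : |Real.log 2 - (q : ℝ)| < 1 / (2 * (q.den : ℝ) ^ 2) := by
    have hd0 : (0 : ℝ) < (q.den : ℝ) := by exact_mod_cast q.den_pos
    have hdQ : (q.den : ℝ) ≤ (Q : ℝ) := by exact_mod_cast hden
    have e1 : Real.log 2 - (q : ℝ) = ((Q : ℝ) * ((Q : ℝ) * Real.log 2 - 2 * n)) / (Q : ℝ) ^ 2 := by
      rw [hqr]; field_simp
    rw [e1, abs_div, abs_of_pos (by positivity : (0 : ℝ) < (Q : ℝ) ^ 2)]
    have e2 : (1 : ℝ) / (2 * (Q : ℝ) ^ 2) ≤ 1 / (2 * (q.den : ℝ) ^ 2) := by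
      gcongr
    refine lt_of_lt_of_le ?_ e2
    have hP : (0 : ℝ) < (Q : ℝ) ^ 2 := by positivity
    exact conv_fin _ _ hP hub
  obtain ⟨i, hi⟩ := Real.exists_rat_eq_convergent hmain
  exact ⟨i, hi⟩

end Pool.Agent.Lib.MP_d0b36d_nt.LB
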