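import Mathlib
import Pool.Agent.Lib.MP_d0b36d_nt.LB.Stm
import Pool.Agent.Lib.MP_d0b36d_nt.LS.PMu

/-!
MP_d0b36d_nt, hand-in MoserBound, piece EXPN: the expansion of a solution.
-/

set_option autoImplicit false

namespace Pool.Agent.Lib.MP_d0b36d_nt.LB

open Finset
open Pool.Agent.Lib.MP_d0b36d_nt
open Pool.Agent.Lib.MP_d0b36d_nt.LS (Sol)

/-- Taylor bounds for the exponential function -/
private lemma expn_exp {x : ℝ} (h1 : |x| ≤ 1) :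
    |Real.exp x - (1 + x + x ^ 2 / 2)| ≤ 2 / 9 * |x| ^ 3 := by
  have h := Real.exp_bound (x := x) h1 (n := 3) (by norm_num)
  have e : ∑ m ∈ range 3, x ^ m / (m.factorial : ℝ) = 1 + x + x ^ 2 / 2 := by
    simp [sum_range_succ, Nat.factorial]
  rw [e] at h
  refine h.trans (le_of_eq ?_)
  norm_num [Nat.factorial]
  ring

private lemma expn_exp_neg {w : ℝ} (h0 : 0 ≤ w) (h1 : w ≤ 1) :
    1 - w + w ^ 2 / 2 - 2 / 9 * w ^ 3 ≤ Real.exp (-w) ∧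
      Real.exp (-w) ≤ 1 - w + w ^ 2 / 2 + 2 / 9 * w ^ 3 := by
  have h := expn_exp (x := -w) (by rw [abs_neg, abs_of_nonneg h0]; exact h1)
  rw [abs_neg, abs_of_nonneg h0, abs_le] at h
  obtain ⟨ha, hb⟩ := h
  constructor <;> nlinarith [ha, hb]

private lemma expn_exp_pos {w : ℝ} (h0 : 0 ≤ w) (h1 : w ≤ 1) :
    Real.exp w ≤ 1 + w + w ^ 2 / 2 + 2 / 9 * w ^ 3 := by
  have h := expn_exp (x := w) (by rw [abs_of_nonneg h0]; exact h1)
  rw [abs_of_nonneg h0, abs_le] at h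
  linarith [h.2]

private lemma expn_den {w : ℝ} (h1 : w ≤ 1 / 10) : 0 < 2 * Real.exp (-w) - 1 := by
  have := Real.add_one_le_exp (-w)
  linarith

private lemma expn_inv1 {w : ℝ} (h0 : 0 ≤ w) (h1 : w ≤ 1 / 10) :
    1 + 2 * w ≤ 1 / (2 * Real.exp (-w) - 1) := by
  obtain ⟨-, b⟩ := expn_exp_neg h0 (by linarith)
  rw [le_div_iff₀ (expn_den h1)]
  have h2 : (1 + 2 * w) * (2 * Real.exp (-w) - 1) ≤
      (1 + 2 * w) * (1 - 2 * w + w ^ 2 + 4 / 9 * w ^ 3) :=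
    mul_le_mul_of_nonneg_left (by linarith) (by linarith)
  have h3 : 0 ≤ w ^ 2 * (3 - 22 / 9 * w - 8 / 9 * w ^ 2) := by
    apply mul_nonneg (sq_nonneg w)
    nlinarith
  have h4 : (1 + 2 * w) * (1 - 2 * w + w ^ 2 + 4 / 9 * w ^ 3) =
      1 - w ^ 2 * (3 - 22 / 9 * w - 8 / 9 * w ^ 2) := by ring
  linarith

private lemma expn_inv2 {w : ℝ} (h0 : 0 ≤ w) (h1 : w ≤ 1 / 10) :
    1 + 2 * w + 3 * w ^ 2 ≤ 1 / (2 * Real.exp (-w) - 1) ∧
      1 / (2 * Real.exp (-w) - 1) ≤ 1 + 2 * w + 3 * w ^ 2 + 9 * w ^ 3 := by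
  obtain ⟨a, b⟩ := expn_exp_neg h0 (by linarith)
  have hd := expn_den h1
  have hw2 : w ^ 2 ≤ 1 / 100 := by nlinarith
  have hw3 : 0 ≤ w ^ 3 := by positivity
  constructor
  · rw [le_div_iff₀ hd]
    have h2 : (1 + 2 * w + 3 * w ^ 2) * (2 * Real.exp (-w) - 1) ≤
        (1 + 2 * w + 3 * w ^ 2) * (1 - 2 * w + w ^ 2 + 4 / 9 * w ^ 3) :=
      mul_le_mul_of_nonneg_left (by linarith) (by positivity)
    have h3 : 0 ≤ w ^ 3 * (32 / 9 - 35 / 9 * w - 4 / 3 * w ^ 2) := by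
      apply mul_nonneg hw3
      nlinarith
    have h4 : (1 + 2 * w + 3 * w ^ 2) * (1 - 2 * w + w ^ 2 + 4 / 9 * w ^ 3) =
        1 - w ^ 3 * (32 / 9 - 35 / 9 * w - 4 / 3 * w ^ 2) := by ring
    linarith
  · rw [div_le_iff₀ hd]
    have h2 : (1 + 2 * w + 3 * w ^ 2 + 9 * w ^ 3) * (1 - 2 * w + w ^ 2 - 4 / 9 * w ^ 3) ≤
        (1 + 2 * w + 3 * w ^ 2 + 9 * w ^ 3) * (2 * Real.exp (-w) - 1) :=
      mul_le_mul_of_nonneg_left (by linarith) (by positivity)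
    have h3 : 0 ≤ w ^ 3 * (41 / 9 - 143 / 9 * w + 23 / 3 * w ^ 2 - 4 * w ^ 3) := by
      apply mul_nonneg hw3
      have : w ^ 3 ≤ 1 / 100 := by nlinarith
      nlinarith
    have h4 : (1 + 2 * w + 3 * w ^ 2 + 9 * w ^ 3) * (1 - 2 * w + w ^ 2 - 4 / 9 * w ^ 3) =
        1 + w ^ 3 * (41 / 9 - 143 / 9 * w + 23 / 3 * w ^ 2 - 4 * w ^ 3) := by ring
    linarith

/-- the upper bound of AK, numerically -/
private lemma expn_num {z z0 c : ℝ} {k : ℕ} (h0 : 0 ≤ z) (h1 : z ≤ z0) (h2 : z0 < 1) (hc : 0 ≤ c) :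
    c * z / (1 - z) ^ (k + 1) ≤ c * z0 / (1 - z0) ^ (k + 1) := by
  have h3 : (1 - z0) ^ (k + 1) ≤ (1 - z) ^ (k + 1) :=
    pow_le_pow_left₀ (by linarith) (by linarith) _
  have h4 : 0 < (1 - z0) ^ (k + 1) := pow_pos (by linarith) _
  exact div_le_div₀ (mul_nonneg hc (h0.trans h1)) (mul_le_mul_of_nonneg_left h1 hc) h4 h3

/-- the sum over the tail -/
private lemma expn_tail (M : ℕ) : ∀ L : ℕ, M ≤ L →
    ∑ j ∈ Ico (M + 1) (L + 1), Real.exp (-(5 / 8 * (j : ℝ))) ≤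
      2 * Real.exp (-(5 / 8 * (M : ℝ))) - 2 * Real.exp (-(5 / 8 * (L : ℝ))) := by
  intro L hL
  induction L, hL using Nat.le_induction with
  | base => simp
  | succ L hL ih =>
    rw [sum_Ico_succ_top (by omega)]
    have e : Real.exp (-(5 / 8 * (L : ℝ))) =
        Real.exp (-(5 / 8 * ((L + 1 : ℕ) : ℝ))) * Real.exp (5 / 8) := by
      rw [← Real.exp_add]
      congr 1
      push_cast
      ring
    have h10 := Real.add_one_le_exp (5 / 8 : ℝ)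
    have h11 := Real.exp_pos (-(5 / 8 * ((L + 1 : ℕ) : ℝ)))
    rw [e] at ih
    nlinarith

/-- the small terms -/
private lemma expn_small {l t w q2 q3 q4 : ℝ} (hl1 : 69314 / 100000 ≤ l)
    (hl2 : l ≤ 69315 / 100000) (ht0 : 0 < t) (ht : t ≤ 1 / 74000) (hw0 : 0 ≤ w)
    (hw : w ≤ 19 / 10 * t) (h2 : 0 ≤ q2 ∧ q2 ≤ 195 * w ^ 2)
    (h3 : 0 ≤ q3 ∧ q3 ≤ 390 * w) (h4 : 0 ≤ q4 ∧ q4 ≤ 3900 * w) :
    (0 ≤ w ^ 2 * t ∧ w ^ 2 * t ≤ 361 / 100 * t ^ 3) ∧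
    (0 ≤ (l - w) * t / 2 * q2 ∧ (l - w) * t / 2 * q2 ≤ 244 * t ^ 3) ∧
    (0 ≤ l * w * t ^ 2 ∧ l * w * t ^ 2 ≤ 1318 / 1000 * t ^ 3) ∧
    (0 ≤ w ^ 2 * t ^ 2 ∧ w ^ 2 * t ^ 2 ≤ 1 / 1000 * t ^ 3) ∧
    (0 ≤ w * t ^ 2 ∧ w * t ^ 2 ≤ 19 / 10 * t ^ 3) ∧
    (0 ≤ t ^ 2 * ((l - w) ^ 2 / 8 * q4) ∧ t ^ 2 * ((l - w) ^ 2 / 8 * q4) ≤ 446 * t ^ 3) ∧
    (0 ≤ t ^ 2 * ((l - w) / 3 * q3) ∧ t ^ 2 * ((l - w) / 3 * q3) ≤ 172 * t ^ 3) := by
  have hl0 : 0 ≤ l := by linarith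
  have ht2 : 0 < t ^ 2 := by positivity
  have ht3 : 0 < t ^ 3 := by positivity
  have hw2 : w ^ 2 ≤ 361 / 100 * t ^ 2 := by
    have h := pow_le_pow_left₀ hw0 hw 2
    have e : (19 / 10 * t) ^ 2 = 361 / 100 * t ^ 2 := by ring
    linarith
  have hs0 : 0 ≤ l - w := by linarith
  have hs1 : l - w ≤ 69315 / 100000 := by linarith
  have hs2 : (l - w) ^ 2 ≤ 4805 / 10000 := by
    have h := pow_le_pow_left₀ hs0 hs1 2
    norm_num at h ⊢
    linarith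
  refine ⟨⟨by positivity, ?_⟩, ⟨mul_nonneg (by positivity) h2.1, ?_⟩, ⟨by positivity, ?_⟩,
    ⟨by positivity, ?_⟩, ⟨by positivity, ?_⟩,
    ⟨mul_nonneg ht2.le (mul_nonneg (by positivity) h4.1), ?_⟩,
    ⟨mul_nonneg ht2.le (mul_nonneg (by positivity) h3.1), ?_⟩⟩
  · have h := mul_le_mul_of_nonneg_right hw2 ht0.le
    have e : 361 / 100 * t ^ 2 * t = 361 / 100 * t ^ 3 := by ring
    linarith
  · have a1 : (l - w) * t / 2 ≤ 69315 / 200000 * t := by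
      have := mul_le_mul_of_nonneg_right hs1 ht0.le
      linarith
    have a2 : q2 ≤ 195 * (361 / 100 * t ^ 2) := by linarith [h2.2]
    have a3 := mul_le_mul a1 a2 h2.1 (by positivity)
    have e : 69315 / 200000 * t * (195 * (361 / 100 * t ^ 2)) =
      69315 / 200000 * 195 * (361 / 100) * t ^ 3 := by ring
    linarith
  · have a1 : l * w ≤ 69315 / 100000 * (19 / 10 * t) := mul_le_mul hl2 hw hw0 (by norm_num)
    have a2 := mul_le_mul_of_nonneg_right a1 ht2.le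
    have e : 69315 / 100000 * (19 / 10 * t) * t ^ 2 = 69315 / 100000 * (19 / 10) * t ^ 3 := by ring
    linarith
  · have a1 := mul_le_mul_of_nonneg_right hw2 ht2.le
    have a2 := mul_le_mul_of_nonneg_right ht ht3.le
    have e : 361 / 100 * t ^ 2 * t ^ 2 = 361 / 100 * (t * t ^ 3) := by ring
    linarith
  · have a1 := mul_le_mul_of_nonneg_right hw ht2.le
    have e : 19 / 10 * t * t ^ 2 = 19 / 10 * t ^ 3 := by ring
    linarith
  · have a2 : q4 ≤ 3900 * (19 / 10 * t) := by linarith [h4.2]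
    have a3 : (l - w) ^ 2 / 8 * q4 ≤ 4805 / 80000 * (3900 * (19 / 10 * t)) :=
      mul_le_mul (by linarith) a2 h4.1 (by norm_num)
    have a4 := mul_le_mul_of_nonneg_left a3 ht2.le
    have e : t ^ 2 * (4805 / 80000 * (3900 * (19 / 10 * t))) =
      4805 / 80000 * 3900 * (19 / 10) * t ^ 3 := by ring
    linarith
  · have a2 : q3 ≤ 390 * (19 / 10 * t) := by linarith [h3.2]
    have a3 : (l - w) / 3 * q3 ≤ 69315 / 300000 * (390 * (19 / 10 * t)) :=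
      mul_le_mul (by linarith) a2 h3.1 (by norm_num)
    have a4 := mul_le_mul_of_nonneg_left a3 ht2.le
    have e : t ^ 2 * (69315 / 300000 * (390 * (19 / 10 * t))) =
      69315 / 300000 * 390 * (19 / 10) * t ^ 3 := by ring
    linarith

/-- the algebra, first part -/
private lemma expn_alg1 {l t w T E q1 q2 q3 q4 : ℝ} (hl1 : 69314 / 100000 ≤ l)
    (hl2 : l ≤ 69315 / 100000) (ht0 : 0 < t) (ht : t ≤ 1 / 74000) (hw0 : 0 ≤ w)
    (hw : w ≤ 19 / 10 * t) (h1 : 0 ≤ q1 ∧ q1 ≤ 9 * w ^ 3) (h2 : 0 ≤ q2 ∧ q2 ≤ 195 * w ^ 2)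
    (h3 : 0 ≤ q3 ∧ q3 ≤ 390 * w) (h4 : 0 ≤ q4 ∧ q4 ≤ 3900 * w) (hE : |E| ≤ 500 * t ^ 3)
    (e : E = 1 + T - ((1 + 2 * w + 3 * w ^ 2 + q1) - (l - w) * t / 2 * (6 + 26 * w + q2) +
      t ^ 2 * ((l - w) ^ 2 / 8 * (150 + q4) - (l - w) / 3 * (26 + q3)))) :
    ∃ R : ℝ, |R| ≤ 1110 * t ^ 3 ∧ 2 * (w - 3 / 2 * l * t) =
      T - 3 * w ^ 2 + (13 * l - 3) * (w * t) - t ^ 2 * (75 / 4 * l ^ 2 - 26 / 3 * l) + R := by
  obtain ⟨c2, c3, c4, c5, c6, c7, c8⟩ := expn_small hl1 hl2 ht0 ht hw0 hw h2 h3 h4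
  have c1 : 0 ≤ q1 ∧ q1 ≤ 62 * t ^ 3 := by
    have h := pow_le_pow_left₀ hw0 hw 3
    have e : (19 / 10 * t) ^ 3 = 6859 / 1000 * t ^ 3 := by ring
    have ht3 : 0 < t ^ 3 := by positivity
    exact ⟨h1.1, by linarith [h1.2]⟩
  have ht3 : 0 < t ^ 3 := by positivity
  obtain ⟨hE1, hE2⟩ := abs_le.1 hE
  refine ⟨-E - q1 - 13 * (w ^ 2 * t) + (l - w) * t / 2 * q2 +
      75 / 2 * (l * w * t ^ 2) - 75 / 4 * (w ^ 2 * t ^ 2) - 26 / 3 * (w * t ^ 2) -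
      t ^ 2 * ((l - w) ^ 2 / 8 * q4) + t ^ 2 * ((l - w) / 3 * q3), ?_, ?_⟩
  · rw [abs_le]
    constructor
    · linarith [c1.2, c2.2, c3.1, c4.1, c5.2, c6.2, c7.2, c8.1]
    · linarith [c1.1, c2.1, c3.2, c4.2, c5.1, c6.1, c7.1, c8.2]
  · rw [e]
    ring

/-- the algebra, second part -/
private lemma expn_alg2 {l t w T R : ℝ} (hl1 : 69314 / 100000 ≤ l)
    (hl2 : l ≤ 69315 / 100000) (ht0 : 0 < t) (ht : t ≤ 1 / 74000) (hw0 : 0 ≤ w)
    (hw : w ≤ 19 / 10 * t) (hT : 0 ≤ T ∧ T ≤ 2 / 10 ^ 8 * t ^ 2) (hR : |R| ≤ 1110 * t ^ 3)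
    (key : 2 * (w - 3 / 2 * l * t) =
      T - 3 * w ^ 2 + (13 * l - 3) * (w * t) - t ^ 2 * (75 / 4 * l ^ 2 - 26 / 3 * l) + R) :
    |w - 3 / 2 * l * t| ≤ 8 * t ^ 2 ∧
      |2 * (w - 3 / 2 * l * t) - T - t ^ 2 * (25 / 6 * l - 6 * l ^ 2)| ≤ 1200 * t ^ 3 := by
  have ht2 : 0 < t ^ 2 := by positivity
  have ht3 : 0 < t ^ 3 := by positivity
  obtain ⟨hR1, hR2⟩ := abs_le.1 hR
  have ht4 : t ^ 4 ≤ 1 / 74000 * t ^ 3 := by
    have h := mul_le_mul_of_nonneg_right ht ht3.le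
    have e : t * t ^ 3 = t ^ 4 := by ring
    linarith
  have ht32 : t ^ 3 ≤ 1 / 74000 * t ^ 2 := by
    have h := mul_le_mul_of_nonneg_right ht ht2.le
    have e : t * t ^ 2 = t ^ 3 := by ring
    linarith
  have hw2 : w ^ 2 ≤ 361 / 100 * t ^ 2 := by
    have h := pow_le_pow_left₀ hw0 hw 2
    have e : (19 / 10 * t) ^ 2 = 361 / 100 * t ^ 2 := by ring
    linarith
  have hw2' : 0 ≤ w ^ 2 := sq_nonneg w
  have c9 : 0 ≤ (13 * l - 3) * (w * t) ∧ (13 * l - 3) * (w * t) ≤ 1145 / 100 * t ^ 2 := by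
    refine ⟨mul_nonneg (by linarith) (by positivity), ?_⟩
    have a1 : w * t ≤ 19 / 10 * t ^ 2 := by
      have h := mul_le_mul_of_nonneg_right hw ht0.le
      have e : 19 / 10 * t * t = 19 / 10 * t ^ 2 := by ring
      linarith
    have a2 : (13 * l - 3) * (w * t) ≤ (602 / 100) * (19 / 10 * t ^ 2) :=
      mul_le_mul (by linarith) a1 (by positivity) (by norm_num)
    linarith
  have hl2' : l ^ 2 ≤ 4805 / 10000 ∧ 4804 / 10000 ≤ l ^ 2 := by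
    constructor <;> nlinarith
  have c10 : 0 ≤ t ^ 2 * (75 / 4 * l ^ 2 - 26 / 3 * l) ∧
      t ^ 2 * (75 / 4 * l ^ 2 - 26 / 3 * l) ≤ 31 / 10 * t ^ 2 := by
    have a1 : 0 ≤ 75 / 4 * l ^ 2 - 26 / 3 * l := by linarith [hl2'.2]
    have a2 : 75 / 4 * l ^ 2 - 26 / 3 * l ≤ 31 / 10 := by linarith [hl2'.1]
    refine ⟨mul_nonneg ht2.le a1, ?_⟩
    have := mul_le_mul_of_nonneg_left a2 ht2.le
    linarith
  obtain ⟨o, ho⟩ : ∃ o : ℝ, o = w - 3 / 2 * l * t := ⟨_, rfl⟩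
  have ho1 : |o| ≤ 8 * t ^ 2 := by
    rw [abs_le, ho]
    constructor
    · linarith [c9.1, c10.2, hT.1]
    · linarith [c9.2, c10.1, hT.2]
  have hwo : w = o + 3 / 2 * l * t := by rw [ho]; ring
  have key2 : 2 * o - T - t ^ 2 * (25 / 6 * l - 6 * l ^ 2) =
      R + (4 * l - 3) * (t * o) - 3 * o ^ 2 := by
    rw [← ho] at key
    rw [key, hwo]
    ring
  rw [← ho]
  refine ⟨ho1, ?_⟩
  rw [key2]
  have ho2 : o ^ 2 ≤ 1 / 1000 * t ^ 3 := by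
    have a2 := pow_le_pow_left₀ (abs_nonneg o) ho1 2
    rw [sq_abs] at a2
    have e : (8 * t ^ 2) ^ 2 = 64 * t ^ 4 := by ring
    linarith
  have ho3 : |(4 * l - 3) * (t * o)| ≤ 2 * t ^ 3 := by
    rw [abs_mul, abs_mul, abs_of_pos ht0]
    have a1 : |4 * l - 3| ≤ 1 / 4 := by
      rw [abs_le]
      constructor <;> linarith
    have a2 : t * |o| ≤ t * (8 * t ^ 2) := mul_le_mul_of_nonneg_left ho1 ht0.le
    calc |4 * l - 3| * (t * |o|) ≤ 1 / 4 * (t * (8 * t ^ 2)) :=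
          mul_le_mul a1 a2 (by positivity) (by norm_num)
      _ = 2 * t ^ 3 := by ring
  obtain ⟨b1, b2⟩ := abs_le.1 ho3
  have ho4 := sq_nonneg o
  rw [abs_le]
  constructor <;> linarith

/-- the sum over all `j < N` of a solution -/
private lemma expn_sum {n k m : ℕ} (hS : Sol n k m) (h58 : 5 * (k + m + 1) < 8 * n)
    (hM : 10 ^ 8 * ((k + m + 1 : ℕ) : ℝ) ^ 2 ≤ Real.exp (5 / 8 * ((m + 1 : ℕ) : ℝ))) :
    ∃ T : ℝ, 0 ≤ T ∧ T ≤ 2 / 10 ^ 8 * (1 / ((k + m + 1 : ℕ) : ℝ)) ^ 2 ∧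
      ∑ j ∈ Ico 1 (k + m + 1), (1 - (j : ℝ) / ((k + m + 1 : ℕ) : ℝ)) ^ n = 1 + T := by
  have hsum := sol_rewrite hS.2.2.2
  have hk := hS.2.1
  obtain ⟨N, hNd⟩ : ∃ N : ℕ, N = k + m + 1 := ⟨_, rfl⟩
  rw [← hNd] at hsum hM ⊢
  have hN0 : (0 : ℝ) < N := by exact_mod_cast (by omega : 0 < N)
  have hterm : ∀ j : ℕ, j < N → 0 < 1 - (j : ℝ) / N := by
    intro j hj
    have : (j : ℝ) / N < 1 := by
      rw [div_lt_one hN0]
      exact_mod_cast hj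
    linarith
  have hs58 : (5 / 8 : ℝ) ≤ (n : ℝ) / N := by
    rw [div_le_div_iff₀ (by norm_num) hN0]
    exact_mod_cast (by omega : 5 * N ≤ n * 8)
  refine ⟨∑ j ∈ Ico (m + 1 + 1) N, (1 - (j : ℝ) / N) ^ n, ?_, ?_, ?_⟩
  · apply sum_nonneg
    intro j hj
    rw [mem_Ico] at hj
    exact pow_nonneg (hterm j hj.2).le n
  · have a1 : ∑ j ∈ Ico (m + 1 + 1) N, (1 - (j : ℝ) / N) ^ n ≤
        ∑ j ∈ Ico (m + 1 + 1) (k + m + 1), Real.exp (-(5 / 8 * (j : ℝ))) := by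
      rw [← hNd]
      apply sum_le_sum
      intro j hj
      rw [mem_Ico] at hj
      have a2 := Real.add_one_le_exp (-((j : ℝ) / N))
      have a3 : (1 - (j : ℝ) / N) ^ n ≤ Real.exp (-((j : ℝ) / N)) ^ n :=
        pow_le_pow_left₀ (hterm j hj.2).le (by linarith) n
      refine a3.trans ?_
      rw [← Real.exp_nat_mul]
      apply Real.exp_le_exp.mpr
      have a4 : (0 : ℝ) ≤ (j : ℝ) := Nat.cast_nonneg _
      have a5 := mul_le_mul_of_nonneg_right hs58 a4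
      have e : (n : ℝ) * -((j : ℝ) / N) = -((n : ℝ) / N * (j : ℝ)) := by ring
      rw [e]
      linarith
    have a6 := expn_tail (m + 1) (k + m) (by omega)
    have a7 := Real.exp_pos (-(5 / 8 * ((k + m : ℕ) : ℝ)))
    have a8 : Real.exp (-(5 / 8 * ((m + 1 : ℕ) : ℝ))) ≤ 1 / 10 ^ 8 * (1 / (N : ℝ)) ^ 2 := by
      rw [Real.exp_neg, div_pow, one_pow, div_mul_div_comm, one_mul, ← one_div]
      exact one_div_le_one_div_of_le (by positivity) hM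
    linarith
  · have e1 : Icc 1 (m + 1) = Ico 1 (m + 1 + 1) := by
      ext i
      simp only [mem_Icc, mem_Ico]
      omega
    rw [e1] at hsum
    rw [← sum_Ico_consecutive _ (show 1 ≤ m + 1 + 1 by omega) (show m + 1 + 1 ≤ N by omega), hsum]

/-- the bounds of AK at `s = l - w` -/
private lemma expn_ak (h1 : AkStm) {w z0 : ℝ} (hw0 : 0 ≤ w) (hw1 : w ≤ 1 / 10)
    (hz : (1 + w + w ^ 2 / 2 + 2 / 9 * w ^ 3) / 2 ≤ z0) (hz1 : z0 < 1) (k : ℕ) (hk : 1 ≤ k) :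
    ak k (Real.log 2 - w) ≤ k.factorial * z0 / (1 - z0) ^ (k + 1) := by
  have hl := Real.log_two_gt_d9
  have hs : 0 < Real.log 2 - w := by linarith
  refine ((h1.1 k (Real.log 2 - w) hk hs).2.2).trans ?_
  have hexp : Real.exp (-(Real.log 2 - w)) ≤ z0 := by
    have e : Real.exp (-(Real.log 2 - w)) = Real.exp w / 2 := by
      have e1 : -(Real.log 2 - w) = w - Real.log 2 := by ring
      rw [e1, Real.exp_sub, Real.exp_log (by norm_num)]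
    rw [e]
    have := expn_exp_pos hw0 (by linarith : w ≤ 1)
    linarith
  exact expn_num (Real.exp_pos _).le hexp hz1 (Nat.cast_nonneg _)

/-- **Piece EXPN.** -/
theorem p_expn (h0 : Pool.Agent.Lib.MP_d0b36d_nt.LS.SolStm) (h1 : AkStm) (h2 : FfStm) :
    ExpnStm := by
  intro n k m hS hN hM
  obtain ⟨-, g58, glog, -⟩ := h0.1 n k m hS
  obtain ⟨T, hT0, hT1, hT⟩ := expn_sum hS g58 hM
  obtain ⟨N, hNd⟩ : ∃ N : ℕ, N = k + m + 1 := ⟨_, rfl⟩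
  rw [← hNd] at hN g58 glog hT1 hT hM ⊢
  have hNr : (74000 : ℝ) ≤ N := by exact_mod_cast hN
  have hN0 : (0 : ℝ) < N := by linarith
  obtain ⟨f1, f2⟩ := h2 n N hN (by omega) glog.le
  rw [hT] at f1 f2
  have hl1 := Real.log_two_gt_d9
  have hl2 := Real.log_two_lt_d9
  obtain ⟨l, hl⟩ : ∃ l : ℝ, l = Real.log 2 := ⟨_, rfl⟩
  obtain ⟨t, ht⟩ : ∃ t : ℝ, t = 1 / (N : ℝ) := ⟨_, rfl⟩
  have hs58 : (5 / 8 : ℝ) ≤ (n : ℝ) / N := by
    rw [div_le_div_iff₀ (by norm_num) hN0]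
    exact_mod_cast (by omega : 5 * N ≤ n * 8)
  obtain ⟨w, hw⟩ : ∃ w : ℝ, w = l - (n : ℝ) / N := ⟨_, rfl⟩
  have hs : (n : ℝ) / N = l - w := by rw [hw]; ring
  rw [hs] at f1 f2 hs58 glog
  rw [← ht] at f1 f2 hT1
  have e3 : ∀ c : ℝ, c / (N : ℝ) ^ 3 = c * t ^ 3 := by
    intro c
    rw [ht, div_pow, one_pow]
    ring
  rw [e3] at f1 f2
  rw [← hl] at glog hl1 hl2
  have hw0 : 0 ≤ w := by linarith
  have hw1 : w ≤ 682 / 10000 := by linarith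
  have ht0 : 0 < t := by rw [ht]; positivity
  have ht1 : t ≤ 1 / 74000 := by
    rw [ht]
    exact one_div_le_one_div_of_le (by norm_num) hNr
  have hNt : (N : ℝ) * t = 1 := by
    rw [ht]
    field_simp
  have ht2 : 0 < t ^ 2 := by positivity
  have ht3 : 0 < t ^ 3 := by positivity
  have ht32 : t ^ 3 ≤ 1 / 74000 * t ^ 2 := by
    have h := mul_le_mul_of_nonneg_right ht1 ht2.le
    have e : t * t ^ 2 = t ^ 3 := by ring
    linarith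
  have ht21 : t ^ 2 ≤ 1 / 74000 * t := by
    have h := mul_le_mul_of_nonneg_right ht1 ht0.le
    have e : t * t = t ^ 2 := by ring
    linarith
  -- the first term
  have hp : 1 / (Real.exp (l - w) - 1) = 1 / (2 * Real.exp (-w) - 1) := by
    have e : Real.exp (l - w) = 2 * Real.exp (-w) := by
      rw [sub_eq_add_neg, Real.exp_add, hl, Real.exp_log (by norm_num)]
    rw [e]
  -- step 1
  have hstep1 : w ≤ 19 / 10 * t := by
    have a2 : ak 2 (l - w) ≤ 107 / 10 := by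
      rw [hl] at *
      refine (expn_ak h1 hw0 (by linarith) (z0 := 5354 / 10000) ?_ (by norm_num) 2
        (by norm_num)).trans ?_
      · have b2 : w ^ 2 ≤ (682 / 10000) ^ 2 := pow_le_pow_left₀ hw0 hw1 2
        have b3 : w ^ 3 ≤ (682 / 10000) ^ 3 := pow_le_pow_left₀ hw0 hw1 3
        norm_num at b2 b3 ⊢
        linarith
      · norm_num [Nat.factorial]
    have a3 : ak 3 (l - w) ≤ 70 := by
      rw [hl] at *
      refine (expn_ak h1 hw0 (by linarith) (z0 := 5354 / 10000) ?_ (by norm_num) 3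
        (by norm_num)).trans ?_
      · have b2 : w ^ 2 ≤ (682 / 10000) ^ 2 := pow_le_pow_left₀ hw0 hw1 2
        have b3 : w ^ 3 ≤ (682 / 10000) ^ 3 := pow_le_pow_left₀ hw0 hw1 3
        norm_num at b2 b3 ⊢
        linarith
      · norm_num [Nat.factorial]
    have a4 : 0 ≤ ak 4 (l - w) := (h1.1 4 (l - w) (by norm_num) (by linarith)).2.1
    have a2' : 0 ≤ ak 2 (l - w) := (h1.1 2 (l - w) (by norm_num) (by linarith)).2.1
    have a3' : 0 ≤ ak 3 (l - w) := (h1.1 3 (l - w) (by norm_num) (by linarith)).2.1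
    have b1 := expn_inv1 hw0 (by linarith)
    unfold mainF at f1
    rw [hp] at f1
    obtain ⟨-, f1b⟩ := abs_le.1 f1
    obtain ⟨f1a, -⟩ := abs_le.1 f1
    have c1 : (l - w) * t / 2 * ak 2 (l - w) ≤ 371 / 100 * t := by
      have d1 : (l - w) * t / 2 ≤ 69315 / 200000 * t := by
        have := mul_le_mul_of_nonneg_right (show l - w ≤ 69315 / 100000 by linarith) ht0.le
        linarith
      have d2 := mul_le_mul d1 a2 a2' (by positivity)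
      linarith
    have c2 : t ^ 2 * ((l - w) / 3 * ak 3 (l - w)) ≤ 17 * t ^ 2 := by
      have d1 : (l - w) / 3 * ak 3 (l - w) ≤ 69315 / 300000 * 70 :=
        mul_le_mul (by linarith) a3 a3' (by norm_num)
      have d2 := mul_le_mul_of_nonneg_left d1 ht2.le
      linarith
    have c3 : 0 ≤ t ^ 2 * ((l - w) ^ 2 / 8 * ak 4 (l - w)) := by positivity
    have e4 : t ^ 2 * ((l - w) ^ 2 / 8 * ak 4 (l - w) - (l - w) / 3 * ak 3 (l - w)) =
      t ^ 2 * ((l - w) ^ 2 / 8 * ak 4 (l - w)) - t ^ 2 * ((l - w) / 3 * ak 3 (l - w)) := by ring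
    rw [e4] at f1a
    linarith
  -- step 2
  have hw2 : w ≤ 3 / 100000 := by linarith
  have hf2 := f2 (by norm_num; linarith)
  have hl0 : 0 < l := by linarith
  have hz : (1 + w + w ^ 2 / 2 + 2 / 9 * w ^ 3) / 2 ≤ 500020 / 1000000 := by
    have b2 : w ^ 2 ≤ (3 / 100000) ^ 2 := pow_le_pow_left₀ hw0 hw2 2
    have b3 : w ^ 3 ≤ (3 / 100000) ^ 3 := pow_le_pow_left₀ hw0 hw2 3
    norm_num at b2 b3 ⊢
    linarith
  have A4 : ak 4 (l - w) ≤ 385 := by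
    rw [hl]
    refine (expn_ak h1 hw0 (by linarith) hz (by norm_num) 4 (by norm_num)).trans ?_
    norm_num [Nat.factorial]
  have A5 : ak 5 (l - w) ≤ 3845 := by
    rw [hl]
    refine (expn_ak h1 hw0 (by linarith) hz (by norm_num) 5 (by norm_num)).trans ?_
    norm_num [Nat.factorial]
  have S2 : ak 2 l = 6 := by rw [hl]; exact LS.mu_sum2
  have S3 : ak 3 l = 26 := by rw [hl]; exact LS.mu_sum3
  have S4 : ak 4 l = 150 := by rw [hl]; exact LS.mu_sum4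
  have hsl : l - (l - w) = w := by ring
  obtain ⟨-, -, B2, B2'⟩ := h1.2 2 (l - w) l (by norm_num) (by linarith) (by linarith)
  obtain ⟨B3, B3', -, -⟩ := h1.2 3 (l - w) l (by norm_num) (by linarith) (by linarith)
  obtain ⟨B4, B4', -, -⟩ := h1.2 4 (l - w) l (by norm_num) (by linarith) (by linarith)
  norm_num only [hsl, S2, S3, S4] at B2 B2' B3 B3' B4 B4'
  obtain ⟨p1, p2⟩ := expn_inv2 hw0 (by linarith)
  unfold mainF at hf2
  rw [hp] at hf2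
  obtain ⟨R, hR, key⟩ := expn_alg1 (l := l) (t := t) (w := w) (T := T)
    (E := 1 + T - (1 / (2 * Real.exp (-w) - 1) - (l - w) * t / 2 * ak 2 (l - w) +
      t ^ 2 * ((l - w) ^ 2 / 8 * ak 4 (l - w) - (l - w) / 3 * ak 3 (l - w))))
    (q1 := 1 / (2 * Real.exp (-w) - 1) - 1 - 2 * w - 3 * w ^ 2)
    (q2 := ak 2 (l - w) - 6 - 26 * w) (q3 := ak 3 (l - w) - 26) (q4 := ak 4 (l - w) - 150)
    (by linarith) (by linarith) ht0 ht1 hw0 hstep1 ⟨by linarith, by linarith⟩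
    ⟨by linarith, by
      have := mul_le_mul_of_nonneg_left A4 (show 0 ≤ w ^ 2 / 2 by positivity)
      linarith⟩
    ⟨by linarith, by
      have := mul_le_mul_of_nonneg_left A4 hw0
      linarith⟩
    ⟨by linarith, by
      have := mul_le_mul_of_nonneg_left A5 hw0
      linarith⟩ hf2 (by ring)
  obtain ⟨o1, o2⟩ := expn_alg2 (by linarith) (by linarith) ht0 ht1 hw0 hstep1 ⟨hT0, hT1⟩ hR key
  -- step 4
  obtain ⟨o, ho⟩ : ∃ o : ℝ, o = w - 3 / 2 * l * t := ⟨_, rfl⟩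
  obtain ⟨D, hD⟩ : ∃ D : ℝ, D = 2 * o - T - t ^ 2 * (25 / 6 * l - 6 * l ^ 2) := ⟨_, rfl⟩
  rw [← ho] at o1 o2
  rw [← hD] at o2
  have hn : (n : ℝ) = N * (l - w) := by
    rw [← hs]
    field_simp
  have e5 : (2 * (N : ℝ) - 3) * ((2 * (N : ℝ) - 3) * Real.log 2 - 2 * n) - kap =
      2 * (N : ℝ) ^ 2 * D + 2 * (N : ℝ) ^ 2 * T - 6 * N * o := by
    unfold kap
    rw [hD, ho, hn, ← hl]
    linear_combination
      (6 * l * N - 9 * l + 25 / 3 * l * (N * t + 1) - 12 * l ^ 2 * (N * t + 1)) * hNt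
  have e6 : 5000 / (N : ℝ) = 5000 * t := by
    rw [ht]
    ring
  rw [e5, e6]
  have d1 : |2 * (N : ℝ) ^ 2 * D| ≤ 2400 * t := by
    rw [abs_mul, abs_of_nonneg (show (0 : ℝ) ≤ 2 * (N : ℝ) ^ 2 by positivity)]
    calc 2 * (N : ℝ) ^ 2 * |D| ≤ 2 * (N : ℝ) ^ 2 * (1200 * t ^ 3) :=
          mul_le_mul_of_nonneg_left o2 (by positivity)
      _ = 2400 * t * (N * t) ^ 2 := by ring
      _ = 2400 * t := by rw [hNt]; ring
  have d2 : 0 ≤ 2 * (N : ℝ) ^ 2 * T ∧ 2 * (N : ℝ) ^ 2 * T ≤ 4 / 10 ^ 8 := by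
    refine ⟨by positivity, ?_⟩
    calc 2 * (N : ℝ) ^ 2 * T ≤ 2 * (N : ℝ) ^ 2 * (2 / 10 ^ 8 * t ^ 2) :=
          mul_le_mul_of_nonneg_left hT1 (by positivity)
      _ = 4 / 10 ^ 8 * (N * t) ^ 2 := by ring
      _ = 4 / 10 ^ 8 := by rw [hNt]; ring
  have d3 : |6 * (N : ℝ) * o| ≤ 48 * t := by
    rw [abs_mul, abs_of_nonneg (show (0 : ℝ) ≤ 6 * (N : ℝ) by positivity)]
    calc 6 * (N : ℝ) * |o| ≤ 6 * (N : ℝ) * (8 * t ^ 2) :=
          mul_le_mul_of_nonneg_left o1 (by positivity)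
      _ = 48 * t * (N * t) := by ring
      _ = 48 * t := by rw [hNt]; ring
  obtain ⟨d1a, d1b⟩ := abs_le.1 d1
  obtain ⟨d3a, d3b⟩ := abs_le.1 d3
  have d4 : (4 : ℝ) / 10 ^ 8 ≤ 1 / 10 ^ 7 := by norm_num
  rw [abs_le]
  constructor
  · linarith [d2.1]
  · linarith [d2.2]

end Pool.Agent.Lib.MP_d0b36d_nt.LB
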