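import Pool.Agent.Lib.MP_d0b36d_nt.LB.Stm

/-!
MP_d0b36d_nt, hand-in MoserBound, piece FF: explicit expansion of `∑ (1 - j/N)^n`.
-/

set_option autoImplicit false

namespace Pool.Agent.Lib.MP_d0b36d_nt.LB

open Finset

private lemma ff_exp_up {v : ℝ} (hv : 0 ≤ v) : Real.exp (-v) ≤ 1 - v + v ^ 2 / 2 := by
  have h1 := Real.quadratic_le_exp_of_nonneg hv
  have h2 : 0 < Real.exp v := Real.exp_pos v
  rw [Real.exp_neg, inv_le_iff_one_le_mul₀ h2]
  have h3 : 0 ≤ 1 - v + v ^ 2 / 2 := by nlinarith [sq_nonneg (v - 1)]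
  calc (1 : ℝ) ≤ (1 - v + v ^ 2 / 2) * (1 + v + v ^ 2 / 2) := by nlinarith [sq_nonneg (v ^ 2)]
    _ ≤ (1 - v + v ^ 2 / 2) * Real.exp v := mul_le_mul_of_nonneg_left h1 h3

private lemma ff_exp_lo {v : ℝ} (hv : 0 ≤ v) :
    1 - v + v ^ 2 / 2 - v ^ 3 / 6 ≤ Real.exp (-v) := by
  let G : ℝ → ℝ := fun x => Real.exp (-x) - (1 - x + x ^ 2 / 2 - x ^ 3 / 6)
  have hder : ∀ x : ℝ, HasDerivAt G (-Real.exp (-x) + 1 - x + x ^ 2 / 2) x := by
    intro x
    have h1 : HasDerivAt (fun x : ℝ => Real.exp (-x)) (Real.exp (-x) * (-1)) x :=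
      (hasDerivAt_id x).neg.exp
    have h2 : HasDerivAt (fun x : ℝ => 1 - x + x ^ 2 / 2 - x ^ 3 / 6)
        (0 - 1 + (2 : ℕ) * x ^ (2 - 1) / 2 - (3 : ℕ) * x ^ (3 - 1) / 6) x := by
      exact ((((hasDerivAt_const x (1 : ℝ)).sub (hasDerivAt_id x)).add
        ((hasDerivAt_pow 2 x).div_const 2)).sub ((hasDerivAt_pow 3 x).div_const 6))
    have h3 := h1.sub h2
    refine h3.congr_deriv ?_
    norm_num
    ring
  have hmono : MonotoneOn G (Set.Ici 0) := by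
    apply monotoneOn_of_deriv_nonneg (convex_Ici 0)
    · exact fun x _ => (hder x).continuousAt.continuousWithinAt
    · exact fun x _ => (hder x).differentiableAt.differentiableWithinAt
    · intro x hx
      rw [interior_Ici] at hx
      rw [(hder x).deriv]
      have := ff_exp_up (le_of_lt (show (0 : ℝ) < x from hx))
      linarith
  have h := hmono (Set.mem_Ici.mpr le_rfl) (Set.mem_Ici.mpr hv) hv
  have h0 : G 0 = 0 := by simp [G]
  rw [h0] at h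
  have h4 : G v = Real.exp (-v) - (1 - v + v ^ 2 / 2 - v ^ 3 / 6) := rfl
  linarith

private lemma ff_log_lo {y : ℝ} (h0 : 0 ≤ y) (h1 : y < 1) :
    y + y ^ 2 / 2 + y ^ 3 / 3 ≤ -Real.log (1 - y) := by
  have hs := Real.hasSum_pow_div_log_of_abs_lt_one (x := y) (by rw [abs_of_nonneg h0]; exact h1)
  have h2 := sum_le_hasSum (range 3) (fun i _ => by positivity) hs
  simp only [sum_range_succ, sum_range_zero] at h2
  norm_num at h2
  linarith

private lemma ff_log_up {y : ℝ} (h0 : 0 ≤ y) (h1 : y ≤ 1 / 8) :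
    -Real.log (1 - y) ≤ y + y ^ 2 / 2 + y ^ 3 / 3 + y ^ 4 / 2 := by
  have ha : |y| = y := abs_of_nonneg h0
  have h2 := Real.abs_log_sub_add_sum_range_le (x := y) (by rw [ha]; linarith) 4
  rw [ha] at h2
  have h3 := (abs_le.mp h2).1
  simp only [sum_range_succ, sum_range_zero] at h3
  norm_num at h3
  have h4 : y ^ 5 / (1 - y) ≤ y ^ 4 / 4 := by
    rw [div_le_iff₀ (by linarith)]
    have : 0 ≤ y ^ 4 := by positivity
    nlinarith
  linarith

/-- the power as an exponential -/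
private lemma ff_pow (n : ℕ) {y : ℝ} (h1 : y < 1) :
    (1 - y) ^ n = Real.exp (-((n : ℝ) * -Real.log (1 - y))) := by
  have hp : 0 < 1 - y := by linarith
  have h : -((n : ℝ) * -Real.log (1 - y)) = n * Real.log (1 - y) := by ring
  rw [h, Real.exp_nat_mul, Real.exp_log hp]

private noncomputable def ffv (s t : ℝ) (j : ℕ) : ℝ :=
  s * ((j : ℝ) ^ 2 * t / 2 + (j : ℝ) ^ 3 * t ^ 2 / 3)

private noncomputable def ffw (s t : ℝ) (j : ℕ) : ℝ := s * (j : ℝ) ^ 4 * t ^ 3 / 2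

private lemma ffv_nonneg {s t : ℝ} (hs : 0 ≤ s) (ht : 0 ≤ t) (j : ℕ) : 0 ≤ ffv s t j := by
  unfold ffv; positivity

private lemma ffw_nonneg {s t : ℝ} (hs : 0 ≤ s) (ht : 0 ≤ t) (j : ℕ) : 0 ≤ ffw s t j := by
  unfold ffw; positivity

private lemma ff_term_up (n : ℕ) {s t : ℝ} (ht : 0 < t) (hs : s = n * t) (j : ℕ)
    (hj : (j : ℝ) * t < 1) :
    (1 - (j : ℝ) * t) ^ n ≤
      Real.exp (-(j * s)) * (1 - ffv s t j + ffv s t j ^ 2 / 2) := by
  have hs0 : 0 ≤ s := by rw [hs]; positivity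
  have hy : 0 ≤ (j : ℝ) * t := by positivity
  rw [ff_pow n hj]
  have h1 := ff_log_lo hy hj
  have h2 : (n : ℝ) * ((j : ℝ) * t + ((j : ℝ) * t) ^ 2 / 2 + ((j : ℝ) * t) ^ 3 / 3) =
      j * s + ffv s t j := by
    unfold ffv; rw [hs]; ring
  have h3 : j * s + ffv s t j ≤ (n : ℝ) * -Real.log (1 - (j : ℝ) * t) := by
    rw [← h2]; exact mul_le_mul_of_nonneg_left h1 (by positivity)
  calc Real.exp (-((n : ℝ) * -Real.log (1 - (j : ℝ) * t)))
      ≤ Real.exp (-(j * s) + -ffv s t j) := by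
        apply Real.exp_le_exp.mpr; linarith
    _ = Real.exp (-(j * s)) * Real.exp (-ffv s t j) := Real.exp_add _ _
    _ ≤ _ := mul_le_mul_of_nonneg_left (ff_exp_up (ffv_nonneg hs0 ht.le j)) (Real.exp_pos _).le

/-- the bracket of the lower bound is not positive if `v` is large -/
private lemma ff_neg {v w : ℝ} (hv : 3 ≤ v) (hw : 0 ≤ w) :
    1 - v + v ^ 2 / 2 - v ^ 3 / 6 - w ≤ 0 := by
  have : v ^ 2 / 2 - v ^ 3 / 6 = v ^ 2 * (3 - v) / 6 := by ring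
  have h2 : v ^ 2 * (3 - v) ≤ 0 := mul_nonpos_of_nonneg_of_nonpos (by positivity) (by linarith)
  linarith

private lemma ff_big {s t : ℝ} (hs : 5 / 8 ≤ s) (ht : 0 < t) (ht2 : t ≤ 1 / 74000) (j : ℕ)
    (hj : 1 / 8 ≤ (j : ℝ) * t) : 3 ≤ ffv s t j := by
  have h1 : (1 / 8 : ℝ) ^ 2 ≤ ((j : ℝ) * t) ^ 2 := pow_le_pow_left₀ (by norm_num) hj 2
  have h2 : (3 : ℝ) ≤ s * ((j : ℝ) ^ 2 * t / 2) := by
    have h3 : 6 * t ≤ s * ((j : ℝ) * t) ^ 2 := by
      calc 6 * t ≤ 6 * (1 / 74000) := by linarith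
        _ ≤ 5 / 8 * (1 / 8 : ℝ) ^ 2 := by norm_num
        _ ≤ s * ((j : ℝ) * t) ^ 2 := mul_le_mul hs h1 (by positivity) (by linarith)
    have h4 : s * ((j : ℝ) * t) ^ 2 = (s * ((j : ℝ) ^ 2 * t)) * t := by ring
    rw [h4] at h3
    have h5 := le_of_mul_le_mul_right h3 ht
    linarith
  have h6 : 0 ≤ s * ((j : ℝ) ^ 3 * t ^ 2 / 3) := by positivity
  unfold ffv
  rw [mul_add]; linarith

private lemma ff_term_lo (n : ℕ) {s t : ℝ} (ht : 0 < t) (ht2 : t ≤ 1 / 74000) (hs8 : 5 / 8 ≤ s)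
    (hs : s = n * t) (j : ℕ) (hj : (j : ℝ) * t < 1) :
    Real.exp (-(j * s)) *
      (1 - ffv s t j + ffv s t j ^ 2 / 2 - ffv s t j ^ 3 / 6 - ffw s t j) ≤
      (1 - (j : ℝ) * t) ^ n := by
  have hs0 : 0 ≤ s := by linarith
  have hy : 0 ≤ (j : ℝ) * t := by positivity
  rcases le_total ((j : ℝ) * t) (1 / 8) with h8 | h8
  · rw [ff_pow n hj]
    have h1 := ff_log_up hy h8
    have h2 : (n : ℝ) * ((j : ℝ) * t + ((j : ℝ) * t) ^ 2 / 2 + ((j : ℝ) * t) ^ 3 / 3 +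
        ((j : ℝ) * t) ^ 4 / 2) = j * s + ffv s t j + ffw s t j := by
      unfold ffv ffw; rw [hs]; ring
    have h3 : (n : ℝ) * -Real.log (1 - (j : ℝ) * t) ≤ j * s + ffv s t j + ffw s t j := by
      rw [← h2]; exact mul_le_mul_of_nonneg_left h1 (by positivity)
    have hv := ffv_nonneg hs0 ht.le j
    have hw := ffw_nonneg hs0 ht.le j
    have h5 : Real.exp (-ffv s t j) ≤ 1 := Real.exp_le_one_iff.mpr (by linarith)
    have h6 : 0 < Real.exp (-ffv s t j) := Real.exp_pos _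
    have h7 := Real.add_one_le_exp (-ffw s t j)
    have h9 := ff_exp_lo hv
    calc Real.exp (-(j * s)) *
        (1 - ffv s t j + ffv s t j ^ 2 / 2 - ffv s t j ^ 3 / 6 - ffw s t j)
        ≤ Real.exp (-(j * s)) * (Real.exp (-ffv s t j) * Real.exp (-ffw s t j)) := by
          apply mul_le_mul_of_nonneg_left _ (Real.exp_pos _).le
          have h10 : Real.exp (-ffv s t j) * (-ffw s t j + 1) ≤
              Real.exp (-ffv s t j) * Real.exp (-ffw s t j) :=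
            mul_le_mul_of_nonneg_left h7 h6.le
          have h11 : Real.exp (-ffv s t j) * ffw s t j ≤ 1 * ffw s t j :=
            mul_le_mul_of_nonneg_right h5 hw
          nlinarith
      _ = Real.exp (-(j * s) + (-ffv s t j + -ffw s t j)) := by
          rw [Real.exp_add, Real.exp_add]
      _ ≤ _ := by apply Real.exp_le_exp.mpr; linarith
  · have h1 := ff_neg (ff_big hs8 ht ht2 j h8) (ffw_nonneg hs0 ht.le j)
    have h2 : 0 ≤ (1 - (j : ℝ) * t) ^ n := pow_nonneg (by linarith) n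
    have h3 := mul_nonpos_of_nonneg_of_nonpos (Real.exp_pos (-(j * s))).le h1
    linarith

/-- the two bounds of the sum in terms of the `ak` -/
private lemma ff_sum (h : AkStm) (n N : ℕ) (s t : ℝ) (hN : 74000 ≤ N) (htN : t = 1 / N)
    (hs : s = n * t) (hs8 : 5 / 8 ≤ s) :
    (∑ j ∈ Ico 1 N, (1 - (j : ℝ) / N) ^ n) ≤
      mainF s t + s ^ 2 * t ^ 3 / 6 * ak 5 s + s ^ 2 * t ^ 4 / 18 * ak 6 s ∧
    mainF s t + s ^ 2 * t ^ 3 / 6 * ak 5 s + s ^ 2 * t ^ 4 / 18 * ak 6 s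
      - s ^ 3 * t ^ 3 / 48 * (ak 6 s + 2 * t * ak 7 s + 4 / 3 * t ^ 2 * ak 8 s +
        8 / 27 * t ^ 3 * ak 9 s) - s * t ^ 3 / 2 * ak 4 s ≤
      (∑ j ∈ Ico 1 N, (1 - (j : ℝ) / N) ^ n) := by
  have hN0 : (0 : ℝ) < N := by
    have : (74000 : ℝ) ≤ N := by exact_mod_cast hN
    linarith
  have ht : 0 < t := by rw [htN]; positivity
  have ht2 : t ≤ 1 / 74000 := by
    rw [htN]
    apply one_div_le_one_div_of_le (by norm_num)
    exact_mod_cast hN
  have hs0 : 0 < s := by linarith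
  have hz1 : Real.exp (-s) < 1 := Real.exp_lt_one_iff.mpr (by linarith)
  have hz0 : 0 < Real.exp (-s) := Real.exp_pos _
  -- the sums
  have hE : HasSum (fun j : ℕ => Real.exp (-(j * s))) (1 - Real.exp (-s))⁻¹ := by
    have := hasSum_geometric_of_lt_one hz0.le hz1
    refine this.congr_fun ?_ |> fun h => h
    intro j
    show Real.exp (-(j * s)) = Real.exp (-s) ^ j
    rw [← Real.exp_nat_mul]; congr 1; ring
  have hA : ∀ k : ℕ, 1 ≤ k →
      HasSum (fun j : ℕ => (j : ℝ) ^ k * Real.exp (-(j * s))) (ak k s) := by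
    intro k hk
    exact (h.1 k s hk hs0).1.hasSum
  have hrange : ∑ j ∈ range N, (1 - (j : ℝ) * t) ^ n =
      1 + ∑ j ∈ Ico 1 N, (1 - (j : ℝ) / N) ^ n := by
    rw [range_eq_Ico, sum_eq_sum_Ico_succ_bot (by omega : 0 < N)]
    have e1 : (1 - ((0 : ℕ) : ℝ) * t) ^ n = 1 := by simp
    rw [e1]
    congr 1
    apply sum_congr rfl
    intro j _
    rw [htN]; congr 1; ring
  have hmain : (1 - Real.exp (-s))⁻¹ = 1 + 1 / (Real.exp s - 1) := by
    have h1 : 1 < Real.exp s := Real.one_lt_exp_iff.mpr hs0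
    have h2 : Real.exp s - 1 ≠ 0 := by linarith
    rw [Real.exp_neg]
    have h3 : Real.exp s ≠ 0 := (Real.exp_pos s).ne'
    field_simp
    ring
  -- the upper sum
  have hg : HasSum (fun j : ℕ => Real.exp (-(j * s)) * (1 - ffv s t j + ffv s t j ^ 2 / 2))
      (1 + (mainF s t + s ^ 2 * t ^ 3 / 6 * ak 5 s + s ^ 2 * t ^ 4 / 18 * ak 6 s)) := by
    have h1 := ((((hE.sub ((hA 2 (by norm_num)).mul_left (s * t / 2))).sub
      ((hA 3 (by norm_num)).mul_left (s * t ^ 2 / 3))).add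
      ((hA 4 (by norm_num)).mul_left (s ^ 2 * t ^ 2 / 8))).add
      ((hA 5 (by norm_num)).mul_left (s ^ 2 * t ^ 3 / 6))).add
      ((hA 6 (by norm_num)).mul_left (s ^ 2 * t ^ 4 / 18))
    have e1 : (1 + (mainF s t + s ^ 2 * t ^ 3 / 6 * ak 5 s + s ^ 2 * t ^ 4 / 18 * ak 6 s)) =
        (1 - Real.exp (-s))⁻¹ - s * t / 2 * ak 2 s - s * t ^ 2 / 3 * ak 3 s +
          s ^ 2 * t ^ 2 / 8 * ak 4 s + s ^ 2 * t ^ 3 / 6 * ak 5 s +
          s ^ 2 * t ^ 4 / 18 * ak 6 s := by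
      rw [hmain]; unfold mainF; ring
    rw [e1]
    refine h1.congr_fun ?_ |> fun h => h
    intro j
    unfold ffv
    ring
  have hl : HasSum (fun j : ℕ => Real.exp (-(j * s)) *
      (1 - ffv s t j + ffv s t j ^ 2 / 2 - ffv s t j ^ 3 / 6 - ffw s t j))
      (1 + (mainF s t + s ^ 2 * t ^ 3 / 6 * ak 5 s + s ^ 2 * t ^ 4 / 18 * ak 6 s
        - s ^ 3 * t ^ 3 / 48 * (ak 6 s + 2 * t * ak 7 s + 4 / 3 * t ^ 2 * ak 8 s +
        8 / 27 * t ^ 3 * ak 9 s) - s * t ^ 3 / 2 * ak 4 s)) := by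
    have h1 := (hg.sub (((((hA 6 (by norm_num)).add
      ((hA 7 (by norm_num)).mul_left (2 * t))).add
      ((hA 8 (by norm_num)).mul_left (4 / 3 * t ^ 2))).add
      ((hA 9 (by norm_num)).mul_left (8 / 27 * t ^ 3))).mul_left (s ^ 3 * t ^ 3 / 48))).sub
      ((hA 4 (by norm_num)).mul_left (s * t ^ 3 / 2))
    have e1 : (1 + (mainF s t + s ^ 2 * t ^ 3 / 6 * ak 5 s + s ^ 2 * t ^ 4 / 18 * ak 6 s
        - s ^ 3 * t ^ 3 / 48 * (ak 6 s + 2 * t * ak 7 s + 4 / 3 * t ^ 2 * ak 8 s +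
        8 / 27 * t ^ 3 * ak 9 s) - s * t ^ 3 / 2 * ak 4 s)) =
        1 + (mainF s t + s ^ 2 * t ^ 3 / 6 * ak 5 s + s ^ 2 * t ^ 4 / 18 * ak 6 s)
        - s ^ 3 * t ^ 3 / 48 * (ak 6 s + 2 * t * ak 7 s + 4 / 3 * t ^ 2 * ak 8 s +
        8 / 27 * t ^ 3 * ak 9 s) - s * t ^ 3 / 2 * ak 4 s := by ring
    rw [e1]
    refine h1.congr_fun ?_ |> fun h => h
    intro j
    unfold ffv ffw
    ring
  have hjt : ∀ j ∈ range N, (j : ℝ) * t < 1 := by
    intro j hj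
    have h1 : (j : ℝ) < N := by exact_mod_cast mem_range.mp hj
    rw [htN, mul_one_div, div_lt_one hN0]; exact h1
  constructor
  · have h1 : ∑ j ∈ range N, (1 - (j : ℝ) * t) ^ n ≤
        ∑ j ∈ range N, Real.exp (-(j * s)) * (1 - ffv s t j + ffv s t j ^ 2 / 2) :=
      sum_le_sum fun j hj => ff_term_up n ht hs j (hjt j hj)
    have h2 := sum_le_hasSum (range N) (fun j _ => mul_nonneg (Real.exp_pos (-(j * s))).le
      (by nlinarith [sq_nonneg (ffv s t j - 1)] : 0 ≤ 1 - ffv s t j + ffv s t j ^ 2 / 2)) hg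
    rw [hrange] at h1
    linarith
  · have h1 : ∑ j ∈ range N, Real.exp (-(j * s)) *
        (1 - ffv s t j + ffv s t j ^ 2 / 2 - ffv s t j ^ 3 / 6 - ffw s t j) ≤
        ∑ j ∈ range N, (1 - (j : ℝ) * t) ^ n :=
      sum_le_sum fun j hj => ff_term_lo n ht ht2 hs8 hs j (hjt j hj)
    have h2 := sum_le_hasSum (range N) (fun j hj => by
      have hjN : N ≤ j := by simpa using hj
      have hj8 : 1 / 8 ≤ (j : ℝ) * t := by
        have h3 : (N : ℝ) ≤ j := by exact_mod_cast hjN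
        rw [htN, mul_one_div, le_div_iff₀ hN0]
        linarith
      have h4 := ff_neg (ff_big hs8 ht ht2 j hj8) (ffw_nonneg hs0.le ht.le j)
      have h5 := mul_nonpos_of_nonneg_of_nonpos (Real.exp_pos (-(j * s))).le h4
      show 0 ≤ -(Real.exp (-(j * s)) *
        (1 - ffv s t j + ffv s t j ^ 2 / 2 - ffv s t j ^ 3 / 6 - ffw s t j))
      linarith) hl.neg
    rw [sum_neg_distrib] at h2
    rw [hrange] at h1
    linarith

/-- `ak` is bounded in terms of `R = 1/(1-z)` -/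
private lemma ff_ak (h : AkStm) {s R : ℝ} (hs : 0 < s) (hR : 1 < R)
    (hz : Real.exp (-s) ≤ 1 - 1 / R) (k : ℕ) (hk : 1 ≤ k) :
    0 ≤ ak k s ∧ ak k s ≤ k.factorial * ((R - 1) * R ^ k) := by
  obtain ⟨_, h0, h1⟩ := h.1 k s hk hs
  refine ⟨h0, h1.trans ?_⟩
  have hR0 : 0 < R := by linarith
  have hz0 := Real.exp_pos (-s)
  have hd : 1 / R ≤ 1 - Real.exp (-s) := by linarith
  have hd0 : 0 < 1 / R := by positivity
  have h2 : (1 / R) ^ (k + 1) ≤ (1 - Real.exp (-s)) ^ (k + 1) := pow_le_pow_left₀ hd0.le hd _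
  calc (k.factorial : ℝ) * Real.exp (-s) / (1 - Real.exp (-s)) ^ (k + 1)
      ≤ (k.factorial : ℝ) * (1 - 1 / R) / (1 / R) ^ (k + 1) := by
        apply div_le_div₀ _ _ (by positivity) h2
        · exact mul_nonneg (by positivity) (by linarith)
        · exact mul_le_mul_of_nonneg_left hz (by positivity)
    _ = k.factorial * ((R - 1) * R ^ k) := by
        have e1 : (1 - 1 / R : ℝ) = (R - 1) / R := by field_simp
        rw [e1, one_div, inv_pow, div_inv_eq_mul, pow_succ]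
        field_simp

private lemma ff_fin {s t : ℝ} {S M a4 a5 a6 a7 a8 a9 C b4 b5 b6 b7 b8 b9 : ℝ}
    (hs : 0 ≤ s) (hs2 : s ≤ 0.69315) (ht : 0 ≤ t) (ht2 : t ≤ 1 / 74000)
    (p4 : 0 ≤ a4) (p5 : 0 ≤ a5) (p6 : 0 ≤ a6) (p7 : 0 ≤ a7) (p8 : 0 ≤ a8) (p9 : 0 ≤ a9)
    (q4 : a4 ≤ b4) (q5 : a5 ≤ b5) (q6 : a6 ≤ b6) (q7 : a7 ≤ b7) (q8 : a8 ≤ b8) (q9 : a9 ≤ b9)
    (c1 : 0.69315 ^ 2 / 6 * b5 + 0.69315 ^ 2 * (1 / 74000) / 18 * b6 ≤ C)
    (c2 : 0.69315 ^ 3 / 48 * (b6 + 2 * (1 / 74000) * b7 + 4 / 3 * (1 / 74000) ^ 2 * b8 +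
      8 / 27 * (1 / 74000) ^ 3 * b9) + 0.69315 / 2 * b4 ≤ C)
    (hu : S ≤ M + s ^ 2 * t ^ 3 / 6 * a5 + s ^ 2 * t ^ 4 / 18 * a6)
    (hl : M + s ^ 2 * t ^ 3 / 6 * a5 + s ^ 2 * t ^ 4 / 18 * a6
      - s ^ 3 * t ^ 3 / 48 * (a6 + 2 * t * a7 + 4 / 3 * t ^ 2 * a8 +
        8 / 27 * t ^ 3 * a9) - s * t ^ 3 / 2 * a4 ≤ S) :
    |S - M| ≤ C * t ^ 3 := by
  have ht3 : 0 ≤ t ^ 3 := by positivity
  have e1 : s ^ 2 / 6 * a5 + s ^ 2 * t / 18 * a6 ≤ C := by
    refine le_trans ?_ c1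
    gcongr
  have e2 : s ^ 3 / 48 * (a6 + 2 * t * a7 + 4 / 3 * t ^ 2 * a8 + 8 / 27 * t ^ 3 * a9) +
      s / 2 * a4 ≤ C := by
    refine le_trans ?_ c2
    gcongr
  have f1 := mul_le_mul_of_nonneg_right e1 ht3
  have f2 := mul_le_mul_of_nonneg_right e2 ht3
  have g1 : 0 ≤ s ^ 2 * t ^ 3 / 6 * a5 := by positivity
  have g2 : 0 ≤ s ^ 2 * t ^ 4 / 18 * a6 := by positivity
  rw [abs_le]
  constructor
  · nlinarith
  · nlinarith

theorem p_ff (h : AkStm) : FfStm := by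
  intro n N hN hn hlog
  have hN0 : (0 : ℝ) < N := by
    have : (74000 : ℝ) ≤ N := by exact_mod_cast hN
    linarith
  have hs8 : (5 / 8 : ℝ) ≤ (n : ℝ) / N := by
    rw [div_le_div_iff₀ (by norm_num) hN0]
    have : (5 : ℝ) * N ≤ 8 * n := by exact_mod_cast hn
    linarith
  have ht : (0 : ℝ) ≤ 1 / N := by positivity
  have ht2 : (1 : ℝ) / N ≤ 1 / 74000 := by
    apply one_div_le_one_div_of_le (by norm_num)
    exact_mod_cast hN
  have hs : (n : ℝ) / N = n * (1 / N) := by ring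
  have hs0 : (0 : ℝ) < (n : ℝ) / N := by linarith
  have hs2 : (n : ℝ) / N ≤ 0.69315 := by
    have := Real.log_two_lt_d9
    refine hlog.trans (this.le.trans (by norm_num))
  obtain ⟨hu, hl⟩ := ff_sum h n N ((n : ℝ) / N) (1 / N) hN rfl hs hs8
  -- the bound of `e^(-s)` from a lower bound of `e^s`
  have hexp : ∀ c x R : ℝ, 0 ≤ c → c ≤ (n : ℝ) / N → 0 < x → x ≤ ∑ i ∈ range 5, c ^ i / i.factorial →
      1 / x ≤ 1 - 1 / R → Real.exp (-((n : ℝ) / N)) ≤ 1 - 1 / R := by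
    intro c x R hc hcs hx hxs hxR
    refine le_trans ?_ hxR
    rw [Real.exp_neg, ← one_div]
    apply one_div_le_one_div_of_le hx
    exact hxs.trans ((Real.sum_le_exp_of_nonneg hc 5).trans (Real.exp_le_exp.mpr hcs))
  have hc : (1000 : ℝ) / (N : ℝ) ^ 3 = 1000 * (1 / N) ^ 3 := by ring
  have hc2 : (500 : ℝ) / (N : ℝ) ^ 3 = 500 * (1 / N) ^ 3 := by ring
  constructor
  · have hz := hexp (5 / 8) 1.865 2.16 (by norm_num) hs8 (by norm_num)
      (by simp only [sum_range_succ, sum_range_zero, Nat.factorial]; norm_num) (by norm_num)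
    have A := fun k hk => ff_ak h hs0 (by norm_num : (1 : ℝ) < 2.16) hz k hk
    rw [hc]
    refine ff_fin hs0.le hs2 ht ht2 (A 4 (by norm_num)).1 (A 5 (by norm_num)).1
      (A 6 (by norm_num)).1 (A 7 (by norm_num)).1 (A 8 (by norm_num)).1 (A 9 (by norm_num)).1
      (A 4 (by norm_num)).2 (A 5 (by norm_num)).2
      (A 6 (by norm_num)).2 (A 7 (by norm_num)).2 (A 8 (by norm_num)).2 (A 9 (by norm_num)).2
      ?_ ?_ hu hl
    · simp only [Nat.factorial]; norm_num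
    · simp only [Nat.factorial]; norm_num
  · intro hs9
    have hz := hexp 0.6931 1.997 2.01 (by norm_num) hs9 (by norm_num)
      (by simp only [sum_range_succ, sum_range_zero, Nat.factorial]; norm_num) (by norm_num)
    have A := fun k hk => ff_ak h hs0 (by norm_num : (1 : ℝ) < 2.01) hz k hk
    rw [hc2]
    refine ff_fin hs0.le hs2 ht ht2 (A 4 (by norm_num)).1 (A 5 (by norm_num)).1
      (A 6 (by norm_num)).1 (A 7 (by norm_num)).1 (A 8 (by norm_num)).1 (A 9 (by norm_num)).1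
      (A 4 (by norm_num)).2 (A 5 (by norm_num)).2
      (A 6 (by norm_num)).2 (A 7 (by norm_num)).2 (A 8 (by norm_num)).2 (A 9 (by norm_num)).2
      ?_ ?_ hu hl
    · simp only [Nat.factorial]; norm_num
    · simp only [Nat.factorial]; norm_num

end Pool.Agent.Lib.MP_d0b36d_nt.LB
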