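import Pool.Agent.Lib.MP_d0b36d_nt.LB.Stm

/-!
MP_d0b36d_nt, hand-in MoserBound, piece LG: a Machin type formula for the logarithm of two,
evaluated with nested floors.
-/

set_option autoImplicit false

namespace Pool.Agent.Lib.MP_d0b36d_nt.LB

open Finset

theorem lg_ath (y x N : ℕ) : ∀ f k s : ℕ, ath y f k (N / (x * y ^ k)) s =
    s + ∑ j ∈ range f, N / (x * y ^ (k + j) * (2 * (k + j) + 1)) := by
  intro f
  induction f with
  | zero => intro k s; simp [ath]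
  | succ f ih =>
    intro k s
    have e1 : N / (x * y ^ k) / y = N / (x * y ^ (k + 1)) := by
      rw [Nat.div_div_eq_div_mul, pow_succ, mul_assoc]
    have e2 : N / (x * y ^ k) / (2 * k + 1) = N / (x * y ^ k * (2 * k + 1)) := by
      rw [Nat.div_div_eq_div_mul]
    rw [ath, e1, ih (k + 1), e2, Finset.sum_range_succ']
    have e3 : ∀ j : ℕ, k + 1 + j = k + (j + 1) := fun j => by ring
    simp only [e3, Nat.add_zero]
    ring

theorem lg_ath0 (y x N f : ℕ) : ath y f 0 (N / x) 0 =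
    ∑ j ∈ range f, N / (x * y ^ j * (2 * j + 1)) := by
  have h := lg_ath y x N f 0 0
  simpa using h

/-- the bound for one arctangent -/
theorem lg_one (x y W f : ℕ) (hx : 26 ≤ x) (hy : y = x * x) (hW : 2 ^ W ≤ 676 ^ f) :
    0 ≤ (Real.log (1 + 1 / (x : ℝ)) - Real.log (1 - 1 / (x : ℝ))) / 2 * 2 ^ W -
        (ath y f 0 (2 ^ W / x) 0 : ℝ) ∧
      (Real.log (1 + 1 / (x : ℝ)) - Real.log (1 - 1 / (x : ℝ))) / 2 * 2 ^ W -
        (ath y f 0 (2 ^ W / x) 0 : ℝ) ≤ (f : ℝ) + 1 := by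
  have hxr : (26 : ℝ) ≤ (x : ℝ) := by exact_mod_cast hx
  have hx0 : (0 : ℝ) < (x : ℝ) := by linarith
  have hyr : (y : ℝ) = (x : ℝ) * x := by rw [hy]; push_cast; ring
  have hy1 : (676 : ℝ) ≤ (y : ℝ) := by rw [hyr]; nlinarith
  have hy0 : (0 : ℝ) < (y : ℝ) := by linarith
  have habs : |1 / (x : ℝ)| < 1 := by
    rw [abs_of_pos (by positivity), div_lt_one hx0]; linarith
  have hs := Real.hasSum_log_sub_log_of_abs_lt_one habs
  set L : ℝ := Real.log (1 + 1 / (x : ℝ)) - Real.log (1 - 1 / (x : ℝ)) with hL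
  set g : ℕ → ℝ := fun k => 2 ^ W / ((x : ℝ) * (y : ℝ) ^ k * (2 * (k : ℝ) + 1)) with hg
  have hsum : HasSum g (L / 2 * 2 ^ W) := by
    have h1 := hs.mul_left ((2 : ℝ) ^ W / 2)
    have e : (fun k : ℕ => (2 : ℝ) ^ W / 2 * (2 * (1 / (2 * (k : ℝ) + 1)) *
        (1 / (x : ℝ)) ^ (2 * k + 1))) = g := by
      funext k
      have hk : (0 : ℝ) < 2 * (k : ℝ) + 1 := by positivity
      simp only [hg]
      rw [hyr, one_div_pow, pow_succ, pow_mul, ← pow_two]
      field_simp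
    rw [e] at h1
    have e2 : (2 : ℝ) ^ W / 2 * L = L / 2 * 2 ^ W := by ring
    rwa [e2] at h1
  have hgs : Summable g := hsum.summable
  have hsplit : L / 2 * 2 ^ W = ∑ k ∈ range f, g k + ∑' k, g (k + f) := by
    rw [hgs.sum_add_tsum_nat_add f, hsum.tsum_eq]
  have hg0 : ∀ k, 0 ≤ g k := by
    intro k; simp only [hg]; positivity
  have htail0 : 0 ≤ ∑' k, g (k + f) := tsum_nonneg (fun k => hg0 _)
  have hWr : (2 : ℝ) ^ W ≤ (y : ℝ) ^ f := by
    have h1 : (2 : ℝ) ^ W ≤ (676 : ℝ) ^ f := by exact_mod_cast hW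
    exact h1.trans (pow_le_pow_left₀ (by norm_num) hy1 f)
  have hyi : (1 : ℝ) / y ≤ 1 / 676 := by
    apply one_div_le_one_div_of_le (by norm_num) hy1
  have hyi0 : (0 : ℝ) ≤ 1 / y := by positivity
  have hgeo : HasSum (fun k : ℕ => (1 / 26 : ℝ) * (1 / 676 : ℝ) ^ k)
      ((1 / 26 : ℝ) * (1 - 1 / 676 : ℝ)⁻¹) :=
    (hasSum_geometric_of_lt_one (by norm_num) (by norm_num)).mul_left _
  have htail1 : ∑' k, g (k + f) ≤ 1 := by
    have hle : ∀ k, g (k + f) ≤ (1 / 26 : ℝ) * (1 / 676 : ℝ) ^ k := by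
      intro k
      simp only [hg]
      have hden : (x : ℝ) * (y : ℝ) ^ (k + f) ≤
          (x : ℝ) * (y : ℝ) ^ (k + f) * (2 * ((k + f : ℕ) : ℝ) + 1) := by
        have h2 : (1 : ℝ) ≤ 2 * ((k + f : ℕ) : ℝ) + 1 := by
          have : (0 : ℝ) ≤ ((k + f : ℕ) : ℝ) := by positivity
          linarith
        exact le_mul_of_one_le_right (by positivity) h2
      calc (2 : ℝ) ^ W / ((x : ℝ) * (y : ℝ) ^ (k + f) * (2 * ((k + f : ℕ) : ℝ) + 1))
          ≤ (y : ℝ) ^ f / ((x : ℝ) * (y : ℝ) ^ (k + f)) :=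
            div_le_div₀ (by positivity) hWr (by positivity) hden
        _ = (1 / x) * (1 / y) ^ k := by
            rw [pow_add, one_div_pow]
            field_simp
        _ ≤ (1 / 26) * (1 / 676) ^ k := by
            apply mul_le_mul
            · exact one_div_le_one_div_of_le (by norm_num) hxr
            · exact pow_le_pow_left₀ hyi0 hyi k
            · positivity
            · norm_num
    have h1 : ∑' k, g (k + f) ≤ (1 / 26 : ℝ) * (1 - 1 / 676 : ℝ)⁻¹ := by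
      rw [← hgeo.tsum_eq]
      exact Summable.tsum_le_tsum hle ((summable_nat_add_iff f).2 hgs) hgeo.summable
    refine h1.trans ?_
    norm_num
  have hfl : ∀ k, ((2 ^ W / (x * y ^ k * (2 * k + 1)) : ℕ) : ℝ) ≤ g k ∧
      g k ≤ ((2 ^ W / (x * y ^ k * (2 * k + 1)) : ℕ) : ℝ) + 1 := by
    intro k
    have hd : 0 < x * y ^ k * (2 * k + 1) := by
      have : 0 < x := by omega
      have hyp : 0 < y := by rw [hy]; positivity
      positivity
    have hc : g k = ((2 ^ W : ℕ) : ℝ) / ((x * y ^ k * (2 * k + 1) : ℕ) : ℝ) := by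
      simp only [hg]; push_cast; ring
    constructor
    · rw [hc]; exact Nat.cast_div_le
    · rw [hc]
      exact (Nat.lt_floor_add_one _).le.trans (by rw [Nat.floor_div_eq_div])
  have hath : (ath y f 0 (2 ^ W / x) 0 : ℝ) =
      ∑ k ∈ range f, ((2 ^ W / (x * y ^ k * (2 * k + 1)) : ℕ) : ℝ) := by
    rw [lg_ath0]; push_cast; rfl
  have h1 : ∑ k ∈ range f, ((2 ^ W / (x * y ^ k * (2 * k + 1)) : ℕ) : ℝ) ≤ ∑ k ∈ range f, g k :=
    Finset.sum_le_sum (fun k _ => (hfl k).1)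
  have h2 : ∑ k ∈ range f, g k ≤
      ∑ k ∈ range f, ((2 ^ W / (x * y ^ k * (2 * k + 1)) : ℕ) : ℝ) + f := by
    have h3 := Finset.sum_le_sum (s := range f) (fun k _ => (hfl k).2)
    rw [Finset.sum_add_distrib] at h3
    simpa using h3
  rw [hsplit, hath]
  constructor
  · linarith
  · linarith

theorem lg_log (x : ℕ) (hx : 26 ≤ x) :
    Real.log (1 + 1 / (x : ℝ)) - Real.log (1 - 1 / (x : ℝ)) =
      Real.log ((x : ℝ) + 1) - Real.log ((x : ℝ) - 1) := by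
  have hxr : (26 : ℝ) ≤ (x : ℝ) := by exact_mod_cast hx
  have hx0 : (x : ℝ) ≠ 0 := by linarith
  have e1 : 1 + 1 / (x : ℝ) = ((x : ℝ) + 1) / x := by field_simp
  have e2 : 1 - 1 / (x : ℝ) = ((x : ℝ) - 1) / x := by field_simp
  rw [e1, e2, Real.log_div (by linarith) hx0, Real.log_div (by linarith) hx0]
  ring

theorem lg_machin : Real.log 2 =
    9 * (Real.log (1 + 1 / ((26 : ℕ) : ℝ)) - Real.log (1 - 1 / ((26 : ℕ) : ℝ))) +
    4 * (Real.log (1 + 1 / ((8749 : ℕ) : ℝ)) - Real.log (1 - 1 / ((8749 : ℕ) : ℝ))) -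
    (Real.log (1 + 1 / ((4801 : ℕ) : ℝ)) - Real.log (1 - 1 / ((4801 : ℕ) : ℝ))) := by
  rw [lg_log 26 (by norm_num), lg_log 8749 (by norm_num), lg_log 4801 (by norm_num)]
  have a1 : Real.log (((26 : ℕ) : ℝ) + 1) = 3 * Real.log 3 := by
    rw [show (((26 : ℕ) : ℝ) + 1) = 3 ^ 3 by norm_num, Real.log_pow]; norm_num
  have a2 : Real.log (((26 : ℕ) : ℝ) - 1) = 2 * Real.log 5 := by
    rw [show (((26 : ℕ) : ℝ) - 1) = 5 ^ 2 by norm_num, Real.log_pow]; norm_num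
  have a3 : Real.log (((8749 : ℕ) : ℝ) + 1) = Real.log 2 + 4 * Real.log 5 + Real.log 7 := by
    rw [show (((8749 : ℕ) : ℝ) + 1) = 2 * 5 ^ 4 * 7 by norm_num,
      Real.log_mul (by norm_num) (by norm_num), Real.log_mul (by norm_num) (by norm_num),
      Real.log_pow]; norm_num
  have a4 : Real.log (((8749 : ℕ) : ℝ) - 1) = 2 * Real.log 2 + 7 * Real.log 3 := by
    rw [show (((8749 : ℕ) : ℝ) - 1) = 2 ^ 2 * 3 ^ 7 by norm_num,
      Real.log_mul (by norm_num) (by norm_num), Real.log_pow, Real.log_pow]; norm_num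
  have a5 : Real.log (((4801 : ℕ) : ℝ) + 1) = Real.log 2 + 4 * Real.log 7 := by
    rw [show (((4801 : ℕ) : ℝ) + 1) = 2 * 7 ^ 4 by norm_num,
      Real.log_mul (by norm_num) (by norm_num), Real.log_pow]; norm_num
  have a6 : Real.log (((4801 : ℕ) : ℝ) - 1) = 6 * Real.log 2 + Real.log 3 + 2 * Real.log 5 := by
    rw [show (((4801 : ℕ) : ℝ) - 1) = 2 ^ 6 * 3 * 5 ^ 2 by norm_num,
      Real.log_mul (by norm_num) (by norm_num), Real.log_mul (by norm_num) (by norm_num),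
      Real.log_pow, Real.log_pow]; norm_num
  rw [a1, a2, a3, a4, a5, a6]
  ring

theorem p_lg : LgStm := by
  intro W f hW hf
  obtain ⟨h1, h1'⟩ := lg_one 26 676 W f (by norm_num) (by norm_num) hW
  obtain ⟨h2, h2'⟩ := lg_one 8749 76545001 W f (by norm_num) (by norm_num) hW
  obtain ⟨h3, h3'⟩ := lg_one 4801 23049601 W f (by norm_num) (by norm_num) hW
  have hm := lg_machin
  set L1 := Real.log (1 + 1 / ((26 : ℕ) : ℝ)) - Real.log (1 - 1 / ((26 : ℕ) : ℝ)) with hL1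
  set L2 := Real.log (1 + 1 / ((8749 : ℕ) : ℝ)) - Real.log (1 - 1 / ((8749 : ℕ) : ℝ)) with hL2
  set L3 := Real.log (1 + 1 / ((4801 : ℕ) : ℝ)) - Real.log (1 - 1 / ((4801 : ℕ) : ℝ)) with hL3
  have hfr : 1000 * ((f : ℝ) + 1) ≤ 2 ^ W := by exact_mod_cast hf
  -- lower bound of L1, upper bound of L3
  have hL1l : (1 : ℝ) / 20 ≤ L1 := by
    have e1 : Real.log (1 - 1 / ((26 : ℕ) : ℝ)) ≤ -(1 / 26) := by
      have := Real.log_le_sub_one_of_pos (x := 1 - 1 / ((26 : ℕ) : ℝ)) (by norm_num)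
      push_cast at this ⊢
      linarith
    have e2 : (1 : ℝ) / 27 ≤ Real.log (1 + 1 / ((26 : ℕ) : ℝ)) := by
      have := Real.one_sub_inv_le_log_of_pos (x := 1 + 1 / ((26 : ℕ) : ℝ)) (by norm_num)
      refine le_trans ?_ this
      norm_num
    rw [hL1]
    linarith
  have hL3u : L3 ≤ 1 / 1000 := by
    have e1 : Real.log (1 + 1 / ((4801 : ℕ) : ℝ)) ≤ 1 / 4801 := by
      have := Real.log_le_sub_one_of_pos (x := 1 + 1 / ((4801 : ℕ) : ℝ)) (by norm_num)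
      push_cast at this ⊢
      linarith
    have e2 : -(1 : ℝ) / 4800 ≤ Real.log (1 - 1 / ((4801 : ℕ) : ℝ)) := by
      have := Real.one_sub_inv_le_log_of_pos (x := 1 - 1 / ((4801 : ℕ) : ℝ)) (by norm_num)
      refine le_trans ?_ this
      norm_num
    rw [hL3]
    linarith
  have hpow : (0 : ℝ) < 2 ^ W := by positivity
  have hA : 2 * ath 23049601 f 0 (2 ^ W / 4801) 0 ≤
      18 * ath 676 f 0 (2 ^ W / 26) 0 + 8 * ath 76545001 f 0 (2 ^ W / 8749) 0 := by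
    have hr : (2 : ℝ) * (ath 23049601 f 0 (2 ^ W / 4801) 0 : ℝ) ≤
        18 * (ath 676 f 0 (2 ^ W / 26) 0 : ℝ) + 8 * (ath 76545001 f 0 (2 ^ W / 8749) 0 : ℝ) := by
      have q1 : (1 : ℝ) / 20 / 2 * 2 ^ W ≤ L1 / 2 * 2 ^ W := by
        apply mul_le_mul_of_nonneg_right _ hpow.le; linarith
      have q3 : L3 / 2 * 2 ^ W ≤ (1 : ℝ) / 1000 / 2 * 2 ^ W := by
        apply mul_le_mul_of_nonneg_right _ hpow.le; linarith
      have q2 : (0 : ℝ) ≤ (ath 76545001 f 0 (2 ^ W / 8749) 0 : ℝ) := by positivity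
      nlinarith
    exact_mod_cast hr
  have hlg : (lg W f : ℝ) = 18 * (ath 676 f 0 (2 ^ W / 26) 0 : ℝ) +
      8 * (ath 76545001 f 0 (2 ^ W / 8749) 0 : ℝ) - 2 * (ath 23049601 f 0 (2 ^ W / 4801) 0 : ℝ) := by
    rw [lg, Nat.cast_sub hA]
    push_cast
    ring
  have hf0 : (0 : ℝ) ≤ (f : ℝ) := by positivity
  rw [hlg, hm, abs_le]
  constructor
  · nlinarith
  · nlinarith

end Pool.Agent.Lib.MP_d0b36d_nt.LB
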