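import Mathlib
import Pool.Agent.Lib.MP_d0b36d_nt.LB.Stm

/-!
MP_d0b36d_nt, hand-in MoserBound: piece MSK.
-/

set_option autoImplicit false

namespace Pool.Agent.Lib.MP_d0b36d_nt.LB

open Pool.Agent.Lib.MP_d0b36d_nt.LS (Sol)

private theorem msk_lt (R w i : ℕ) (hw : 1 ≤ w) (h : i < R) : i < w * (R / w + 1) := by
  have h1 : R < w * (R / w) + w := by
    have h2 := Nat.div_add_mod R w
    have h3 := Nat.mod_lt R hw
    omega
  calc i < R := h
    _ < w * (R / w) + w := h1
    _ = w * (R / w + 1) := by ring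

private theorem msk_bit (K p j d : ℕ) (hd : d < p) :
    (Nat.shiftRight K j % 2 ^ p).testBit d = K.testBit (j + d) := by
  have h1 : Nat.shiftRight K j = K >>> j := rfl
  rw [h1, Nat.testBit_mod_two_pow, Nat.testBit_shiftRight]
  simp [hd]

theorem p_msk (h1 : OnesStm) (h2 : ZzStm) : MskStm := by
  intro R p K hp h3 hK n k m hs he hR
  unfold msk
  by_cases hr : n % (p - 1) = 0
  · have hb : Nat.beq (n % (p - 1)) 0 = true := by rw [hr]; rfl
    rw [hb]
    simp only [cond_true]
    obtain ⟨hz1, hz2⟩ := h2 p hp h3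
    have hpp : 1 ≤ p * p := Nat.mul_pos hp.pos hp.pos
    have ho := (h1 (p * p) (R / (p * p) + 1) hpp).2 (zmask p) (m + 1) hz1
      (msk_lt R (p * p) (m + 1) hpp hR)
    rw [ho]
    exact hz2 n k m hs hr
  · have hb : Nat.beq (n % (p - 1)) 0 = false := by
      cases hx : Nat.beq (n % (p - 1)) 0 with
      | false => rfl
      | true => exact absurd (Nat.eq_of_beq_eq_true hx) hr
    rw [hb]
    simp only [cond_false]
    have hp1 : 1 ≤ p := hp.pos
    have hX : Nat.xor (2 ^ p - 1) (Nat.shiftRight K (p * (n % (p - 1) / 2)) % 2 ^ p) < 2 ^ p := by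
      have ha : 2 ^ p - 1 < 2 ^ p := by
        have : 0 < 2 ^ p := by positivity
        omega
      exact Nat.xor_lt_two_pow ha (Nat.mod_lt _ (by positivity))
    have ho := (h1 p (R / p + 1) hp1).2 _ (m + 1) hX (msk_lt R p (m + 1) hp1 hR)
    rw [ho]
    have hd : (m + 1) % p < p := Nat.mod_lt _ hp1
    have hx : Nat.xor (2 ^ p - 1) (Nat.shiftRight K (p * (n % (p - 1) / 2)) % 2 ^ p) =
      (2 ^ p - 1) ^^^ (Nat.shiftRight K (p * (n % (p - 1) / 2)) % 2 ^ p) := rfl
    rw [hx, Nat.testBit_xor, msk_bit K p _ _ hd, Nat.testBit_two_pow_sub_one]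
    have hkf : K.testBit (p * (n % (p - 1) / 2) + (m + 1) % p) = false := by
      cases hv : K.testBit (p * (n % (p - 1) / 2) + (m + 1) % p) with
      | false => rfl
      | true =>
        exfalso
        have hodd : Odd p := hp.odd_of_ne_two (by omega)
        have hev : 2 ∣ p - 1 := by
          obtain ⟨a, ha⟩ := hodd
          exact ⟨a, by omega⟩
        have h5 : n % (p - 1) % 2 = 0 := by
          rw [Nat.mod_mod_of_dvd n hev]
          exact Nat.even_iff.mp he
        have h6 : n % (p - 1) < p - 1 := Nat.mod_lt _ (by omega)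
        exact hK (n % (p - 1)) ((m + 1) % p) (Nat.pos_of_ne_zero hr) h6 h5 hd hv n k m hs rfl rfl
    rw [hkf]
    simp [hd]

end Pool.Agent.Lib.MP_d0b36d_nt.LB
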