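import Mathlib
import Pool.Agent.Lib.MP_d0b36d_nt.LB.Stm

/-!
MP_d0b36d_nt, hand-in MoserBound: piece NZ (the test for a field equal to `c`).
-/

set_option autoImplicit false

namespace Pool.Agent.Lib.MP_d0b36d_nt.LB

private theorem nz_xor (w a b u v : ℕ) (hu : u < 2 ^ w) (hv : v < 2 ^ w) :
    (u + 2 ^ w * a) ^^^ (v + 2 ^ w * b) = (u ^^^ v) + 2 ^ w * (a ^^^ b) := by
  rw [add_comm u, add_comm v, add_comm (u ^^^ v)]
  apply Nat.eq_of_testBit_eq
  intro j
  rw [Nat.testBit_xor, Nat.testBit_two_pow_mul_add _ hu, Nat.testBit_two_pow_mul_add _ hv,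
    Nat.testBit_two_pow_mul_add _ (Nat.xor_lt_two_pow hu hv)]
  split_ifs
  · rw [Nat.testBit_xor]
  · rw [Nat.testBit_xor]

private theorem nz_and (w a b u v : ℕ) (hu : u < 2 ^ w) (hv : v < 2 ^ w) :
    (u + 2 ^ w * a) &&& (v + 2 ^ w * b) = (u &&& v) + 2 ^ w * (a &&& b) := by
  rw [add_comm u, add_comm v, add_comm (u &&& v)]
  apply Nat.eq_of_testBit_eq
  intro j
  rw [Nat.testBit_and, Nat.testBit_two_pow_mul_add _ hu, Nat.testBit_two_pow_mul_add _ hv,
    Nat.testBit_two_pow_mul_add _ (Nat.and_lt_two_pow _ hv)]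
  split_ifs
  · rw [Nat.testBit_and]
  · rw [Nat.testBit_and]

private theorem nz_field (v y c : ℕ) (hy : y < 2 ^ v) (hc : c < 2 ^ v) :
    ((y ^^^ c) + (2 ^ v - 1)) &&& 2 ^ v = if y = c then 0 else 2 ^ v := by
  have hx : y ^^^ c < 2 ^ v := Nat.xor_lt_two_pow hy hc
  have hp : 0 < 2 ^ v := Nat.two_pow_pos v
  split_ifs with h
  · subst h
    rw [Nat.xor_self, Nat.zero_add]
    apply Nat.eq_of_testBit_eq
    intro j
    rw [Nat.testBit_and, Nat.zero_testBit, Nat.testBit_two_pow_sub_one, Nat.testBit_two_pow]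
    by_cases hj : j < v
    · have : ¬ v = j := by omega
      simp [this]
    · simp [hj]
  · have hne : y ^^^ c ≠ 0 := by
      rw [Ne, Nat.xor_eq_zero_iff]
      exact h
    have e : (y ^^^ c) + (2 ^ v - 1) = 2 ^ v * 1 + ((y ^^^ c) - 1) := by omega
    have hlt : (y ^^^ c) - 1 < 2 ^ v := by omega
    rw [e]
    apply Nat.eq_of_testBit_eq
    intro j
    rw [Nat.testBit_and, Nat.testBit_two_pow_mul_add _ hlt, Nat.testBit_two_pow]
    by_cases hj : v = j
    · subst hj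
      simp
    · simp [hj]

private theorem nz_list (w c : ℕ) (hw : 2 ≤ w) (hc : c < 2 ^ (w - 1)) : ∀ l : List ℕ,
    (∀ y ∈ l, y < 2 ^ (w - 1)) →
    ((Nat.ofDigits (2 ^ w) l ^^^ (c * Nat.ofDigits (2 ^ w) (List.replicate l.length 1))) +
      (2 ^ (w - 1) - 1) * Nat.ofDigits (2 ^ w) (List.replicate l.length 1)) &&&
      (2 ^ (w - 1) * Nat.ofDigits (2 ^ w) (List.replicate l.length 1)) =
      Nat.ofDigits (2 ^ w) (l.map fun y => if y = c then 0 else 2 ^ (w - 1)) := by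
  have h2 : 2 ^ w = 2 * 2 ^ (w - 1) := by
    obtain ⟨v, rfl⟩ : ∃ v, w = v + 1 := ⟨w - 1, by omega⟩
    rw [Nat.add_sub_cancel, pow_succ, mul_comm]
  have hp : 0 < 2 ^ (w - 1) := Nat.two_pow_pos _
  intro l
  induction l with
  | nil =>
    intro _
    simp
  | cons y l ih =>
    intro hl
    have hy : y < 2 ^ (w - 1) := hl y (by simp)
    have ih' := ih fun z hz => hl z (by simp [hz])
    rw [List.length_cons, List.replicate_succ, List.map_cons, Nat.ofDigits_cons, Nat.ofDigits_cons,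
      Nat.ofDigits_cons, ← ih']
    set O := Nat.ofDigits (2 ^ w) (List.replicate l.length 1) with hO
    set L := Nat.ofDigits (2 ^ w) l with hL
    have e1 : c * (1 + 2 ^ w * O) = c + 2 ^ w * (c * O) := by ring
    have e2 : (2 ^ (w - 1) - 1) * (1 + 2 ^ w * O) =
        (2 ^ (w - 1) - 1) + 2 ^ w * ((2 ^ (w - 1) - 1) * O) := by ring
    have e3 : 2 ^ (w - 1) * (1 + 2 ^ w * O) = 2 ^ (w - 1) + 2 ^ w * (2 ^ (w - 1) * O) := by ring
    have hx : y ^^^ c < 2 ^ (w - 1) := Nat.xor_lt_two_pow hy hc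

    rw [e1, e2, e3, nz_xor w _ _ _ _ (by omega) (by omega)]
    have e4 : (y ^^^ c) + 2 ^ w * (L ^^^ (c * O)) +
        ((2 ^ (w - 1) - 1) + 2 ^ w * ((2 ^ (w - 1) - 1) * O)) =
        ((y ^^^ c) + (2 ^ (w - 1) - 1)) + 2 ^ w * ((L ^^^ (c * O)) + (2 ^ (w - 1) - 1) * O) := by ring
    rw [e4, nz_and w _ _ _ _ (by omega) (by omega), nz_field (w - 1) y c hy hc]

theorem p_nz (h : OnesStm) : NzStm := by
  intro w c l hw hl hc hnz
  have hO := (h w l.length (by omega)).1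
  unfold nz at hnz
  have h1 := Nat.eq_of_beq_eq_true hnz
  change ((Nat.ofDigits (2 ^ w) l ^^^ (c * ones w l.length)) +
      (2 ^ (w - 1) - 1) * ones w l.length) &&& (2 ^ (w - 1) * ones w l.length) =
      2 ^ (w - 1) * ones w l.length at h1
  have hp : 0 < 2 ^ (w - 1) := Nat.two_pow_pos _
  have h2 : 2 ^ w = 2 * 2 ^ (w - 1) := by
    obtain ⟨v, rfl⟩ : ∃ v, w = v + 1 := ⟨w - 1, by omega⟩
    rw [Nat.add_sub_cancel, pow_succ, mul_comm]
  have hm : ∀ k : ℕ, 2 ^ (w - 1) * Nat.ofDigits (2 ^ w) (List.replicate k 1) =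
      Nat.ofDigits (2 ^ w) (List.replicate k (2 ^ (w - 1))) := by
    intro k
    induction k with
    | zero => simp
    | succ k ih =>
      rw [List.replicate_succ, List.replicate_succ, Nat.ofDigits_cons, Nat.ofDigits_cons, ← ih]

      ring
  rw [hO, nz_list w c hw hc l hl, hm] at h1
  have h3 := Nat.ofDigits_inj_of_len_eq (b := 2 ^ w) (by omega) (by simp) (by
      intro z hz
      obtain ⟨y, _, rfl⟩ := List.mem_map.1 hz
      split_ifs <;> omega) (by
      intro z hz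
      have := List.eq_of_mem_replicate hz
      omega) h1
  intro hcl
  have h4 : (0 : ℕ) ∈ List.replicate l.length (2 ^ (w - 1)) := by
    rw [← h3]
    exact List.mem_map.2 ⟨c, hcl, if_pos rfl⟩
  have h5 := List.eq_of_mem_replicate h4
  omega

end Pool.Agent.Lib.MP_d0b36d_nt.LB
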