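import Pool.Agent.Lib.MP_d0b36d_nt.LB.Stm

/-!
MP_d0b36d_nt, hand-in MoserBound: piece ONES.
-/

set_option autoImplicit false

namespace Pool.Agent.Lib.MP_d0b36d_nt.LB

open Finset

private theorem ones_eq_geom (w k : ℕ) (hw : 1 ≤ w) :
    ones w k = ∑ j ∈ range k, (2 ^ w) ^ j := by
  have h2 : 2 ≤ 2 ^ w := by
    calc 2 = 2 ^ 1 := rfl
      _ ≤ 2 ^ w := Nat.pow_le_pow_right (by norm_num) hw
  rw [Nat.geomSum_eq h2, ones, pow_mul]

private theorem ones_digits (b k : ℕ) :
    Nat.ofDigits b (List.replicate k 1) = ∑ j ∈ range k, b ^ j := by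
  induction k with
  | zero => simp
  | succ k ih =>
    rw [List.replicate_succ, Nat.ofDigits_cons, ih, geom_sum_succ]
    push_cast
    ring

private theorem ones_step (w k : ℕ) (hw : 1 ≤ w) :
    ones w (k + 1) = 2 ^ w * ones w k + 1 := by
  rw [ones_eq_geom w (k + 1) hw, ones_eq_geom w k hw, geom_sum_succ]

private theorem ones_bits (w : ℕ) (hw : 1 ≤ w) (A : ℕ) (hA : A < 2 ^ w) (k : ℕ) :
    ∀ i : ℕ, i < w * k → (A * ones w k).testBit i = A.testBit (i % w) := by
  induction k with
  | zero => intro i hi; simp at hi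
  | succ k ih =>
    intro i hi
    have h : A * ones w (k + 1) = 2 ^ w * (A * ones w k) + A := by
      rw [ones_step w k hw]; ring
    rw [h, Nat.testBit_two_pow_mul_add _ hA]
    by_cases hiw : i < w
    · rw [if_pos hiw, Nat.mod_eq_of_lt hiw]
    · push Not at hiw
      have hk : i - w < w * k := by
        rw [Nat.mul_succ] at hi
        omega
      rw [if_neg (not_lt.mpr hiw), ih (i - w) hk]
      congr 1
      conv_rhs => rw [← Nat.sub_add_cancel hiw]
      rw [Nat.add_mod_right]

/-- Piece ONES. -/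
theorem p_ones : OnesStm := by
  intro w k hw
  exact ⟨by rw [ones_digits, ones_eq_geom w k hw], fun A i hA hi => ones_bits w hw A hA k i hi⟩

end Pool.Agent.Lib.MP_d0b36d_nt.LB
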