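import Mathlib
import Pool.Agent.Lib.MP_d0b36d_nt.LB.Stm

/-!
MP_d0b36d_nt, hand-in MoserBound: no short sums (assembly of part B).
-/

set_option autoImplicit false

namespace Pool.Agent.Lib.MP_d0b36d_nt.LB

open Finset
open Pool.Agent.Lib.MP_d0b36d_nt.LS (Sol)

lemma short_bit (h : OnesStm) {M : ℕ} (h16 : 16 ≤ M) (hM : M < 74016)
    (hmod : M % 16 = 2 ∨ M % 16 = 3) : (12 * ones 16 4626 - 12).testBit M = true := by
  have e1 : ones 16 4626 = 1 + 2 ^ 16 * ones 16 4625 := by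
    rw [(h 16 4626 (by omega)).1, (h 16 4625 (by omega)).1]
    show Nat.ofDigits (2 ^ 16) (1 :: List.replicate 4625 1) = _
    rw [Nat.ofDigits_cons]
  have e2 : 12 * ones 16 4626 - 12 = 2 ^ 16 * (12 * ones 16 4625) := by
    rw [e1]
    generalize ones 16 4625 = x
    omega
  rw [e2, Nat.testBit_two_pow_mul]
  have e3 := (h 16 4625 (by omega)).2 12 (M - 16) (by norm_num) (by omega)
  rw [e3]
  have e4 : (M - 16) % 16 = 2 ∨ (M - 16) % 16 = 3 := by omega
  rcases e4 with e4 | e4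
  · rw [e4]
    simp [h16]
    decide
  · rw [e4]
    simp [h16]
    decide

theorem p_short (h1 : OnesStm) (h2 : TwoStm) (h3 : DfsStm) (h4 : RunStm) : ShortStm := by
  intro n k m hs
  by_contra hcon
  push Not at hcon
  obtain ⟨l, hc, hr⟩ := h4
  obtain ⟨hev, h16, hmod⟩ := h2 n k m hs
  refine h3 74016 l 2 0 (12 * ones 16 4626 - 12) (by omega) hc hr n k m hs hev hcon ?_
    (short_bit h1 h16 hcon hmod)
  rw [Nat.even_iff] at hev
  omega

end Pool.Agent.Lib.MP_d0b36d_nt.LB
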