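import Mathlib
import Pool.Agent.Lib.MP_d0b36d_nt.LB.Stm

/-!
MP_d0b36d_nt, hand-in MoserBound: piece TAB (request 9838), `p_tab : ColStm → TabStm`.
-/

set_option autoImplicit false

namespace Pool.Agent.Lib.MP_d0b36d_nt.LB

private theorem tab_bits (l : List ℕ) (j : ℕ) (h : (bits l).testBit j = true) : j ∈ l := by
  induction l with
  | nil => simp [bits] at h
  | cons d t ih =>
    have h1 : (Nat.lor (2 ^ d) (bits t)).testBit j = true := h
    have h2 : ((2 ^ d) ||| (bits t)).testBit j = true := h1
    rw [Nat.testBit_or, Bool.or_eq_true] at h2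
    rcases h2 with h2 | h2
    · rw [Nat.testBit_two_pow] at h2
      have : d = j := by simpa using h2
      simp [this]
    · exact List.mem_cons_of_mem _ (ih h2)

theorem p_tab (h : ColStm) : TabStm := by
  intro p w D hp hw h4 hD
  induction D with
  | nil =>
    intro r d _ _ _ _ hb
    simp [table] at hb
  | cons c t ih =>
    have hD' : (Nat.blt 0 c.1 && (Nat.blt c.1 (p - 1) && (Nat.beq (c.1 % 2) 0 &&
      (colOK p w c.1 c.2 && colsOK p w t)))) = true := hD
    simp only [Bool.and_eq_true] at hD'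
    obtain ⟨h0, h1, h2, h3, h5⟩ := hD'
    have h0' : 0 < c.1 := by simpa using h0
    have h1' : c.1 < p - 1 := by simpa using h1
    have h2' : c.1 % 2 = 0 := by simpa using h2
    have hcol := h p w c.1 c.2 hp hw h4 h0' h1' h3
    intro r d hr0 hr1 hr2 hd hb
    have hb1 : ((2 ^ (p * (c.1 / 2)) * bits c.2) ||| (table p t)).testBit (p * (r / 2) + d) = true := hb
    rw [Nat.testBit_or, Bool.or_eq_true] at hb1
    rcases hb1 with hb1 | hb1
    · rw [Nat.testBit_two_pow_mul, Bool.and_eq_true] at hb1
      obtain ⟨ha, hb2⟩ := hb1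
      have ha' : p * (c.1 / 2) ≤ p * (r / 2) + d := by simpa using ha
      have hm := tab_bits _ _ hb2
      obtain ⟨hd1, hk⟩ := hcol _ hm
      have he : p * (c.1 / 2) + (p * (r / 2) + d - p * (c.1 / 2)) = p * (r / 2) + d := by omega
      have hpp : 0 < p := hp.pos
      have e1 : (p * (c.1 / 2) + (p * (r / 2) + d - p * (c.1 / 2))) / p = c.1 / 2 := by
        rw [Nat.mul_add_div hpp, Nat.div_eq_of_lt hd1]
        rfl
      have e2 : (p * (r / 2) + d) / p = r / 2 := by
        rw [Nat.mul_add_div hpp, Nat.div_eq_of_lt hd]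
        rfl
      have e3 : c.1 / 2 = r / 2 := by
        rw [he] at e1
        exact e1.symm.trans e2
      have e4 : c.1 = r := by omega
      have e5 : p * (r / 2) + d - p * (c.1 / 2) = d := by rw [e3]; omega
      rw [e5, e4] at hk
      exact hk
    · exact ih h5 r d hr0 hr1 hr2 hd hb1

end Pool.Agent.Lib.MP_d0b36d_nt.LB
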