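import Pool.Agent.Lib.MP_d0b36d_nt.LB.Stm

set_option autoImplicit false

namespace Pool.Agent.Lib.MP_d0b36d_nt.LB

open Finset

private theorem tst_pk (b n : ℕ) (f : ℕ → ℕ) :
    Nat.ofDigits b ((List.range n).map f) = ∑ j ∈ range n, f j * b ^ j := by
  induction n with
  | zero => simp
  | succ n ih =>
    rw [List.range_succ, List.map_append, Nat.ofDigits_append, ih, sum_range_succ]
    simp [mul_comm]

private theorem tst_rev (n : ℕ) (g : ℕ → ℕ) :
    (List.range n).reverse.map g = (List.range n).map (fun j => g (n - 1 - j)) := by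
  apply List.ext_getElem
  · simp
  · intro i h1 h2
    simp

private theorem tst_app (b n m : ℕ) (f : ℕ → ℕ) :
    ∑ j ∈ range (n + m), f j * b ^ j =
      ∑ j ∈ range n, f j * b ^ j + b ^ n * ∑ j ∈ range m, f (n + j) * b ^ j := by
  rw [sum_range_add, mul_sum]
  congr 1
  refine sum_congr rfl fun j _ => ?_
  rw [pow_add]
  ring

/-- digits in the middle -/
private theorem tst_mid (b p n e : ℕ) (hb : 0 < b) (f : ℕ → ℕ) (hf : ∀ j, f j < b)
    (h : e + p ≤ n) :
    (∑ j ∈ range n, f j * b ^ j) / b ^ e % b ^ p = ∑ j ∈ range p, f (e + j) * b ^ j := by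
  rw [← tst_pk b n f, ← tst_pk b p (fun j => f (e + j)),
    Nat.ofDigits_div_pow_eq_ofDigits_drop e hb, Nat.ofDigits_mod_pow_eq_ofDigits_take p hb]
  · congr 1
    apply List.ext_getElem
    · simp
      omega
    · intro i h1 h2
      simp
  · intro l hl
    have h1 := List.mem_of_mem_drop hl
    rw [List.mem_map] at h1
    obtain ⟨j, _, rfl⟩ := h1
    exact hf j
  · intro l h1
    rw [List.mem_map] at h1
    obtain ⟨j, _, rfl⟩ := h1
    exact hf j

theorem p_tst (h1 : OnesStm) (h2 : NzStm) : TstStm := by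
  intro p w d g hp hw hpw hg hd ht N hN c hc
  have hb : 0 < 2 ^ w := by positivity
  have hw2 : (2 : ℕ) ^ w = 2 * 2 ^ (w - 1) := by
    rw [← pow_succ']
    congr 1
    omega
  -- the digits
  let h : ℕ → ℕ := fun j => g (p - 1 - j % p)
  have hh : ∀ j, h j < 2 ^ w := fun j => by
    have := hg (p - 1 - j % p)
    show g (p - 1 - j % p) < 2 ^ w
    omega
  have hacc : Nat.ofDigits (2 ^ w) ((List.range p).reverse.map g) =
      ∑ j ∈ range p, h j * (2 ^ w) ^ j := by
    rw [tst_rev, tst_pk]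
    refine sum_congr rfl fun j hj => ?_
    rw [mem_range] at hj
    show g (p - 1 - j) * (2 ^ w) ^ j = g (p - 1 - j % p) * (2 ^ w) ^ j
    rw [Nat.mod_eq_of_lt hj]
  rw [hacc] at ht
  have hones : ones w p = ∑ j ∈ range p, 1 * (2 ^ w) ^ j := by
    rw [(h1 w p (by omega)).1, ← tst_pk (2 ^ w) p (fun _ => 1)]
    congr 1
    apply List.ext_getElem
    · simp
    · intro i h1 h2
      simp
  have hS2 : (∑ j ∈ range p, h j * (2 ^ w) ^ j) * 2 ^ (w * p) + ∑ j ∈ range p, h j * (2 ^ w) ^ j =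
      ∑ j ∈ range (p + p), h j * (2 ^ w) ^ j := by
    rw [tst_app, pow_mul, mul_comm, add_comm]
    congr 2
    refine sum_congr rfl fun j _ => ?_
    show g (p - 1 - j % p) * (2 ^ w) ^ j = g (p - 1 - (p + j) % p) * (2 ^ w) ^ j
    rw [Nat.add_mod_left]
  have hsh : ∀ e, e ≤ p → Nat.shiftRight ((∑ j ∈ range p, h j * (2 ^ w) ^ j) * 2 ^ (w * p) +
      ∑ j ∈ range p, h j * (2 ^ w) ^ j) (w * e) % 2 ^ (w * p) =
      ∑ j ∈ range p, h (e + j) * (2 ^ w) ^ j := by
    intro e he
    rw [hS2]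
    have h3 : Nat.shiftRight (∑ j ∈ range (p + p), h j * (2 ^ w) ^ j) (w * e) =
        (∑ j ∈ range (p + p), h j * (2 ^ w) ^ j) / 2 ^ (w * e) :=
      Nat.shiftRight_eq_div_pow _ _
    rw [h3, pow_mul, pow_mul]
    exact tst_mid (2 ^ w) p (p + p) e hb h hh (by omega)
  let y : ℕ → ℕ := fun j => 2 * h j + 2 * p - h (p - 1 + j) - h (d + j)
  have hy : 2 * (∑ j ∈ range p, h j * (2 ^ w) ^ j) + 2 * p * ones w p -
      (∑ j ∈ range p, h (p - 1 + j) * (2 ^ w) ^ j) - (∑ j ∈ range p, h (d + j) * (2 ^ w) ^ j) =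
      Nat.ofDigits (2 ^ w) ((List.range p).map y) := by
    rw [tst_pk, hones]
    have h4 : 2 * (∑ j ∈ range p, h j * (2 ^ w) ^ j) + 2 * p * (∑ j ∈ range p, 1 * (2 ^ w) ^ j) =
        (∑ j ∈ range p, h (p - 1 + j) * (2 ^ w) ^ j) + (∑ j ∈ range p, h (d + j) * (2 ^ w) ^ j) +
        ∑ j ∈ range p, y j * (2 ^ w) ^ j := by
      rw [mul_sum, mul_sum, ← sum_add_distrib, ← sum_add_distrib, ← sum_add_distrib]
      refine sum_congr rfl fun j _ => ?_
      have h5 : 2 * h j + 2 * p = h (p - 1 + j) + h (d + j) + y j := by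
        have h6 : h (p - 1 + j) < p := hg _
        have h7 : h (d + j) < p := hg _
        show 2 * h j + 2 * p = h (p - 1 + j) + h (d + j) +
          (2 * h j + 2 * p - h (p - 1 + j) - h (d + j))
        omega
      calc 2 * (h j * (2 ^ w) ^ j) + 2 * p * (1 * (2 ^ w) ^ j)
          = (2 * h j + 2 * p) * (2 ^ w) ^ j := by ring
        _ = _ := by rw [h5]; ring
    omega
  have hnz : ∀ c', c' ∈ [p, 2 * p, 3 * p] →
      nz w p (Nat.ofDigits (2 ^ w) ((List.range p).map y)) c' = true := by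
    rw [← hy]
    unfold tst at ht
    simp only [Bool.and_eq_true] at ht
    rw [hsh (p - 1) (by omega), hsh d hd.le] at ht
    intro c' hc'
    simp only [List.mem_cons, List.not_mem_nil, or_false] at hc'
    rcases hc' with rfl | rfl | rfl
    · exact ht.1
    · exact ht.2.1
    · exact ht.2.2
  have hc3 : c < 2 ^ (w - 1) := by
    simp only [List.mem_cons, List.not_mem_nil, or_false] at hc
    rcases hc with rfl | rfl | rfl <;> omega
  have hmem := h2 w c ((List.range p).map y) hw (by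
    intro v hv
    rw [List.mem_map] at hv
    obtain ⟨j, _, rfl⟩ := hv
    have h6 : h j < p := hg _
    show 2 * h j + 2 * p - h (p - 1 + j) - h (d + j) < 2 ^ (w - 1)
    omega) hc3 (by
    rw [List.length_map, List.length_range]
    exact hnz c hc)
  intro hcon
  apply hmem
  rw [List.mem_map]
  refine ⟨p - 1 - N, List.mem_range.2 (by omega), ?_⟩
  rw [← hcon]
  have e0 : h (p - 1 - N) = g N := by
    show g (p - 1 - (p - 1 - N) % p) = g N
    rw [Nat.mod_eq_of_lt (by omega)]
    congr 1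
    omega
  have e1 : h (p - 1 + (p - 1 - N)) = g ((N + 1) % p) := by
    show g (p - 1 - (p - 1 + (p - 1 - N)) % p) = g ((N + 1) % p)
    congr 1
    rcases Nat.lt_or_ge (N + 1) p with h3 | h3
    · rw [Nat.mod_eq_of_lt h3]
      have h4 : p - 1 + (p - 1 - N) = (p - 2 - N) + p := by omega
      rw [h4, Nat.add_mod_right, Nat.mod_eq_of_lt (by omega)]
      omega
    · have h4 : N + 1 = p := by omega
      rw [h4, Nat.mod_self]
      have h5 : p - 1 + (p - 1 - N) = p - 1 := by omega
      rw [h5, Nat.mod_eq_of_lt (by omega)]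
      omega
  have e2 : h (d + (p - 1 - N)) = g ((N + (p - d)) % p) := by
    show g (p - 1 - (d + (p - 1 - N)) % p) = g ((N + (p - d)) % p)
    congr 1
    rcases Nat.lt_or_ge N d with h3 | h3
    · have h4 : d + (p - 1 - N) = (d - 1 - N) + p := by omega
      have h5 : N + (p - d) < p := by omega
      rw [h4, Nat.add_mod_right, Nat.mod_eq_of_lt (by omega), Nat.mod_eq_of_lt h5]
      omega
    · have h4 : N + (p - d) = (N - d) + p := by omega
      rw [h4, Nat.add_mod_right, Nat.mod_eq_of_lt (by omega), Nat.mod_eq_of_lt (by omega)]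
      omega
  show 2 * h (p - 1 - N) + 2 * p - h (p - 1 + (p - 1 - N)) - h (d + (p - 1 - N)) = _
  rw [e0, e1, e2]

end Pool.Agent.Lib.MP_d0b36d_nt.LB
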