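import Mathlib
import Pool.Agent.Lib.MP_d0b36d_nt.LB.Stm
import Pool.Agent.Lib.MP_d0b36d_nt.Odd
import Pool.Agent.Lib.MP_d0b36d_nt.LS.EvB

set_option autoImplicit false

namespace Pool.Agent.Lib.MP_d0b36d_nt.LB

open Finset
open Pool.Agent.Lib.MP_d0b36d_nt.LS (Sol)

/-- sums of even powers over `2^e` consecutive odd numbers -/
private lemma two_block (n : ℕ) (hn : Even n) : ∀ (e : ℕ) (a : ℤ),
    (2 : ℤ) ^ (e + 1) ∣ (∑ j ∈ range (2 ^ e), (2 * (a + j) + 1) ^ n) - 2 ^ e := by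
  intro e
  induction e with
  | zero =>
    intro a
    simp only [pow_zero, sum_range_one, Nat.cast_zero, add_zero, zero_add, pow_one]
    have h := sub_dvd_pow_sub_pow (2 * a + 1) 1 n
    rw [one_pow] at h
    exact (Dvd.intro a (by ring)).trans h
  | succ e ih =>
    intro a
    have hsplit : (2 : ℕ) ^ (e + 1) = 2 ^ e + 2 ^ e := by ring
    have h1 : (2 : ℤ) ^ (e + 2) ∣ (∑ j ∈ range (2 ^ (e + 1)), (2 * (a + j) + 1) ^ n) -
        2 * ∑ j ∈ range (2 ^ e), (2 * (a + j) + 1) ^ n := by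
      rw [hsplit, sum_range_add, mul_sum, ← sum_add_distrib, ← sum_sub_distrib]
      apply dvd_sum
      intro j _
      set x : ℤ := 2 * (a + j) + 1 with hx
      have hy1 := pow_add_mod x (2 ^ (e + 1)) n
      have hd1 : (2 : ℤ) ^ (e + 2) ∣ (x + 2 ^ (e + 1)) ^ n - x ^ n - n * x ^ (n - 1) * 2 ^ (e + 1) := by
        refine dvd_trans ?_ hy1
        rw [← pow_mul]
        exact pow_dvd_pow 2 (by omega)
      have hd2 : (2 : ℤ) ^ (e + 2) ∣ (n : ℤ) * x ^ (n - 1) * 2 ^ (e + 1) := by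
        obtain ⟨q, hq⟩ := hn
        refine ⟨q * x ^ (n - 1), ?_⟩
        rw [hq]; push_cast; ring
      have e1 : (2 * (a + ((2 ^ e + j : ℕ) : ℤ)) + 1 : ℤ) = x + 2 ^ (e + 1) := by
        push_cast; rw [hx]; ring
      rw [e1]
      have e3 : x ^ n + (x + 2 ^ (e + 1)) ^ n - 2 * x ^ n =
          ((x + 2 ^ (e + 1)) ^ n - x ^ n - n * x ^ (n - 1) * 2 ^ (e + 1)) +
          n * x ^ (n - 1) * 2 ^ (e + 1) := by ring
      rw [e3]
      exact dvd_add hd1 hd2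
    have h2 : (2 : ℤ) ^ (e + 2) ∣ 2 * (∑ j ∈ range (2 ^ e), (2 * (a + j) + 1) ^ n) - 2 ^ (e + 1) := by
      obtain ⟨c, hc⟩ := ih a
      refine ⟨c, ?_⟩
      have : 2 * (∑ j ∈ range (2 ^ e), (2 * (a + j) + 1) ^ n) - 2 ^ (e + 1) =
        2 * ((∑ j ∈ range (2 ^ e), (2 * (a + j) + 1) ^ n) - 2 ^ e) := by ring
      rw [this, hc]
      ring
    have h3 := dvd_add h1 h2
    have e4 : (∑ j ∈ range (2 ^ (e + 1)), (2 * (a + j) + 1) ^ n) - 2 ^ (e + 1) =
        ((∑ j ∈ range (2 ^ (e + 1)), (2 * (a + j) + 1) ^ n) -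
        2 * ∑ j ∈ range (2 ^ e), (2 * (a + j) + 1) ^ n) +
        (2 * (∑ j ∈ range (2 ^ e), (2 * (a + j) + 1) ^ n) - 2 ^ (e + 1)) := by ring
    rw [e4]
    exact h3

private lemma two_class (n : ℕ) (hn : Even n) (e : ℕ) (a : ℤ) (r : ℕ) :
    (2 : ℤ) ^ (e + 1) ∣ (∑ j ∈ range (2 ^ e * r), (2 * (a + j) + 1) ^ n) - 2 ^ e * r := by
  induction r with
  | zero => simp
  | succ r ih =>
    rw [Nat.mul_succ, sum_range_add]
    have h := two_block n hn e (a + 2 ^ e * r)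
    have h2 := dvd_add ih h
    have e1 : ∀ j : ℕ, (2 * (a + 2 ^ e * (r : ℤ) + (j : ℤ)) + 1) ^ n =
        (2 * (a + ((2 ^ e * r + j : ℕ) : ℤ)) + 1) ^ n := by
      intro j; push_cast; ring
    rw [sum_congr rfl (fun j _ => e1 j)] at h2
    have e2 : (∑ x ∈ range (2 ^ e * r), (2 * (a + (x : ℤ)) + 1) ^ n) +
        (∑ x ∈ range (2 ^ e), (2 * (a + ((2 ^ e * r + x : ℕ) : ℤ)) + 1) ^ n) -
        2 ^ e * ((r + 1 : ℕ) : ℤ) =
        (∑ x ∈ range (2 ^ e * r), (2 * (a + (x : ℤ)) + 1) ^ n) - 2 ^ e * (r : ℤ) +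
        ((∑ x ∈ range (2 ^ e), (2 * (a + ((2 ^ e * r + x : ℕ) : ℤ)) + 1) ^ n) - 2 ^ e) := by
      push_cast; ring
    rw [e2]
    exact h2

/-- the sum is, modulo `2^n`, the sum over the odd numbers -/
private lemma two_split (n k : ℕ) : ∀ r : ℕ,
    (2 : ℤ) ^ n ∣ (∑ i ∈ Ico k (k + r), (i : ℤ) ^ n) -
      ∑ j ∈ Ico (k / 2) ((k + r) / 2), (2 * (j : ℤ) + 1) ^ n := by
  intro r
  induction r with
  | zero => simp
  | succ r ih =>
    rw [← add_assoc, sum_Ico_succ_top (by omega)]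
    rcases Nat.mod_two_eq_zero_or_one (k + r) with h | h
    · have h1 : (k + r + 1) / 2 = (k + r) / 2 := by omega
      rw [h1]
      have h2 : (2 : ℤ) ^ n ∣ ((k + r : ℕ) : ℤ) ^ n := by
        apply pow_dvd_pow_of_dvd
        omega
      have e : (∑ i ∈ Ico k (k + r), (i : ℤ) ^ n) + ((k + r : ℕ) : ℤ) ^ n -
          ∑ j ∈ Ico (k / 2) ((k + r) / 2), (2 * (j : ℤ) + 1) ^ n =
          ((∑ i ∈ Ico k (k + r), (i : ℤ) ^ n) -
            ∑ j ∈ Ico (k / 2) ((k + r) / 2), (2 * (j : ℤ) + 1) ^ n) + ((k + r : ℕ) : ℤ) ^ n := by ring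
      rw [e]
      exact dvd_add ih h2
    · have h1 : (k + r + 1) / 2 = (k + r) / 2 + 1 := by omega
      rw [h1, sum_Ico_succ_top (by omega)]
      have h2 : (2 * (((k + r) / 2 : ℕ) : ℤ) + 1) = ((k + r : ℕ) : ℤ) := by omega
      rw [h2]
      have e : (∑ i ∈ Ico k (k + r), (i : ℤ) ^ n) + ((k + r : ℕ) : ℤ) ^ n -
          (∑ j ∈ Ico (k / 2) ((k + r) / 2), (2 * (j : ℤ) + 1) ^ n + ((k + r : ℕ) : ℤ) ^ n) =
          ((∑ i ∈ Ico k (k + r), (i : ℤ) ^ n) -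
            ∑ j ∈ Ico (k / 2) ((k + r) / 2), (2 * (j : ℤ) + 1) ^ n) := by ring
      rw [e]
      exact ih

theorem p_two (h : Pool.Agent.Lib.MP_d0b36d_nt.LS.SolStm) : TwoStm := by
  intro n k m hs
  obtain ⟨hm14, h8, -, -, -⟩ := h.1 n k m hs
  obtain ⟨hn4, hk, hm, hsum⟩ := hs
  have hIco : ∑ i ∈ Ico k (k + m + 1), i ^ n = (k + m + 1) ^ n := by
    rw [← hsum]
    apply sum_congr _ (fun _ _ => rfl)
    ext i; simp only [mem_Ico, mem_Icc]; omega
  have hev : Even n := by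
    by_contra hno
    have hodd : Odd n := Nat.not_even_iff_odd.mp hno
    have h5 : 5 ≤ n := by
      rcases hodd with ⟨q, hq⟩
      omega
    exact odd_case hodd h5 hk (by omega) hIco
  obtain ⟨q, hq⟩ := hev
  have hn2 : n = 2 ^ 1 * q := by omega
  have hpar := EvB.parity_count (v := 1) (m := q) (k := k) (N := k + m + 1) le_rfl (by omega) (by omega)
    (by rw [← hn2]; exact hIco)
  have hpar8 : (8 : ℤ) ∣ (((k + m + 1) / 2 - k / 2 : ℕ) : ℤ) - (((k + m + 1) % 2 : ℕ) : ℤ) := by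
    have e : (2 : ℤ) ^ (1 + 2) = 8 := by norm_num
    rw [e] at hpar
    exact hpar
  refine ⟨⟨q, hq⟩, ?_⟩
  rcases Nat.mod_two_eq_zero_or_one (k + m + 1) with hN | hN
  · exfalso
    -- `N` even
    set c : ℕ := (k + m + 1) / 2 - k / 2 with hc
    have hc0 : c ≠ 0 := by omega
    obtain ⟨e, r, hr, hcr⟩ := Nat.exists_eq_two_pow_mul_odd hc0
    have hcl := two_class n ⟨q, hq⟩ e ((k / 2 : ℕ) : ℤ) r
    rw [← hcr] at hcl
    have hsp := two_split n k (m + 1)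
    rw [← add_assoc] at hsp
    have hre : ∑ j ∈ Ico (k / 2) ((k + m + 1) / 2), (2 * (j : ℤ) + 1) ^ n =
        ∑ j ∈ range c, (2 * (((k / 2 : ℕ) : ℤ) + (j : ℤ)) + 1) ^ n := by
      rw [sum_Ico_eq_sum_range]
      apply sum_congr rfl
      intro j _
      push_cast; ring
    rw [hre] at hsp
    have hI : (∑ i ∈ Ico k (k + m + 1), (i : ℤ) ^ n) = ((k + m + 1 : ℕ) : ℤ) ^ n := by
      have := congrArg (fun x : ℕ => (x : ℤ)) hIco
      simpa using this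
    have hNd : (2 : ℤ) ^ n ∣ ((k + m + 1 : ℕ) : ℤ) ^ n := by
      apply pow_dvd_pow_of_dvd
      omega
    have hS : (2 : ℤ) ^ n ∣ ∑ j ∈ range c, (2 * (((k / 2 : ℕ) : ℤ) + (j : ℤ)) + 1) ^ n := by
      rw [hI] at hsp
      have := dvd_sub hNd hsp
      simpa using this
    rcases Nat.lt_or_ge e n with hen | hen
    · have h1 : (2 : ℤ) ^ (e + 1) ∣ ∑ j ∈ range c, (2 * (((k / 2 : ℕ) : ℤ) + (j : ℤ)) + 1) ^ n :=
        (pow_dvd_pow 2 (by omega)).trans hS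
      have h2 := dvd_sub h1 hcl
      rw [sub_sub_cancel, pow_succ] at h2
      have h3 : (2 : ℤ) ∣ (r : ℤ) := by
        exact Int.dvd_of_mul_dvd_mul_left (a := 2 ^ e) (by positivity) h2
      rcases hr with ⟨s, hs⟩
      omega
    · have h1 : 2 ^ n ≤ c := by
        calc 2 ^ n ≤ 2 ^ e := Nat.pow_le_pow_right (by norm_num) hen
          _ ≤ 2 ^ e * r := Nat.le_mul_of_pos_right _ (by rcases hr with ⟨s, hs⟩; omega)
          _ = c := hcr.symm
      have h2 : ∀ t : ℕ, 2 * (t + 1) ≤ 2 ^ (t + 1) := by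
        intro t
        induction t with
        | zero => norm_num
        | succ t ih =>
          have e : 2 ^ (t + 1 + 1) = 2 * 2 ^ (t + 1) := by ring
          omega
      have h3 := h2 (n - 1)
      rw [show n - 1 + 1 = n by omega] at h3
      omega
  · omega

end Pool.Agent.Lib.MP_d0b36d_nt.LB
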