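import Pool.Agent.Lib.MP_d0b36d_nt.LB.Stm

/-!
MP_d0b36d_nt, hand-in MoserBound, piece ZZ: the column `r = 0` modulo `p^2`.
-/

set_option autoImplicit false

namespace Pool.Agent.Lib.MP_d0b36d_nt.LB

open Finset
open Pool.Agent.Lib.MP_d0b36d_nt.LS (Sol)

private lemma zz_bitlt (p x d : ℕ) (hp : 0 < p) (hd : d < p) : p * (x % p) + d < p * p := by
  have h1 : x % p < p := Nat.mod_lt _ hp
  have h2 : p * (x % p + 1) ≤ p * p := Nat.mul_le_mul_left p h1
  have h3 : p * (x % p + 1) = p * (x % p) + p := by ring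
  omega

private lemma zz_lt (p : ℕ) (hp : 0 < p) : ∀ D : ℕ, D ≤ p → zrow p D < 2 ^ (p * p) := by
  intro D
  induction D with
  | zero => intro _; simp only [zrow]; exact Nat.two_pow_pos _
  | succ d ih =>
    intro hd
    have hdp : d < p := hd
    have e1 : p * d + d < p * p := by
      have := zz_bitlt p d d hp hdp
      rwa [Nat.mod_eq_of_lt hdp] at this
    have pos : 0 < 2 ^ (p * p) := Nat.two_pow_pos _
    have f1 : 2 ^ (p * d + d) < 2 ^ (p * p) := Nat.pow_lt_pow_right (by norm_num) e1
    have f2 : (bif Nat.blt 0 d then 2 ^ (p * ((d + p - 2) % p) + d) else 0) < 2 ^ (p * p) := by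
      cases Nat.blt 0 d
      · exact pos
      · exact Nat.pow_lt_pow_right (by norm_num) (zz_bitlt p _ d hp hdp)
    have f3 : (bif Nat.blt (d + 1) p then 2 ^ (p * ((d + p - 1) % p) + d) else 0) < 2 ^ (p * p) := by
      cases Nat.blt (d + 1) p
      · exact pos
      · exact Nat.pow_lt_pow_right (by norm_num) (zz_bitlt p _ d hp hdp)
    exact Nat.or_lt_two_pow (ih (by omega)) (Nat.or_lt_two_pow f1 (Nat.or_lt_two_pow f2 f3))

private lemma zz_row (p d i : ℕ)
    (h : i = p * d + d ∨ (0 < d ∧ i = p * ((d + p - 2) % p) + d) ∨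
      (d + 1 < p ∧ i = p * ((d + p - 1) % p) + d)) :
    ∀ D : ℕ, d < D → (zrow p D).testBit i = true := by
  intro D
  induction D with
  | zero => intro hd; omega
  | succ e ih =>
    intro hd
    have hz : zrow p (e + 1) = (zrow p e) ||| ((2 ^ (p * e + e)) |||
      ((bif Nat.blt 0 e then 2 ^ (p * ((e + p - 2) % p) + e) else 0) |||
        (bif Nat.blt (e + 1) p then 2 ^ (p * ((e + p - 1) % p) + e) else 0))) := rfl
    rw [hz, Nat.testBit_or, Nat.testBit_or, Nat.testBit_or]
    rcases Nat.lt_or_ge d e with hde | hde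
    · rw [ih hde]; rfl
    · have hed : e = d := by omega
      subst hed
      rcases h with h | ⟨h0, h⟩ | ⟨h0, h⟩
      · rw [h, Nat.testBit_two_pow_self]; simp
      · have hb : Nat.blt 0 e = true := by
          rw [Nat.blt_eq]; exact h0
        rw [hb, h]
        simp only [cond_true, Nat.testBit_two_pow_self]
        simp
      · have hb : Nat.blt (e + 1) p = true := by
          rw [Nat.blt_eq]; exact h0
        rw [hb, h]
        simp only [cond_true, Nat.testBit_two_pow_self]
        simp

private lemma zz_sum (p : ℕ) (hp : 0 < p) (x : ℕ) :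
    (∑ i ∈ range x, (if p ∣ i then (0 : ZMod p) else 1)) + (((x + p - 1) / p : ℕ) : ZMod p) =
      (x : ZMod p) := by
  induction x with
  | zero =>
    have : (0 + p - 1) / p = 0 := Nat.div_eq_of_lt (by omega)
    rw [this]; simp
  | succ x ih =>
    rw [sum_range_succ]
    have h1 : x + 1 + p - 1 = (x + p - 1) + 1 := by omega
    rw [h1, Nat.succ_div]
    have h2 : p ∣ (x + p - 1) + 1 ↔ p ∣ x := by
      have : (x + p - 1) + 1 = x + p := by omega
      rw [this]
      exact Nat.dvd_add_left (dvd_refl p)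
    by_cases hx : p ∣ x
    · rw [if_pos hx, if_pos (h2.mpr hx)]
      push_cast
      linear_combination ih
    · rw [if_neg hx, if_neg (fun h => hx (h2.mp h))]
      push_cast
      linear_combination ih

private lemma zz_pow (p : ℕ) (hp : p.Prime) (n x : ℕ) (hn : 0 < n) (h : (p - 1) ∣ n) :
    ((x : ZMod p)) ^ n = if p ∣ x then (0 : ZMod p) else 1 := by
  have : Fact p.Prime := ⟨hp⟩
  by_cases hx : p ∣ x
  · rw [if_pos hx, (ZMod.natCast_eq_zero_iff x p).mpr hx, zero_pow hn.ne']
  · rw [if_neg hx]
    obtain ⟨c, rfl⟩ := h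
    have hx0 : (x : ZMod p) ≠ 0 := fun h0 => hx ((ZMod.natCast_eq_zero_iff x p).mp h0)
    rw [pow_mul, ZMod.pow_card_sub_one_eq_one hx0, one_pow]

/-- the congruence between the numbers of multiples -/
private lemma zz_main (p : ℕ) (hp : p.Prime) (n k m : ℕ) (hs : Sol n k m) (h : n % (p - 1) = 0) :
    (((m + 1) + (k + p - 1) / p : ℕ) : ZMod p) =
      (((k + m + 1) + p - 1) / p : ℕ) + (if p ∣ k + m + 1 then (0 : ZMod p) else 1) := by
  obtain ⟨h4, _, _, hsum⟩ := hs
  have hn : 0 < n := by omega
  have hdv : (p - 1) ∣ n := Nat.dvd_of_mod_eq_zero h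
  have h1 := congrArg (Nat.cast : ℕ → ZMod p) hsum
  rw [Nat.cast_sum] at h1
  have h2 : ∀ i ∈ Icc k (k + m), ((i ^ n : ℕ) : ZMod p) = if p ∣ i then (0 : ZMod p) else 1 := by
    intro i _
    rw [Nat.cast_pow]; exact zz_pow p hp n i hn hdv
  rw [sum_congr rfl h2, Nat.cast_pow, zz_pow p hp n _ hn hdv] at h1
  have h3 : Icc k (k + m) = Ico k (k + m + 1) := by
    ext i; simp only [mem_Icc, mem_Ico]; omega
  rw [h3, sum_Ico_eq_sub _ (by omega : k ≤ k + m + 1)] at h1
  have e1 := zz_sum p hp.pos (k + m + 1)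
  have e2 := zz_sum p hp.pos k
  rw [← h1]
  push_cast at e1 e2 ⊢
  linear_combination e2 - e1

private lemma zz_case (p : ℕ) (hp : p.Prime) (f d b e : ℕ) (hd : d < p) (he : e < p)
    (h : (((p * f + d) + (p * b + e + p - 1) / p : ℕ) : ZMod p) =
      (((p * b + e + (p * f + d)) + p - 1) / p : ℕ) +
        (if p ∣ p * b + e + (p * f + d) then (0 : ZMod p) else 1)) :
    f % p = d ∨ (0 < d ∧ f % p = (d + p - 2) % p) ∨ (d + 1 < p ∧ f % p = (d + p - 1) % p) := by
  have hp0 : 0 < p := hp.pos
  have hp2 : 2 ≤ p := hp.two_le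
  have a1 : (p * b + e + p - 1) / p = b + (e + p - 1) / p := by
    have : p * b + e + p - 1 = (e + p - 1) + p * b := by omega
    rw [this, Nat.add_mul_div_left _ _ hp0]; ring
  have a2 : ((p * b + e + (p * f + d)) + p - 1) / p = b + f + (e + d + p - 1) / p := by
    have : (p * b + e + (p * f + d)) + p - 1 = (e + d + p - 1) + p * (b + f) := by
      rw [Nat.mul_add]; omega
    rw [this, Nat.add_mul_div_left _ _ hp0]; ring
  have a3 : p ∣ p * b + e + (p * f + d) ↔ p ∣ e + d := by
    have : p * b + e + (p * f + d) = p * (b + f) + (e + d) := by ring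
    rw [this]
    exact (Nat.dvd_add_right (Dvd.intro _ rfl))
  rw [a1, a2] at h
  have key : ∀ u v : ℕ, (f : ZMod p) + u = v → f + u ≡ v [MOD p] := by
    intro u v huv
    rw [← ZMod.natCast_eq_natCast_iff]
    push_cast
    exact huv
  have pz : (p : ZMod p) = 0 := ZMod.natCast_self p
  -- f + 2 ≡ d implies the second, etc.
  have c0 : (f : ZMod p) = d → f % p = d := by
    intro h0
    have h1 : f % p = d % p := key 0 d (by simpa using h0)
    rw [h1, Nat.mod_eq_of_lt hd]
  have c1 : (f : ZMod p) + 1 = d → f % p = (d + p - 1) % p := by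
    intro h0
    have h2 : (f : ZMod p) = ((d + p - 1 : ℕ) : ZMod p) := by
      have e1 : ((d + p - 1 : ℕ) : ZMod p) + 1 = d := by
        have : ((d + p - 1 : ℕ) : ZMod p) + 1 = ((d + p - 1 + 1 : ℕ) : ZMod p) := by push_cast; ring
        rw [this, show d + p - 1 + 1 = d + p by omega]
        push_cast
        rw [pz, add_zero]
      linear_combination h0 - e1
    exact (ZMod.natCast_eq_natCast_iff _ _ _).mp h2
  have c2 : (f : ZMod p) + 2 = d → f % p = (d + p - 2) % p := by
    intro h0
    have h2 : (f : ZMod p) = ((d + p - 2 : ℕ) : ZMod p) := by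
      have e1 : ((d + p - 2 : ℕ) : ZMod p) + 2 = d := by
        have : ((d + p - 2 : ℕ) : ZMod p) + 2 = ((d + p - 2 + 2 : ℕ) : ZMod p) := by push_cast; ring
        rw [this, show d + p - 2 + 2 = d + p by omega]
        push_cast
        rw [pz, add_zero]
      linear_combination h0 - e1
    exact (ZMod.natCast_eq_natCast_iff _ _ _).mp h2
  rcases Nat.eq_zero_or_pos e with rfl | he0
  · have b1 : (0 + p - 1) / p = 0 := Nat.div_eq_of_lt (by omega)
    rcases Nat.eq_zero_or_pos d with rfl | hd0
    · left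
      have a4 : p ∣ p * b + 0 + (p * f + 0) := a3.mpr (by simp)
      rw [if_pos a4, b1] at h
      apply c0
      push_cast at h
      rw [pz] at h
      linear_combination -h
    · right; left
      refine ⟨hd0, c2 ?_⟩
      have a4 : ¬ p ∣ p * b + 0 + (p * f + d) := by
        intro hh
        have := a3.mp hh
        rw [zero_add] at this
        exact absurd (Nat.le_of_dvd hd0 this) (by omega)
      have b2 : (0 + d + p - 1) / p = 1 := by
        rw [Nat.div_eq_iff hp0]
        omega
      rw [if_neg a4, b1, b2] at h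
      push_cast at h
      rw [pz] at h
      linear_combination -h
  · have b1 : (e + p - 1) / p = 1 := by
      rw [Nat.div_eq_iff hp0]; omega
    rcases lt_trichotomy (e + d) p with hlt | heq | hgt
    · right; right
      refine ⟨by omega, c1 ?_⟩
      have a4 : ¬ p ∣ p * b + e + (p * f + d) := by
        intro hh
        have := a3.mp hh
        exact absurd (Nat.le_of_dvd (by omega) this) (by omega)
      have b2 : (e + d + p - 1) / p = 1 := by
        rw [Nat.div_eq_iff hp0]; omega
      rw [if_neg a4, b1, b2] at h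
      push_cast at h
      rw [pz] at h
      linear_combination -h
    · left
      have a4 : p ∣ p * b + e + (p * f + d) := a3.mpr (by rw [heq])
      have b2 : (e + d + p - 1) / p = 1 := by
        rw [Nat.div_eq_iff hp0]; omega
      rw [if_pos a4, b1, b2] at h
      apply c0
      push_cast at h
      rw [pz] at h
      linear_combination -h
    · right; left
      refine ⟨by omega, c2 ?_⟩
      have a4 : ¬ p ∣ p * b + e + (p * f + d) := by
        intro hh
        obtain ⟨c, hc⟩ := a3.mp hh
        have hc1 : 1 < c := by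
          by_contra hcon
          have : p * c ≤ p * 1 := Nat.mul_le_mul_left p (by omega)
          omega
        have hc2 : p * 2 ≤ p * c := Nat.mul_le_mul_left p hc1
        omega
      have b2 : (e + d + p - 1) / p = 2 := by
        rw [Nat.div_eq_iff hp0]; omega
      rw [if_neg a4, b1, b2] at h
      push_cast at h
      rw [pz] at h
      linear_combination -h

theorem p_zz : ZzStm := by
  intro p hp h3
  refine ⟨zz_lt p hp.pos p le_rfl, ?_⟩
  intro n k m hs hn
  have hp0 : 0 < p := hp.pos
  have hmain := zz_main p hp n k m hs hn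
  have em : m + 1 = p * ((m + 1) / p) + (m + 1) % p := (Nat.div_add_mod (m + 1) p).symm
  have ek : k = p * (k / p) + k % p := (Nat.div_add_mod k p).symm
  have hd : (m + 1) % p < p := Nat.mod_lt _ hp0
  have he : k % p < p := Nat.mod_lt _ hp0
  have hN : k + m + 1 = p * (k / p) + k % p + (p * ((m + 1) / p) + (m + 1) % p) := by omega
  have h1 := hmain
  rw [hN] at h1
  have hk' : (k + p - 1) = (p * (k / p) + k % p + p - 1) := by omega
  rw [hk'] at h1
  have h2 := zz_case p hp ((m + 1) / p) ((m + 1) % p) (k / p) (k % p) hd he (by rw [← em]; rw [← em] at h1; exact h1)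
  have hmod : (m + 1) % (p * p) = p * ((m + 1) / p % p) + (m + 1) % p := by
    rw [Nat.mod_mul]; ring
  rw [hmod]
  apply zz_row p ((m + 1) % p) _ _ p hd
  rcases h2 with h2 | ⟨h0, h2⟩ | ⟨h0, h2⟩
  · left; rw [h2]
  · right; left; exact ⟨h0, by rw [h2]⟩
  · right; right; exact ⟨h0, by rw [h2]⟩

end Pool.Agent.Lib.MP_d0b36d_nt.LB
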