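import Pool.Agent.Lib.MP_d0b36d_nt.LB.AlgC

/-!
MP_d0b36d_nt, hand-in MoserBound: the run of the continued fraction algorithm for `log 2` (kernel).
-/

set_option autoImplicit false
set_option maxRecDepth 100000

namespace Pool.Agent.Lib.MP_d0b36d_nt.LB

def st1 : Nat × Nat × Nat × Nat × Nat :=
  cf 1048576 10 0 0 false 27 (2 ^ 66520) (lg 66520 7100) 0 0

def st2 : Nat × Nat × Nat × Nat × Nat :=
  cf 1048576 14 0 0 false 17 st1.2.1 st1.2.2.1 st1.2.2.2.1 st1.2.2.2.2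

def st3 : Nat × Nat × Nat × Nat × Nat :=
  cf 1048576 90 97161052 97192509 true 19220 st2.2.1 st2.2.2.1 st2.2.2.2.1 st2.2.2.2.2

theorem run1 : and (Nat.beq st1.1 1) (Nat.ble (st1.2.1 * 2 ^ 29) (2 ^ 66520)) = true := by
  decide +kernel

theorem run2 : and (Nat.beq st2.1 1) (Nat.ble (st2.2.1 * 2 ^ 58) (2 ^ 66520)) = true := by
  decide +kernel

theorem run3 : and (Nat.beq st3.1 1) (Nat.ble (st3.2.1 * 2 ^ 33223) (2 ^ 66520)) = true := by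
  decide +kernel

theorem pk (x : Nat × Nat × Nat × Nat × Nat) (h : x.1 = 1) :
    x = (1, x.2.1, x.2.2.1, x.2.2.2.1, x.2.2.2.2) := by
  obtain ⟨a, b, c, d, e⟩ := x
  simp only at h
  rw [h]

theorem and_spec {a b : Nat} {x y : Nat} (h : and (Nat.beq a b) (Nat.ble x y) = true) :
    a = b ∧ x ≤ y := by
  cases h1 : Nat.beq a b with
  | true =>
    rw [h1] at h
    exact ⟨Nat.eq_of_beq_eq_true h1, Nat.le_of_ble_eq_true h⟩
  | false =>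
    rw [h1] at h
    cases h

/-- the three runs, with the state as a variable -/
theorem runs : ∃ x1 x2 x3 : Nat × Nat × Nat × Nat × Nat,
    (x1.1 = 1 ∧ cf 1048576 10 0 0 false 27 (2 ^ 66520) (lg 66520 7100) 0 0 = x1 ∧
      x1.2.1 * 2 ^ 29 ≤ 2 ^ 66520) ∧
    (x2.1 = 1 ∧ cf 1048576 14 0 0 false 17 x1.2.1 x1.2.2.1 x1.2.2.2.1 x1.2.2.2.2 = x2 ∧
      x2.2.1 * 2 ^ 58 ≤ 2 ^ 66520) ∧
    (x3.1 = 1 ∧ cf 1048576 90 97161052 97192509 true 19220 x2.2.1 x2.2.2.1 x2.2.2.2.1 x2.2.2.2.2 = x3 ∧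
      x3.2.1 * 2 ^ 33223 ≤ 2 ^ 66520) :=
  ⟨st1, st2, st3, ⟨(and_spec run1).1, rfl, (and_spec run1).2⟩,
    ⟨(and_spec run2).1, rfl, (and_spec run2).2⟩, ⟨(and_spec run3).1, rfl, (and_spec run3).2⟩⟩

end Pool.Agent.Lib.MP_d0b36d_nt.LB
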