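import Mathlib
import Pool.Agent.Lib.MP_d0b36d_nt.LB.Stm
import Pool.Agent.Lib.MP_d0b36d_nt.LB.RunC0

/-!
MP_d0b36d_nt, hand-in MoserBound: the run of the continued fraction algorithm, in the form of the
statement file.
-/

set_option autoImplicit false

namespace Pool.Agent.Lib.MP_d0b36d_nt.LB

theorem p_runc : RunCStm := by
  obtain ⟨x1, x2, x3, ⟨h1, e1, b1⟩, ⟨h2, e2, b2⟩, ⟨h3, e3, b3⟩⟩ := runs
  exact ⟨x1.2.1, x1.2.2.1, x1.2.2.2.1, x1.2.2.2.2, x2.2.1, x2.2.2.1, x2.2.2.2.1, x2.2.2.2.2,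
    x3.2.1, x3.2.2.1, x3.2.2.2.1, x3.2.2.2.2, e1.trans (pk x1 h1), e2.trans (pk x2 h2),
    e3.trans (pk x3 h3), b1, b2, b3⟩

end Pool.Agent.Lib.MP_d0b36d_nt.LB
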