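import Mathlib
import Pool.Agent.Lib.MP_d0b36d_nt.LS.PSol
import Pool.Agent.Lib.MP_d0b36d_nt.LB.POnes
import Pool.Agent.Lib.MP_d0b36d_nt.LB.PNz
import Pool.Agent.Lib.MP_d0b36d_nt.LB.PColp
import Pool.Agent.Lib.MP_d0b36d_nt.LB.PTst
import Pool.Agent.Lib.MP_d0b36d_nt.LB.PCol
import Pool.Agent.Lib.MP_d0b36d_nt.LB.PTab
import Pool.Agent.Lib.MP_d0b36d_nt.LB.PZz
import Pool.Agent.Lib.MP_d0b36d_nt.LB.PMsk
import Pool.Agent.Lib.MP_d0b36d_nt.LB.PDfs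
import Pool.Agent.Lib.MP_d0b36d_nt.LB.PTwo
import Pool.Agent.Lib.MP_d0b36d_nt.LB.PShort
import Pool.Agent.Lib.MP_d0b36d_nt.LB.Cert
import Pool.Agent.Lib.MP_d0b36d_nt.LB.PAk
import Pool.Agent.Lib.MP_d0b36d_nt.LB.PFf
import Pool.Agent.Lib.MP_d0b36d_nt.LB.PExpn
import Pool.Agent.Lib.MP_d0b36d_nt.LB.PLg
import Pool.Agent.Lib.MP_d0b36d_nt.LB.PCf
import Pool.Agent.Lib.MP_d0b36d_nt.LB.RunC
import Pool.Agent.Lib.MP_d0b36d_nt.LB.PLong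
import Pool.Agent.Lib.MP_d0b36d_nt.LB.PConv

/-!
MP_d0b36d_nt, hand-in MoserBound: assembly.
-/

set_option autoImplicit false

namespace Pool.Agent.Lib.MP_d0b36d_nt.LB

open Finset
open Pool.Agent.Lib.MP_d0b36d_nt.LS (Sol p_sol)

theorem short : ShortStm :=
  p_short p_ones (p_two p_sol) (p_dfs (p_msk p_ones p_zz))
    (p_run (p_tab (p_col p_colp (p_tst p_ones (p_nz p_ones)))))

theorem expn : ExpnStm := p_expn p_sol p_ak (p_ff p_ak)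

theorem final : ∀ n k m : ℕ, 3 < n → 0 < k → 0 < m →
    ∑ i ∈ Icc k (k + m), i ^ n = (k + m + 1) ^ n →
    (10 ^ 8 * ((k + m + 1 : ℕ) : ℝ) ^ 2 ≤ Real.exp (5 / 8 * ((m + 1 : ℕ) : ℝ)) →
      ∃ i : ℕ, (2 * (n : ℚ)) / (2 * ((k + m + 1 : ℕ) : ℚ) - 3) = (Real.log 2).convergent i) ∧
    74000 < m + 1 ∧ 10 ^ 10000 < n := by
  intro n k m hn hk hm h
  have hs : Sol n k m := ⟨hn, hk, hm, h⟩
  have h1 := short n k m hs
  exact ⟨p_conv short expn n k m hs, by omega, p_long p_sol short expn p_lg p_cf p_runc n k m hs⟩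

end Pool.Agent.Lib.MP_d0b36d_nt.LB
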