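import Mathlib
import Pool.Agent.Lib.MP_d0b36d_nt.LB.Stm

/-!
MP_d0b36d_nt, hand-in MoserBound: piece DFS.
-/

set_option autoImplicit false

namespace Pool.Agent.Lib.MP_d0b36d_nt.LB

open Pool.Agent.Lib.MP_d0b36d_nt.LS (Sol)

private lemma dfs_exists {n b L q : ℕ} (hq : 1 ≤ q) (h : n % L = b % L) :
    ∃ c < q, n % (L * q) = (b + L * c) % (L * q) := by
  have h1 : (L : ℤ) ∣ (b : ℤ) - n := (Nat.modEq_iff_dvd (n := L) (a := n) (b := b)).mp h
  obtain ⟨t, ht⟩ := h1
  have hq0 : (0 : ℤ) < q := by exact_mod_cast hq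
  refine ⟨((-t) % q).toNat, ?_, ?_⟩
  · have h2 := Int.emod_nonneg (-t) hq0.ne'
    have h3 := Int.emod_lt_of_pos (-t) hq0
    omega
  · have h2 := Int.emod_nonneg (-t) hq0.ne'
    have h4 : (((-t) % q).toNat : ℤ) = (-t) % q := Int.toNat_of_nonneg h2
    have h5 : n ≡ b + L * ((-t) % q).toNat [MOD (L * q)] := by
      rw [Nat.modEq_iff_dvd]
      push_cast
      rw [h4]
      have h6 : (-t) % (q : ℤ) = -t - q * ((-t) / q) := Int.emod_def _ _
      refine ⟨-((-t) / q), ?_⟩
      rw [h6]
      linear_combination ht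
    exact h5

private lemma dfs_step {R m M : ℕ} : ∀ (l : List (ℕ × ℕ)) (S : ℕ),
    (∀ c ∈ l, (msk R c.1 c.2 (m % (c.1 - 1))).testBit M = true) → S.testBit M = true →
    (step R m l S).testBit M = true := by
  intro l
  induction l with
  | nil => intro S _ hS; simpa [step] using hS
  | cons c t ih =>
    intro S h hS
    have hS0 : S ≠ 0 := by
      rintro rfl
      simp at hS
    have hb : Nat.beq S 0 = false := by
      cases hh : Nat.beq S 0 with
      | false => rfl
      | true => exact absurd (Nat.eq_of_beq_eq_true hh) hS0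
    simp only [step, hb, cond_false]
    apply ih
    · intro c' hc'
      exact h c' (List.mem_cons_of_mem _ hc')
    · have h1 := h c List.mem_cons_self
      have h2 : Nat.land S (msk R c.1 c.2 (m % (c.1 - 1))) = S &&& (msk R c.1 c.2 (m % (c.1 - 1))) :=
        rfl
      rw [h2, Nat.testBit_and, hS, h1]
      rfl

private lemma dfs_allB {f : ℕ → Bool} : ∀ q : ℕ, allB f q = true → ∀ c < q, f c = true := by
  intro q
  induction q with
  | zero => intro _ c hc; omega
  | succ q ih =>
    intro h c hc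
    simp only [allB, Bool.and_eq_true] at h
    rcases Nat.lt_succ_iff_lt_or_eq.mp hc with h1 | h1
    · exact ih h.2 c h1
    · rw [h1]; exact h.1

theorem p_dfs (h : MskStm) : DfsStm := by
  intro R l
  induction l with
  | nil =>
    intro L b S _ _ hd n k m _ _ _ _ hS
    simp only [dfs] at hd
    have h0 : S = 0 := Nat.eq_of_beq_eq_true hd
    rw [h0] at hS
    simp at hS
  | cons c rest ih =>
    obtain ⟨q, ps⟩ := c
    intro L b S hL hC hd n k m hsol hev hR hn hS
    obtain ⟨⟨hq, hps⟩, hrest⟩ := hC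
    have hS0 : S ≠ 0 := by
      rintro rfl
      simp at hS
    have hb : Nat.beq S 0 = false := by
      cases hh : Nat.beq S 0 with
      | false => rfl
      | true => exact absurd (Nat.eq_of_beq_eq_true hh) hS0
    simp only [dfs, hb, cond_false] at hd
    obtain ⟨c, hc, hnc⟩ := dfs_exists hq hn
    have h1 := dfs_allB q hd c hc
    refine ih (L * q) (b + L * c) _ (Nat.mul_pos hL hq) hrest h1 n k m hsol hev hR hnc ?_
    apply dfs_step
    · intro c' hc'
      obtain ⟨hp, h3, hdvd, htab⟩ := hps c' hc'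
      have h2 : (b + L * c) % (c'.1 - 1) = n % (c'.1 - 1) := by
        have h4 := congrArg (fun z => z % (c'.1 - 1)) hnc
        rw [Nat.mod_mod_of_dvd _ hdvd, Nat.mod_mod_of_dvd _ hdvd] at h4
        exact h4.symm
      rw [h2]
      exact h R c'.1 c'.2 hp h3 htab n k m hsol hev hR
    · exact hS

end Pool.Agent.Lib.MP_d0b36d_nt.LB
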