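import Mathlib
import Pool.Agent.Lib.MP_d0b36d_nt.LB.Stm

/-!
MP_d0b36d_nt, hand-in MoserBound, piece LONG: every solution has `n > 10^10000`.
-/

set_option autoImplicit false

namespace Pool.Agent.Lib.MP_d0b36d_nt.LB

open Finset
open Pool.Agent.Lib.MP_d0b36d_nt.LS (Sol)

private theorem long_inv {A B S u v tl th q' : ℕ} (h : Inv A B S u v tl th q') :
    B < 2 * q' * u := by
  obtain ⟨hvu, p, q, p', hqq, hq0, hc, -, -⟩ := h
  have key : (q' : ℤ) * u + q * v = B := by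
    rcases hc with ⟨h1, h2, h3⟩ | ⟨h1, h2, h3⟩
    · have h1' : (p : ℤ) * q' = p' * q + 1 := by exact_mod_cast h1
      have h2' : (p : ℤ) * B = q * A + u := by exact_mod_cast h2
      have h3' : (q' : ℤ) * A = p' * B + v := by exact_mod_cast h3
      have hu : (u : ℤ) = p * B - q * A := by linarith
      have hv : (v : ℤ) = q' * A - p' * B := by linarith
      rw [hu, hv]
      have : (q' : ℤ) * (p * B - q * A) + q * (q' * A - p' * B) = B * (p * q' - p' * q) := by ring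
      rw [this, h1']
      ring
    · have h1' : (p' : ℤ) * q = p * q' + 1 := by exact_mod_cast h1
      have h2' : (q : ℤ) * A = p * B + u := by exact_mod_cast h2
      have h3' : (p' : ℤ) * B = q' * A + v := by exact_mod_cast h3
      have hu : (u : ℤ) = q * A - p * B := by linarith
      have hv : (v : ℤ) = p' * B - q' * A := by linarith
      rw [hu, hv]
      have : (q' : ℤ) * (q * A - p * B) + q * (p' * B - q' * A) = B * (p' * q - p * q') := by ring
      rw [this, h1']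
      ring
  have key' : q' * u + q * v = B := by exact_mod_cast key
  have h1 : q * v ≤ q' * v := Nat.mul_le_mul_right _ hqq
  have h2 : q' * v < q' * u := Nat.mul_lt_mul_of_pos_left hvu hq0
  calc B = q' * u + q * v := key'.symm
    _ ≤ q' * u + q' * v := by omega
    _ < q' * u + q' * u := by omega
    _ = 2 * q' * u := by ring

private theorem long_q {A B S u v tl th q' T : ℕ} (h : Inv A B S u v tl th q')
    (hT : u * (2 * T) ≤ B) : T < q' := by
  have h1 := long_inv h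
  by_contra hc
  push Not at hc
  have h2 : 2 * q' * u ≤ 2 * T * u := Nat.mul_le_mul_right _ (Nat.mul_le_mul_left _ hc)
  have h3 : 2 * T * u = u * (2 * T) := by ring
  omega

private theorem long_kap : 0.0107903 < kap ∧ kap < 0.0107904 := by
  have h1 := Real.log_two_gt_d9
  have h2 := Real.log_two_lt_d9
  unfold kap
  constructor <;> nlinarith

/-- the distance between the real quantity and its integer form -/
private theorem long_cmp (A B Q P : ℕ) (hB : 0 < B) (hA : |Real.log 2 * B - (A : ℝ)| ≤ 184626)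
    (hQ : Q ^ 2 * 2 ^ 76 ≤ B) :
    |(Q : ℝ) * (Q * Real.log 2 - P) - (Q : ℝ) * (Q * A - P * B) / B| ≤ 1 / 10 ^ 8 := by
  have hB' : (0 : ℝ) < B := by exact_mod_cast hB
  have e : (Q : ℝ) * (Q * Real.log 2 - P) - (Q : ℝ) * (Q * A - P * B) / B =
      (Q : ℝ) ^ 2 / B * (Real.log 2 * B - A) := by
    field_simp
    ring
  rw [e, abs_mul, abs_of_nonneg (by positivity)]
  have hQ' : (Q : ℝ) ^ 2 * 2 ^ 76 ≤ B := by exact_mod_cast hQ
  have h1 : (Q : ℝ) ^ 2 / B ≤ 1 / 2 ^ 76 := by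
    rw [div_le_div_iff₀ hB' (by positivity)]
    linarith
  calc (Q : ℝ) ^ 2 / B * |Real.log 2 * B - A| ≤ 1 / 2 ^ 76 * 184626 :=
        mul_le_mul h1 hA (abs_nonneg _) (by positivity)
    _ ≤ 1 / 10 ^ 8 := by norm_num

private theorem long_core (A B n N q1 q2 q3 : ℕ) (hN : 74017 ≤ N) (hB : 0 < B)
    (hA : |Real.log 2 * B - (A : ℝ)| ≤ 184626) (hQ : (2 * N - 3) ^ 2 * 2 ^ 76 ≤ B)
    (hx : |(2 * (N : ℝ) - 3) * ((2 * (N : ℝ) - 3) * Real.log 2 - 2 * n) - kap| ≤
      5000 / (N : ℝ) + 1 / 10 ^ 7)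
    (hq1 : 2 ^ 28 < q1) (hq2 : 2 ^ 57 < q2) (hq3 : 2 * N - 3 < q3)
    (h1 : ∀ P Q : ℕ, 1 ≤ Q → Q < q1 → B ≤ 12 * (Q * ((Q : ℤ) * A - P * B).natAbs))
    (h2 : ∀ P Q : ℕ, q1 ≤ Q → Q < q2 → B ≤ 16 * (Q * ((Q : ℤ) * A - P * B).natAbs))
    (h3 : ∀ P Q : ℕ, q2 ≤ Q → Q < q3 → B ≤ 92 * (Q * ((Q : ℤ) * A - P * B).natAbs) ∨
      ¬ (97161052 * (Q * ((Q : ℤ) * A - P * B).natAbs) ≤ 1048576 * B ∧
        1048576 * B ≤ 97192509 * (Q * ((Q : ℤ) * A - P * B).natAbs))) : False := by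
  obtain ⟨hk1, hk2⟩ := long_kap
  have hB' : (0 : ℝ) < B := by exact_mod_cast hB
  have hN' : (74017 : ℝ) ≤ N := by exact_mod_cast hN
  obtain ⟨Q, hQdef⟩ : ∃ Q : ℕ, Q = 2 * N - 3 := ⟨_, rfl⟩
  obtain ⟨P, hPdef⟩ : ∃ P : ℕ, P = 2 * n := ⟨_, rfl⟩
  have hQN : (Q : ℝ) = 2 * (N : ℝ) - 3 := by
    have : Q + 3 = 2 * N := by omega
    have h : (Q : ℝ) + 3 = 2 * N := by exact_mod_cast this
    linarith
  have hPn : (P : ℝ) = 2 * (n : ℝ) := by rw [hPdef]; push_cast; ring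
  rw [← hQdef] at hQ hq3
  rw [← hQN, ← hPn] at hx
  have hcmp := long_cmp A B Q P hB hA hQ
  set D : ℕ := Q * ((Q : ℤ) * A - P * B).natAbs with hD
  have hDr : (D : ℝ) = |(Q : ℝ) * (Q * A - P * B)| := by
    rw [hD, abs_mul, abs_of_nonneg (by positivity : (0 : ℝ) ≤ Q)]
    push_cast [Nat.cast_natAbs]
    rfl
  set y : ℝ := (Q : ℝ) * (Q * A - P * B) / B with hy
  have hDy : (D : ℝ) = |y| * B := by
    rw [hDr, hy, abs_div, abs_of_pos hB']
    field_simp
  set x : ℝ := (Q : ℝ) * (Q * Real.log 2 - P) with hxdef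
  have hxy : |y - kap| ≤ 5000 / (N : ℝ) + 1 / 10 ^ 7 + 1 / 10 ^ 8 := by
    have : y - kap = (x - kap) - (x - y) := by ring
    rw [this]
    calc |(x - kap) - (x - y)| ≤ |x - kap| + |x - y| := abs_sub _ _
      _ ≤ _ := by linarith
  have hyabs : |y| ≤ kap + (5000 / (N : ℝ) + 1 / 10 ^ 7 + 1 / 10 ^ 8) := by
    have : |y| ≤ |y - kap| + |kap| := by
      calc |y| = |(y - kap) + kap| := by ring_nf
        _ ≤ _ := abs_add_le _ _
    rw [abs_of_pos (by linarith : (0 : ℝ) < kap)] at this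
    linarith
  have hNpos : (0 : ℝ) < N := by linarith
  by_cases c1 : Q < q1
  · have hb := h1 P Q (by omega) c1
    rw [← hD] at hb
    have hb' : (B : ℝ) ≤ 12 * D := by exact_mod_cast hb
    have e1 : 5000 / (N : ℝ) ≤ 5000 / 74017 := by gcongr
    have e2 : |y| < 1 / 12 := by
      refine lt_of_le_of_lt (hyabs.trans (add_le_add hk2.le
        (add_le_add (add_le_add e1 le_rfl) le_rfl))) ?_
      norm_num
    have e3 : (12 : ℝ) * D < B := by
      rw [hDy]
      nlinarith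
    linarith
  · push Not at c1
    have hNq : (2 : ℝ) ^ 27 ≤ N := by
      have : 2 ^ 27 ≤ N := by
        have : (2 : ℕ) ^ 28 < 2 * N - 3 := by omega
        norm_num at this ⊢
        omega
      exact_mod_cast this
    by_cases c2 : Q < q2
    · have hb := h2 P Q c1 c2
      rw [← hD] at hb
      have hb' : (B : ℝ) ≤ 16 * D := by exact_mod_cast hb
      have e1 : 5000 / (N : ℝ) ≤ 5000 / 2 ^ 27 := by gcongr
      have e2 : |y| < 1 / 16 := by
        refine lt_of_le_of_lt (hyabs.trans (add_le_add hk2.le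
          (add_le_add (add_le_add e1 le_rfl) le_rfl))) ?_
        norm_num
      have e3 : (16 : ℝ) * D < B := by
        rw [hDy]
        nlinarith
      linarith
    · push Not at c2
      have hNq2 : (2 : ℝ) ^ 56 ≤ N := by
        have : 2 ^ 56 ≤ N := by
          have : (2 : ℕ) ^ 57 < 2 * N - 3 := by omega
          norm_num at this ⊢
          omega
        exact_mod_cast this
      have e1 : 5000 / (N : ℝ) ≤ 5000 / 2 ^ 56 := by gcongr
      have e4 : |y - kap| ≤ 12 / 10 ^ 8 := by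
        refine hxy.trans ((add_le_add (add_le_add e1 le_rfl) le_rfl).trans ?_)
        norm_num
      have e5 := abs_le.mp e4
      have hypos : 0 < y := by
        have := e5.1
        norm_num at this ⊢
        linarith
      rw [abs_of_pos hypos] at hDy
      have hu : y ≤ 0.0107906 := by
        have := e5.2
        norm_num at this ⊢
        norm_num at hk2
        linarith
      have hl : 0.01079 ≤ y := by
        have := e5.1
        norm_num at this ⊢
        norm_num at hk1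
        linarith
      norm_num at hu hl
      rcases h3 P Q c2 hq3 with hb | hb
      · rw [← hD] at hb
        have hb' : (B : ℝ) ≤ 92 * D := by exact_mod_cast hb
        rw [hDy] at hb'
        nlinarith
      · rw [← hD] at hb
        apply hb
        constructor
        · have : (97161052 : ℝ) * D ≤ 1048576 * B := by
            rw [hDy]
            nlinarith
          exact_mod_cast this
        · have : (1048576 : ℝ) * B ≤ 97192509 * D := by
            rw [hDy]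
            nlinarith
          exact_mod_cast this

private theorem long_pow1 : 16 * 10 ^ 10000 ≤ 5 * 2 ^ 33222 := by decide +kernel

private theorem long_pow2 : 2 ^ 66520 ≤ 676 ^ 7100 := by decide +kernel

private theorem long_pow3 : 1000 * (7100 + 1) ≤ 2 ^ 66520 := by decide +kernel

private theorem long_pow4 : 10 ^ 9 * (10 ^ 10000) ^ 2 ≤ 2 ^ 66700 := by decide +kernel

private theorem long_pow5 : (2 ^ 33222) ^ 2 * 2 ^ 76 = 2 ^ 66520 := by
  rw [← pow_mul, ← pow_add]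

/-- the condition of EXPN -/
private theorem long_exp (T N m : ℕ) (hT : 10 ^ 9 * T ^ 2 ≤ 2 ^ 66700) (hN : 5 * N ≤ 8 * T)
    (hm : 74016 ≤ m + 1) :
    10 ^ 8 * (N : ℝ) ^ 2 ≤ Real.exp (5 / 8 * ((m + 1 : ℕ) : ℝ)) := by
  have h1 : 10 ^ 8 * N ^ 2 ≤ 10 ^ 9 * T ^ 2 := by
    have : (5 * N) ^ 2 ≤ (8 * T) ^ 2 := Nat.pow_le_pow_left hN 2
    nlinarith
  have h2 : (10 : ℝ) ^ 8 * (N : ℝ) ^ 2 ≤ (2 : ℝ) ^ 66700 := by
    have := h1.trans hT
    exact_mod_cast this
  have h3 : (2 : ℝ) ^ 66700 = Real.exp (66700 * Real.log 2) := by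
    rw [mul_comm, ← Real.rpow_def_of_pos (by norm_num : (0 : ℝ) < 2)]
    rw [show (66700 : ℝ) = ((66700 : ℕ) : ℝ) by norm_num, Real.rpow_natCast]
  refine h2.trans ?_
  rw [h3]
  apply Real.exp_le_exp.mpr
  have h4 := Real.log_two_lt_d9
  have h5 : (74016 : ℝ) ≤ ((m + 1 : ℕ) : ℝ) := by exact_mod_cast hm
  clear h3 h2 h1 hT
  linarith

private theorem long_AB (A B : ℕ) (hbig : 1000000 ≤ B)
    (hA : |Real.log 2 * B - (A : ℝ)| ≤ 184626) : A < B := by
  have hl := Real.log_two_lt_d9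
  have hBr : (1000000 : ℝ) ≤ (B : ℝ) := by exact_mod_cast hbig
  have h6 := (abs_le.mp hA).1
  have : (A : ℝ) < B := by nlinarith
  exact_mod_cast this

private theorem long_qt (X Y N : ℕ) (h1 : 16 * X ≤ 5 * Y) (h2 : 5 * N ≤ 8 * X) :
    2 * N - 3 ≤ Y := by omega

/-- the steps that use the run, with abstract numbers `A`, `B` -/
private theorem long_run (h4 : CfStm) (A B n N T : ℕ) (hB : 0 < B) (hAB : A < B)
    (hN : 74017 ≤ N)
    (hA : |Real.log 2 * B - (A : ℝ)| ≤ 184626) (hQ : (2 * N - 3) ^ 2 * 2 ^ 76 ≤ B)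
    (hx : |(2 * (N : ℝ) - 3) * ((2 * (N : ℝ) - 3) * Real.log 2 - 2 * n) - kap| ≤
      5000 / (N : ℝ) + 1 / 10 ^ 7) (hT : 2 * N - 3 ≤ T)
    (hrun : ∃ u v tl th u1 v1 tl1 th1 u2 v2 tl2 th2 : ℕ,
      cf 1048576 10 0 0 false 27 B A 0 0 = (1, u, v, tl, th) ∧
      cf 1048576 14 0 0 false 17 u v tl th = (1, u1, v1, tl1, th1) ∧
      cf 1048576 90 97161052 97192509 true 19220 u1 v1 tl1 th1 = (1, u2, v2, tl2, th2) ∧
      u * (2 * 2 ^ 28) ≤ B ∧ u1 * (2 * 2 ^ 57) ≤ B ∧ u2 * (2 * T) ≤ B) : False := by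
  obtain ⟨u, v, tl, th, u1, v1, tl1, th1, u2, v2, tl2, th2, r1, r2, r3, b1, b2, b3⟩ := hrun
  have i0 : Inv A B 1048576 B A 0 0 1 :=
    ⟨hAB, 1, 0, 0, by simp, by simp, Or.inl ⟨by simp, by simp, by simp⟩, by simp, by simp⟩
  obtain ⟨q1, i1, g1⟩ := h4 A B 1048576 10 0 0 false 27 B A 0 0 1 hB (by norm_num) (by norm_num)
    i0 u v tl th r1
  obtain ⟨q2, i2, g2⟩ := h4 A B 1048576 14 0 0 false 17 u v tl th q1 hB (by norm_num) (by norm_num)
    i1 u1 v1 tl1 th1 r2
  obtain ⟨q3, i3, g3⟩ := h4 A B 1048576 90 97161052 97192509 true 19220 u1 v1 tl1 th1 q2 hB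
    (by norm_num) (by norm_num) i2 u2 v2 tl2 th2 r3
  have k1 := long_q i1 b1
  have k2 := long_q i2 b2
  have k3 := long_q i3 b3
  refine long_core A B n N q1 q2 q3 hN hB hA hQ hx k1 k2 (lt_of_le_of_lt hT k3) ?_ ?_ ?_
  · intro P Q hQ1 hQ2
    rcases g1 P Q hQ1 hQ2 with h | h
    · exact h
    · exact absurd h.1 (by decide)
  · intro P Q hQ1 hQ2
    rcases g2 P Q hQ1 hQ2 with h | h
    · exact h
    · exact absurd h.1 (by decide)
  · intro P Q hQ1 hQ2
    rcases g3 P Q hQ1 hQ2 with h | h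
    · exact Or.inl h
    · exact Or.inr h.2

theorem p_long (h0 : Pool.Agent.Lib.MP_d0b36d_nt.LS.SolStm) (h1 : ShortStm) (h2 : ExpnStm)
    (h3 : LgStm) (h4 : CfStm) (h5 : RunCStm) : LongStm := by
  intro n k m hs
  by_contra hcon
  push Not at hcon
  obtain ⟨-, hN8, -, -, -⟩ := h0.1 n k m hs
  have hk1 : 1 ≤ k := hs.2.1
  have hm := h1 n k m hs
  obtain ⟨N, hNdef⟩ : ∃ N : ℕ, N = k + m + 1 := ⟨_, rfl⟩
  have hN : 74017 ≤ N := by omega
  have hN5 : 5 * N ≤ 8 * 10 ^ 10000 := by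
    rw [← hNdef] at hN8
    exact hN8.le.trans (Nat.mul_le_mul_left 8 hcon)
  have hexp := long_exp (10 ^ 10000) N m long_pow4 hN5 hm
  have hx := h2 n k m hs (by omega) (by rw [← hNdef]; exact hexp)
  rw [← hNdef] at hx
  have hlg := h3 66520 7100 long_pow2 long_pow3
  have hQT : 2 * N - 3 ≤ 2 ^ 33222 := long_qt _ _ _ long_pow1 hN5
  have hQB : (2 * N - 3) ^ 2 * 2 ^ 76 ≤ 2 ^ 66520 := by
    rw [← long_pow5]
    exact Nat.mul_le_mul_right _ (Nat.pow_le_pow_left hQT 2)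
  obtain ⟨u, v, tl, th, u1, v1, tl1, th1, u2, v2, tl2, th2, r1, r2, r3, b1, b2, b3⟩ := h5
  have hbb1 : u * (2 * 2 ^ 28) ≤ 2 ^ 66520 := by
    have : 2 * 2 ^ 28 = 2 ^ 29 := by norm_num
    rw [this]; exact b1
  have hbb2 : u1 * (2 * 2 ^ 57) ≤ 2 ^ 66520 := by
    have : 2 * 2 ^ 57 = 2 ^ 58 := by norm_num
    rw [this]; exact b2
  have hbb3 : u2 * (2 * 2 ^ 33222) ≤ 2 ^ 66520 := by
    have : 2 * 2 ^ 33222 = 2 ^ 33223 := by rw [← pow_succ']
    rw [this]; exact b3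
  have hlg' : |Real.log 2 * ((2 ^ 66520 : ℕ) : ℝ) - ((lg 66520 7100 : ℕ) : ℝ)| ≤ 184626 := by
    have e : (26 : ℝ) * (((7100 : ℕ) : ℝ) + 1) = 184626 := by norm_num
    rw [e] at hlg
    rw [Nat.cast_pow, Nat.cast_ofNat]
    exact hlg
  have hbig : 1000000 ≤ 2 ^ 66520 := le_trans (by norm_num) long_pow3
  have hB : 0 < 2 ^ 66520 := lt_of_lt_of_le (by norm_num) hbig
  have hAB := long_AB _ _ hbig hlg'
  exact long_run h4 _ _ n N (2 ^ 33222) hB hAB hN hlg' hQB hx hQT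
    ⟨u, v, tl, th, u1, v1, tl1, th1, u2, v2, tl2, th2, r1, r2, r3, hbb1, hbb2, hbb3⟩

end Pool.Agent.Lib.MP_d0b36d_nt.LB
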